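import Mathlib.Tactic.Ring
import Mathlib.Tactic.Linarith
import Mathlib.Tactic.NormNum
import Mathlib.Tactic.IntervalCases
import Mathlib.Data.Finset.Card
import Mathlib.Data.Nat.Bitwise
import Mathlib.Algebra.BigOperators.Group.Finset.Basic
import Pool.Agent.H61.Gom.Const

/-!
Hexadecimal digits of natural numbers, and the tables used by the checking machine.
-/

set_option autoImplicit false
set_option linter.dupNamespace false

namespace Pool.Agent.H61.Gom

/-- the `n`-th hexadecimal digit -/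
def dg (P n : ℕ) : ℕ := P / 16 ^ n % 16

theorem dg_lt (P n : ℕ) : dg P n < 16 := Nat.mod_lt _ (by norm_num)

theorem dg_zero (n : ℕ) : dg 0 n = 0 := by simp [dg]

theorem low_add {P Q : ℕ} : ∀ n : ℕ, (∀ m, m < n → dg P m + dg Q m < 16) →
    P % 16 ^ n + Q % 16 ^ n < 16 ^ n
  | 0, _ => by simp [Nat.mod_one]
  | n + 1, h => by
    have ih := low_add n (fun m hm => h m (by omega))
    have hn := h n (by omega)
    rw [Nat.mod_pow_succ, Nat.mod_pow_succ, pow_succ]
    unfold dg at hn
    have h2 := Nat.mul_le_mul_left (16 ^ n)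
      (show P / 16 ^ n % 16 + Q / 16 ^ n % 16 ≤ 15 by omega)
    rw [Nat.mul_add] at h2
    linarith

theorem div_add_of_low {P Q N : ℕ} (h : P % N + Q % N < N) : (P + Q) / N = P / N + Q / N := by
  have hN : 0 < N := by omega
  have e : P + Q = (P % N + Q % N) + N * (P / N + Q / N) := by
    have h1 := Nat.div_add_mod P N
    have h2 := Nat.div_add_mod Q N
    rw [Nat.mul_add]; omega
  rw [e, Nat.add_mul_div_left _ _ hN, Nat.div_eq_of_lt h, Nat.zero_add]

theorem dg_add {P Q n : ℕ} (h : ∀ m, m ≤ n → dg P m + dg Q m < 16) :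
    dg (P + Q) n = dg P n + dg Q n := by
  have hl := low_add n (fun m hm => h m (by omega))
  have hn := h n le_rfl
  unfold dg at *
  rw [div_add_of_low hl]
  omega

theorem low_le {P Q : ℕ} : ∀ n : ℕ, (∀ m, m < n → dg Q m ≤ dg P m) → Q % 16 ^ n ≤ P % 16 ^ n
  | 0, _ => by simp [Nat.mod_one]
  | n + 1, h => by
    have ih := low_le n (fun m hm => h m (by omega))
    have hn := h n (by omega)
    rw [Nat.mod_pow_succ, Nat.mod_pow_succ]
    unfold dg at hn
    have := Nat.mul_le_mul_left (16 ^ n) hn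
    omega

theorem div_sub_of_low {P Q N : ℕ} (hN : 0 < N) (hle : Q ≤ P) (h : Q % N ≤ P % N) :
    (P - Q) / N = P / N - Q / N := by
  have hd : Q / N ≤ P / N := Nat.div_le_div_right hle
  have e : P - Q = (P % N - Q % N) + N * (P / N - Q / N) := by
    have h1 := Nat.div_add_mod P N
    have h2 := Nat.div_add_mod Q N
    rw [Nat.mul_sub]
    have h3 := Nat.mul_le_mul_left N hd
    omega
  rw [e, Nat.add_mul_div_left _ _ hN, Nat.div_eq_of_lt, Nat.zero_add]
  have := Nat.mod_lt P hN
  omega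

theorem dg_sub {P Q n : ℕ} (hle : Q ≤ P) (h : ∀ m, m ≤ n → dg Q m ≤ dg P m) :
    dg (P - Q) n = dg P n - dg Q n := by
  have hl := low_le n (fun m hm => h m (by omega))
  have hn := h n le_rfl
  have hd : Q / 16 ^ n ≤ P / 16 ^ n := Nat.div_le_div_right hle
  unfold dg at *
  rw [div_sub_of_low (by positivity) hle hl]
  omega

theorem pow16 (n : ℕ) : (16 : ℕ) ^ n = 2 ^ (4 * n) := by
  rw [pow_mul]; norm_num

theorem dg_land (P Q n : ℕ) : dg (P &&& Q) n = dg P n &&& dg Q n := by
  unfold dg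
  rw [pow16, ← Nat.shiftRight_eq_div_pow, ← Nat.shiftRight_eq_div_pow, ← Nat.shiftRight_eq_div_pow,
    Nat.shiftRight_and_distrib]
  exact Nat.and_mod_two_pow (n := 4)

theorem dg_lor (P Q n : ℕ) : dg (P ||| Q) n = dg P n ||| dg Q n := by
  unfold dg
  rw [pow16, ← Nat.shiftRight_eq_div_pow, ← Nat.shiftRight_eq_div_pow, ← Nat.shiftRight_eq_div_pow,
    Nat.shiftRight_or_distrib]
  exact Nat.or_mod_two_pow (n := 4)

theorem dg_xor (P Q n : ℕ) : dg (P ^^^ Q) n = dg P n ^^^ dg Q n := by
  unfold dg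
  rw [pow16, ← Nat.shiftRight_eq_div_pow, ← Nat.shiftRight_eq_div_pow, ← Nat.shiftRight_eq_div_pow,
    Nat.shiftRight_xor_distrib]
  exact Nat.xor_mod_two_pow (n := 4)

theorem dg_shift (Q k n : ℕ) : dg (Q <<< (4 * k)) n = if k ≤ n then dg Q (n - k) else 0 := by
  unfold dg
  rw [Nat.shiftLeft_eq, ← pow16]
  split_ifs with h
  · have : 16 ^ n = 16 ^ (n - k) * 16 ^ k := by rw [← pow_add]; congr 1; omega
    rw [this, Nat.mul_div_mul_right _ _ (by positivity)]
  · have h' : 16 ^ k = 16 ^ n * (16 ^ (k - n - 1) * 16) := by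
      rw [← pow_succ, ← pow_add]; congr 1; omega
    rw [h', Nat.mul_left_comm, Nat.mul_div_cancel_left _ (by positivity), ← Nat.mul_assoc,
      Nat.mul_mod_left]

/-- the index steps of the four directions -/
def sv : ℕ → ℕ
  | 0 => 1
  | 1 => 32
  | 2 => 33
  | _ => 31

/-- positions of the windows through the cell of index 0 -/
def hitAux (d r : ℕ) : Bool :=
  cond (Nat.beq d 0) (Nat.ble r 4) (cond (Nat.beq d 1) (Nat.beq (Nat.mod r 32) 0 && Nat.ble r 128)
    (cond (Nat.beq d 2) (Nat.beq (Nat.mod r 33) 0 && Nat.ble r 132)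
      (cond (Nat.beq d 3) (Nat.beq (Nat.mod r 31) 0 && Nat.ble r 124) false)))

def hitPos (n : ℕ) : Bool := hitAux (Nat.div n 1024) (Nat.mod n 1024)

theorem hitPos_iff (n : ℕ) : hitPos n = true ↔ ∃ d, d < 4 ∧ ∃ j, j < 5 ∧ n = d * 1024 + j * sv d := by
  have e1 : Nat.div n 1024 = n / 1024 := rfl
  have e2 : Nat.mod n 1024 = n % 1024 := rfl
  have e3 : ∀ a b : ℕ, Nat.mod a b = a % b := fun _ _ => rfl
  have hb : ∀ a b : ℕ, Nat.beq a b = true ↔ a = b :=
    fun a b => ⟨Nat.eq_of_beq_eq_true, fun h => h ▸ Nat.beq_refl a⟩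
  have hl : ∀ a b : ℕ, Nat.ble a b = true ↔ a ≤ b :=
    fun a b => ⟨Nat.le_of_ble_eq_true, Nat.ble_eq_true_of_le⟩
  unfold hitPos
  rw [e1, e2]
  have hn : n = n / 1024 * 1024 + n % 1024 := by omega
  have hr : n % 1024 < 1024 := Nat.mod_lt _ (by norm_num)
  generalize n / 1024 = d at *
  generalize n % 1024 = r at *
  unfold hitAux
  constructor
  · intro h
    by_cases d0 : d = 0
    · subst d0
      have h' : Nat.ble r 4 = true := h
      rw [hl] at h'
      exact ⟨0, by norm_num, r, by omega, by simp [sv]; omega⟩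
    by_cases d1 : d = 1
    · subst d1
      have h' : (Nat.beq (Nat.mod r 32) 0 && Nat.ble r 128) = true := h
      rw [Bool.and_eq_true, hb, hl, e3] at h'
      exact ⟨1, by norm_num, r / 32, by omega, by simp [sv]; omega⟩
    by_cases d2 : d = 2
    · subst d2
      have h' : (Nat.beq (Nat.mod r 33) 0 && Nat.ble r 132) = true := h
      rw [Bool.and_eq_true, hb, hl, e3] at h'
      exact ⟨2, by norm_num, r / 33, by omega, by simp [sv]; omega⟩
    by_cases d3 : d = 3
    · subst d3
      have h' : (Nat.beq (Nat.mod r 31) 0 && Nat.ble r 124) = true := h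
      rw [Bool.and_eq_true, hb, hl, e3] at h'
      exact ⟨3, by norm_num, r / 31, by omega, by simp [sv]; omega⟩
    exfalso
    have g : ∀ k, d ≠ k → Nat.beq d k = false := fun k hk => by
      rw [← Bool.not_eq_true, hb]; exact hk
    rw [g 0 d0, g 1 d1, g 2 d2, g 3 d3] at h
    exact Bool.noConfusion h
  · rintro ⟨d', hd', j, hj, h⟩
    have hd : d = d' ∧ r = j * sv d' := by
      interval_cases d' <;> simp only [sv] at h ⊢ <;> omega
    obtain ⟨rfl, rfl⟩ := hd
    interval_cases d <;> interval_cases j <;> rfl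

/-- the digit `n`, for the kernel -/
def rd (P n : ℕ) : ℕ := Nat.land (Nat.shiftRight P (Nat.mul 4 n)) 15

theorem rd_eq (P n : ℕ) : rd P n = dg P n := by
  have e1 : rd P n = (P >>> (4 * n)) &&& (2 ^ 4 - 1) := rfl
  rw [e1, Nat.and_two_pow_sub_one_eq_mod, Nat.shiftRight_eq_div_pow, dg, pow16]

/-- all the numbers below `n` satisfy `f`, for the kernel -/
noncomputable def allB (f : ℕ → Bool) (n : ℕ) : Bool :=
  @Nat.rec (fun _ => Bool) true (fun k ih => @Bool.rec (fun _ => Bool) false ih (f k)) n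

theorem allB_iff {f : ℕ → Bool} : ∀ {n : ℕ}, allB f n = true → ∀ k, k < n → f k = true := by
  intro n
  induction n with
  | zero => intro _ k hk; omega
  | succ n ih =>
    intro h k hk
    have h' : @Bool.rec (fun _ => Bool) false (allB f n) (f n) = true := h
    cases hf : f n
    · rw [hf] at h'
      exact Bool.noConfusion (show (false : Bool) = true from h')
    · rw [hf] at h'
      rcases Nat.lt_succ_iff_lt_or_eq.1 hk with h1 | h1
      · exact ih h' k h1
      · rw [h1]; exact hf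

noncomputable def tabPat : Bool := allB (fun n => Nat.beq (rd cPAT n) (cond (hitPos n) 1 0)) 4096

noncomputable def tabKill : Bool := allB (fun n => Nat.beq (rd cKILL n) (cond (hitPos n) 15 0)) 4096

noncomputable def tabOne : Bool := allB (fun n => Nat.beq (rd cONE n) 1) 4096

noncomputable def tabEight : Bool := allB (fun n => Nat.beq (rd cEIGHT n) 8) 4096

set_option maxRecDepth 100000

theorem tabPat_eq : tabPat = true := by decide +kernel
theorem tabKill_eq : tabKill = true := by decide +kernel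
theorem tabOne_eq : tabOne = true := by decide +kernel
theorem tabEight_eq : tabEight = true := by decide +kernel

theorem cPAT_lt : cPAT < 16 ^ 4096 := by decide +kernel
theorem cKILL_lt : cKILL < 16 ^ 4096 := by decide +kernel

theorem hitPos_lt {n : ℕ} (h : hitPos n = true) : n < 4096 := by
  rw [hitPos_iff] at h
  obtain ⟨d, hd, j, hj, rfl⟩ := h
  interval_cases d <;> simp [sv] <;> omega

theorem dg_cPAT (n : ℕ) : dg cPAT n = if hitPos n = true then 1 else 0 := by
  rcases lt_or_ge n 4096 with h | h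
  · have := Nat.eq_of_beq_eq_true (allB_iff tabPat_eq n h)
    rw [rd_eq] at this
    rw [this]
    cases hitPos n <;> rfl
  · have e : dg cPAT n = 0 := by
      unfold dg
      rw [Nat.div_eq_of_lt (cPAT_lt.trans_le (Nat.pow_le_pow_right (by norm_num) h))]
    rw [e, if_neg]
    intro h'
    have := hitPos_lt h'
    omega

theorem dg_cKILL (n : ℕ) : dg cKILL n = if hitPos n = true then 15 else 0 := by
  rcases lt_or_ge n 4096 with h | h
  · have := Nat.eq_of_beq_eq_true (allB_iff tabKill_eq n h)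
    rw [rd_eq] at this
    rw [this]
    cases hitPos n <;> rfl
  · have e : dg cKILL n = 0 := by
      unfold dg
      rw [Nat.div_eq_of_lt (cKILL_lt.trans_le (Nat.pow_le_pow_right (by norm_num) h))]
    rw [e, if_neg]
    intro h'
    have := hitPos_lt h'
    omega

theorem dg_cONE {n : ℕ} (h : n < 4096) : dg cONE n = 1 := by
  rw [← rd_eq]
  exact Nat.eq_of_beq_eq_true (allB_iff tabOne_eq n h)

theorem dg_cEIGHT {n : ℕ} (h : n < 4096) : dg cEIGHT n = 8 := by
  rw [← rd_eq]
  exact Nat.eq_of_beq_eq_true (allB_iff tabEight_eq n h)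

/-- all the digits of `P` are at most `k` -/
def Le (k P : ℕ) : Prop := ∀ n, n < 4096 → dg P n ≤ k

theorem land8 : ∀ a : ℕ, a < 16 → (a &&& 8 = 0 → a ≤ 7) ∧ (a &&& 8 = 8 → 8 ≤ a) := by decide

theorem le7_of_land {P : ℕ} (h : P &&& cEIGHT = 0) : Le 7 P := by
  intro n hn
  have e := dg_land P cEIGHT n
  rw [h, dg_zero, dg_cEIGHT hn] at e
  exact (land8 _ (dg_lt P n)).1 e.symm

theorem lor8 : ∀ a : ℕ, a < 16 → 8 ≤ (a ||| 8) ∧ (a ||| 8) ≤ a + 8 := by decide

theorem le_of_leD {P P' : ℕ} (h1 : P &&& cEIGHT = 0)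
    (h2 : ((P' ||| cEIGHT) - P) &&& cEIGHT = cEIGHT) {n : ℕ} (hn : n < 4096) : dg P n ≤ dg P' n := by
  have h7 := le7_of_land h1
  have hle : P ≤ P' ||| cEIGHT := by
    by_contra hc
    have : (P' ||| cEIGHT) - P = 0 := by omega
    rw [this, Nat.zero_and] at h2
    have := dg_cEIGHT (n := 0) (by norm_num)
    rw [← h2, dg_zero] at this
    omega
  have hq : ∀ m, m ≤ n → dg P m ≤ dg (P' ||| cEIGHT) m := by
    intro m hm
    have hm' : m < 4096 := by omega
    rw [dg_lor, dg_cEIGHT hm']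
    have := (lor8 _ (dg_lt P' m)).1
    have := h7 m hm'
    omega
  have hs := dg_sub hle hq
  have e := dg_land ((P' ||| cEIGHT) - P) cEIGHT n
  rw [h2, hs, dg_lor, dg_cEIGHT hn] at e
  have hl := lor8 _ (dg_lt P' n)
  have hlt : (dg P' n ||| 8) - dg P n < 16 := by
    have := dg_lt (P' ||| cEIGHT) n
    rw [dg_lor, dg_cEIGHT hn] at this
    omega
  have := (land8 _ hlt).2 e.symm
  omega

end Pool.Agent.H61.Gom
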