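import Pool.Agent.H61.Gom.Line2

/-!
The first white stone is far away: black makes a shape whose threats stay away from it.
-/

set_option autoImplicit false
set_option linter.dupNamespace false

namespace Pool.Agent.H61.Gom

variable {S3 : Finset Cell} {s3 Z PA P6 N0 : ℕ} {mx : ℤ} {o δ : Cell}

/-- three white stones in a window away from the shape -/
theorem line_win (hS : Shape S3 s3 Z PA P6 mx N0) (hδ : Dir δ) (hx : mx ≤ o.1) {j k : ℕ} (hj : 0 < j)
    (hjk : j < k) (hk : k ≤ 4) : WinN (N0 + 6) S3 (sl o δ [20, 20 + j, 20 + k]) := by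
  have e0 : S3 ∪ sl o δ [] = S3 := by simp [sl]
  have h : (j = 1 ∧ k = 2) ∨ (j = 1 ∧ k = 3) ∨ (j = 1 ∧ k = 4) ∨ (j = 2 ∧ k = 3) ∨
      (j = 2 ∧ k = 4) ∨ (j = 3 ∧ k = 4) := by omega
  rcases h with ⟨rfl, rfl⟩ | ⟨rfl, rfl⟩ | ⟨rfl, rfl⟩ | ⟨rfl, rfl⟩ | ⟨rfl, rfl⟩ | ⟨rfl, rfl⟩
  · have := AL.step hS hδ hx (B := []) (W := [20, 21, 22]) (r := 19) (by norm_num) (by simp)
      (by simp) (aok_sound hS hδ hx _ _ _ _ aok12)
    rw [e0] at this
    exact this.mono (by omega)
  · have := AL.step hS hδ hx (B := []) (W := [20, 21, 23]) (r := 19) (by norm_num) (by simp)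
      (by simp) (aok_sound hS hδ hx _ _ _ _ aok13)
    rw [e0] at this
    exact this.mono (by omega)
  · have := AL.step hS hδ hx (B := []) (W := [20, 21, 24]) (r := 19) (by norm_num) (by simp)
      (by simp) (aok_sound hS hδ hx _ _ _ _ aok14)
    rw [e0] at this
    exact this.mono (by omega)
  · have := AL.step hS hδ hx (B := []) (W := [20, 22, 23]) (r := 21) (by norm_num) (by simp)
      (by simp) (aok_sound hS hδ hx _ _ _ _ aok23)
    rw [e0] at this
    exact this.mono (by omega)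
  · have := AL.step hS hδ hx (B := []) (W := [20, 22, 24]) (r := 21) (by norm_num) (by simp)
      (by simp) (aok_sound hS hδ hx _ _ _ _ aok24)
    rw [e0] at this
    exact this.mono (by omega)
  · have := AL.step hS hδ hx (B := []) (W := [20, 23, 24]) (r := 21) (by norm_num) (by simp)
      (by simp) (aok_sound hS hδ hx _ _ _ _ aok34)
    rw [e0] at this
    exact this.mono (by omega)

theorem lz_lz (a δ : Cell) (s t : ℤ) : lz (lz a δ s) δ t = lz a δ (s + t) := by
  unfold lz
  ext <;> simp only [] <;> ring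

theorem three_win (hS : Shape S3 s3 Z PA P6 mx N0) {a : Cell} (hδ : Dir δ) {t1 t2 t3 : ℤ}
    (h12 : t1 < t2) (h23 : t2 < t3) (h13 : t3 ≤ t1 + 4) (hx : mx ≤ (lz a δ t1).1) {W : Finset Cell}
    (hW : ∀ c, c ∈ W ↔ c = lz a δ t1 ∨ c = lz a δ t2 ∨ c = lz a δ t3) : WinN (N0 + 6) S3 W := by
  have h := line_win hS hδ hx (j := (t2 - t1).toNat) (k := (t3 - t1).toNat) (by omega) (by omega)
    (by omega)
  have e : W = sl (lz a δ t1) δ [20, 20 + (t2 - t1).toNat, 20 + (t3 - t1).toNat] := by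
    ext c
    rw [hW, mem_sl]
    simp only [List.mem_cons, List.not_mem_nil, or_false, exists_eq_or_imp, exists_eq_left]
    unfold ln
    rw [lz_lz, lz_lz, lz_lz]
    have e1 : t1 + (((20 : ℕ) : ℤ) - 20) = t1 := by omega
    have e2 : t1 + (((20 + (t2 - t1).toNat : ℕ) : ℤ) - 20) = t2 := by omega
    have e3 : t1 + (((20 + (t3 - t1).toNat : ℕ) : ℤ) - 20) = t3 := by omega
    rw [e1, e2, e3]
  rw [e]
  exact h

theorem wc_lz (e : Cell) {d : ℕ} (hd : d < 4) :
    ∃ a δ : Cell, Dir δ ∧ ∀ w, InW e d w → ∃ t : ℤ, 0 ≤ t ∧ t ≤ 4 ∧ w = lz a δ t := by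
  rcases dir_cases hd with rfl | rfl | rfl | rfl
  · refine ⟨wc e 0 4, (1, 0), Or.inl rfl, ?_⟩
    rintro w ⟨j, hj, rfl⟩
    refine ⟨4 - j, by omega, by omega, ?_⟩
    unfold lz wc
    ext <;> simp only [dv] <;> push_cast <;> ring
  · refine ⟨wc e 1 4, (0, 1), Or.inr (Or.inl rfl), ?_⟩
    rintro w ⟨j, hj, rfl⟩
    refine ⟨4 - j, by omega, by omega, ?_⟩
    unfold lz wc
    ext <;> simp only [dv] <;> push_cast <;> ring
  · refine ⟨wc e 2 4, (1, 1), Or.inr (Or.inr (Or.inl rfl)), ?_⟩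
    rintro w ⟨j, hj, rfl⟩
    refine ⟨4 - j, by omega, by omega, ?_⟩
    unfold lz wc
    ext <;> simp only [dv] <;> push_cast <;> ring
  · refine ⟨e, (1, -1), Or.inr (Or.inr (Or.inr rfl)), ?_⟩
    rintro w ⟨j, hj, rfl⟩
    refine ⟨j, by omega, by omega, ?_⟩
    unfold lz wc
    ext <;> simp only [dv] <;> ring

theorem win3 (hS : Shape S3 s3 Z PA P6 mx N0) {w1 w2 w3 : Cell} (h12 : w1 ≠ w2) (h13 : w1 ≠ w3)
    (h23 : w2 ≠ w3) {e : Cell} {d : ℕ} (hd : d < 4) (i1 : InW e d w1) (i2 : InW e d w2)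
    (i3 : InW e d w3) (hx : mx + 4 ≤ w1.1) {W : Finset Cell}
    (hW : ∀ c, c ∈ W ↔ c = w1 ∨ c = w2 ∨ c = w3) : WinN (N0 + 6) S3 W := by
  obtain ⟨a, δ, hδ, h⟩ := wc_lz e hd
  obtain ⟨t1, p1, q1, rfl⟩ := h _ i1
  obtain ⟨t2, p2, q2, rfl⟩ := h _ i2
  obtain ⟨t3, p3, q3, rfl⟩ := h _ i3
  have n12 : t1 ≠ t2 := fun e => h12 (by rw [e])
  have n13 : t1 ≠ t3 := fun e => h13 (by rw [e])
  have n23 : t2 ≠ t3 := fun e => h23 (by rw [e])
  have hxx : ∀ t : ℤ, 0 ≤ t → t ≤ 4 → mx ≤ (lz a δ t).1 := by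
    intro t h0 h4
    unfold lz at hx ⊢
    rcases hδ with rfl | rfl | rfl | rfl <;> simp only [] at hx ⊢ <;> omega
  rcases lt_or_gt_of_ne n12 with c12 | c12 <;> rcases lt_or_gt_of_ne n13 with c13 | c13 <;>
    rcases lt_or_gt_of_ne n23 with c23 | c23
  · exact three_win hS hδ c12 c23 (by omega) (hxx _ p1 q1) (fun c => by rw [hW])
  · exact three_win hS hδ c13 c23 (by omega) (hxx _ p1 q1) (fun c => by rw [hW]; tauto)
  · omega
  · exact three_win hS hδ c13 c12 (by omega) (hxx _ p3 q3) (fun c => by rw [hW]; tauto)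
  · exact three_win hS hδ c12 c13 (by omega) (hxx _ p2 q2) (fun c => by rw [hW]; tauto)
  · omega
  · exact three_win hS hδ c23 c13 (by omega) (hxx _ p2 q2) (fun c => by rw [hW]; tauto)
  · exact three_win hS hδ c23 c12 (by omega) (hxx _ p3 q3) (fun c => by rw [hW]; tauto)

open Classical in
theorem cnt_three (w1 w2 w3 e : Cell) (d : ℕ) : cnt {w1, w2, w3} e d ≤
    (if InW e d w1 then 1 else 0) + (if InW e d w2 then 1 else 0) +
      (if InW e d w3 then 1 else 0) := by
  have h0 : cnt ∅ e d = 0 := by simp [cnt]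
  have h3 := cnt_insert_le' ∅ w3 e d
  have h2 := cnt_insert_le' {w3} w2 e d
  have h1 := cnt_insert_le' {w2, w3} w1 e d
  have e3 : (insert w3 (∅ : Finset Cell)) = {w3} := by simp
  rw [e3] at h3
  omega

/-- windows through a cell far to the right -/
theorem inW_x {e w : Cell} {d : ℕ} (hd : d < 4) (i : InW e d w) (hx : mx + 4 ≤ w.1) :
    ∀ j, j < 5 → mx ≤ (wc e d j).1 := by
  obtain ⟨i, hi, rfl⟩ := i
  intro j hj
  unfold wc at hx ⊢
  rcases dir_cases hd with rfl | rfl | rfl | rfl <;> simp only [dv] at hx ⊢ <;> omega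

theorem pcl_nil : pcl [] = [] := rfl

/-- the position after the fourth white stone -/
theorem far_ft (hS : Shape S3 s3 Z PA P6 mx N0) {w1 w2 w3 : Cell} (hx : mx + 4 ≤ w1.1)
    (h12 : w1 ≠ w2) (h13 : w1 ≠ w3) (h23 : w2 ≠ w3) (hw2 : w2 ∉ S3) (hw3 : w3 ∉ S3)
    (hZ2 : Inner w2 → Z.testBit (ci w2) = false) (hZ3 : Inner w3 → Z.testBit (ci w3) = false) :
    WinN (N0 + 6) S3 {w1, w2, w3} := by
  by_cases h : ∃ e : Cell, ∃ d, d < 4 ∧ InW e d w1 ∧ InW e d w2 ∧ InW e d w3
  · obtain ⟨e, d, hd, i1, i2, i3⟩ := h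
    exact win3 hS h12 h13 h23 hd i1 i2 i3 hx (fun c => by simp)
  · push Not at h
    refine WinN.mono (n := N0 + ([] : List (Cell × Cell)).length) ?_ (by simp)
    apply hS.h0 [] S3 {w1, w2, w3}
    have h1S : w1 ∉ S3 := fun h => by have := hS.sx _ h; omega
    refine ⟨?_, by simp [pcl], by simp [pcl], ?_, ?_, ?_⟩
    · intro c hc hW
      simp only [Finset.mem_insert, Finset.mem_singleton] at hW
      rcases hW with rfl | rfl | rfl
      · exact h1S hc
      · exact hw2 hc
      · exact hw3 hc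
    · exact hS.blk
    · intro i hi
      obtain ⟨c, c1, c2, c3⟩ := hS.al i hi
      refine ⟨c, c1, c2, ?_, by simp [pcl]⟩
      intro hW
      simp only [Finset.mem_insert, Finset.mem_singleton] at hW
      rcases hW with rfl | rfl | rfl
      · omega
      · rw [← c2, hZ2 c1] at hi; exact Bool.noConfusion hi
      · rw [← c2, hZ3 c1] at hi; exact Bool.noConfusion hi
    · intro e d hd
      rcases hS.p6 e d hd with hb | hp
      · left; exact hb
      · right; right
        have hc := cnt_three w1 w2 w3 e d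
        have e0 : ({w1, w2, w3} : Finset Cell) ∪ (pcl []).toFinset = {w1, w2, w3} := by simp [pcl]
        rw [e0]
        have := h e d hd
        split_ifs at hc with g1 g2 g3 <;> first | omega | exact absurd g3 (h e d hd g1 g2)

/-- the position after the third black stone -/
theorem far_and (hS : Shape S3 s3 Z PA P6 mx N0) {w1 w2 : Cell} (hx : mx + 4 ≤ w1.1)
    (h12 : w1 ≠ w2) (hw2 : w2 ∉ S3) (hZ2 : Inner w2 → Z.testBit (ci w2) = false) (w3 : Cell)
    (hw3 : w3 ∉ S3) (hw3' : w3 ∉ ({w2, w1} : Finset Cell)) :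
    WinN (N0 + 6) S3 (insert w3 {w2, w1}) := by
  classical
  have h1S : w1 ∉ S3 := fun h => by have := hS.sx _ h; omega
  simp only [Finset.mem_insert, Finset.mem_singleton, not_or] at hw3'
  by_cases hz : Inner w3 ∧ Z.testBit (ci w3) = true
  · refine WinN.mono (n := N0 + ([] : List (Cell × Cell)).length) ?_ (by simp)
    refine hS.ht [] S3 {w2, w1} ?_ w3 hz.1 hz.2 hw3
    refine ⟨?_, by simp [pcl], by simp [pcl], ?_, ?_, ?_⟩
    · intro c hc hW
      simp only [Finset.mem_insert, Finset.mem_singleton] at hW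
      rcases hW with rfl | rfl
      · exact hw2 hc
      · exact h1S hc
    · exact hS.blk
    · intro i hi
      obtain ⟨c, c1, c2, c3⟩ := hS.al i hi
      refine ⟨c, c1, c2, ?_, by simp [pcl]⟩
      intro hW
      simp only [Finset.mem_insert, Finset.mem_singleton] at hW
      rcases hW with rfl | rfl
      · rw [← c2, hZ2 c1] at hi; exact Bool.noConfusion hi
      · omega
    · intro e d hd
      rcases hS.pa e d hd with hb | ⟨hp5, hp6⟩
      · left; exact hb
      · right; right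
        have e0 : ({w2, w1} : Finset Cell) ∪ (pcl []).toFinset = {w2, w1} := by simp [pcl]
        rw [e0]
        have h0 : cnt ∅ e d = 0 := by simp [cnt]
        have c1 := cnt_insert_le' ∅ w1 e d
        have c2 := cnt_insert_le' {w1} w2 e d
        have e3 : (insert w1 (∅ : Finset Cell)) = {w1} := by simp
        rw [e3] at c1
        by_cases g1 : InW e d w1
        · have := hp6 (inW_x hd g1 hx)
          rw [if_pos g1] at c1
          split_ifs at c2 <;> omega
        · rw [if_neg g1] at c1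
          split_ifs at c2 <;> omega
  · have hZ3 : Inner w3 → Z.testBit (ci w3) = false := by
      intro hin
      by_contra hc
      exact hz ⟨hin, by simpa using hc⟩
    have := far_ft hS hx h12 (fun e => hw3'.2 e.symm) (fun e => hw3'.1 e.symm) hw2 hw3 hZ2 hZ3
    have e : (insert w3 {w2, w1} : Finset Cell) = {w1, w2, w3} := by
      ext c
      simp only [Finset.mem_insert, Finset.mem_singleton]
      tauto
    rw [e]
    exact this

/-- the first white stone is far away -/
theorem far_win {M : ℕ} (hS : Shape S3 s3 Z PA P6 mx N0) {b1 b2 b3 : Cell} (e3 : S3 = {b3, b2, b1})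
    (nb : b1 ≠ b2 ∧ b1 ≠ b3 ∧ b2 ≠ b3)
    (x1 : b1.1 < mx) (x2 : b2.1 < mx) (x3 : b3.1 < mx)
    (h2 : ∀ w1 : Cell, mx + 4 ≤ w1.1 → ∀ y, Inner y → (Z.testBit (ci y) = true ∨ y = b3) → y ≠ b1 →
      y ≠ b2 → y ≠ w1 → WinN M {b2, b1} (insert y {w1})) {w1 : Cell} (hx : mx + 4 ≤ w1.1)
    (hb3 : Inner b3) :
    WinN (M + N0 + 8) {b1} {w1} := by
  have m1 : w1 ≠ b1 := fun e => by rw [e] at hx; omega
  have m2 : w1 ≠ b2 := fun e => by rw [e] at hx; omega
  have m3 : w1 ≠ b3 := fun e => by rw [e] at hx; omega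
  refine WinN.step' (n := M + N0 + 7) (by omega) _ _ b2 (by simpa using nb.1.symm) (by simpa using m2.symm) ?_
  intro w2 hw2 hw2'
  simp only [Finset.mem_insert, Finset.mem_singleton, not_or] at hw2 hw2'
  by_cases h : Inner w2 ∧ (Z.testBit (ci w2) = true ∨ w2 = b3)
  · exact (h2 w1 hx w2 h.1 h.2 hw2.2 hw2.1 hw2').mono (by omega)
  · have hn3 : w2 ≠ b3 := by
      intro e
      exact h ⟨e ▸ hb3, Or.inr e⟩
    have hZ2 : Inner w2 → Z.testBit (ci w2) = false := by
      intro hin
      by_contra hc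
      exact h ⟨hin, Or.inl (by simpa using hc)⟩
    refine WinN.step' (n := N0 + 6) (by omega) _ _ b3 ?_ ?_ ?_
    · simp only [Finset.mem_insert, Finset.mem_singleton, not_or]
      exact ⟨nb.2.2.symm, nb.2.1.symm⟩
    · simp only [Finset.mem_insert, Finset.mem_singleton, not_or]
      exact ⟨hn3.symm, m3.symm⟩
    · intro w3 h3 h3'
      have e : (insert b3 {b2, b1} : Finset Cell) = S3 := by rw [e3]
      rw [e] at h3 ⊢
      refine far_and hS hx (fun e => hw2' e.symm) ?_ hZ2 w3 h3 h3'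
      rw [e3]
      simp only [Finset.mem_insert, Finset.mem_singleton, not_or]
      exact ⟨hn3, hw2.1, hw2.2⟩

/-! ### lists of cells -/

def maskOf (l : List ℕ) : ℕ := l.foldr (fun a z => Nat.lor (Nat.shiftLeft 1 a) z) 0

theorem maskOf_bit {l : List ℕ} {i : ℕ} : (maskOf l).testBit i = true ↔ i ∈ l := by
  induction l with
  | nil => simp [maskOf]
  | cons a l ih =>
    have e : maskOf (a :: l) = (1 <<< a) ||| maskOf l := rfl
    rw [e, Nat.testBit_or, testBit_one_shl, Bool.or_eq_true, decide_eq_true_eq, ih, List.mem_cons]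
    exact or_congr_left eq_comm

/-- the cells with the given indices are inner cells to the left of `mx` -/
def cellsOK (mx : ℕ) (l : List ℕ) : Bool :=
  l.all fun i => Nat.ble 4 (i % 32) && (Nat.ble (i % 32) 27 && (Nat.ble 4 (i / 32) &&
    (Nat.ble (i / 32) 27 && Nat.ble (i % 32 + 1) mx)))

theorem cellsOK_iff {mx : ℕ} {l : List ℕ} (h : cellsOK mx l = true) {i : ℕ} (hi : i ∈ l) :
    ∃ c, Inner c ∧ ci c = i ∧ c.1 < mx := by
  unfold cellsOK at h
  rw [List.all_eq_true] at h
  have := h i hi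
  simp only [Bool.and_eq_true, ble_iff] at this
  refine ⟨((i % 32 : ℕ), (i / 32 : ℕ)), ?_, ?_, ?_⟩
  · unfold Inner
    simp only []
    omega
  · unfold ci
    simp only []
    omega
  · simp only []
    omega

/-! ### digits -/

/-- all the digits are at least `lo`, and at least `hi` for the windows to the right of `mx` -/
noncomputable def digOK (mx lo hi P : ℕ) : Bool :=
  allB (fun n => Nat.ble lo (rd P n) &&
    (!(Nat.ble mx (Nat.mod n 32) && (Nat.ble (mx + 4) (Nat.mod n 32) ||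
        (Nat.beq (Nat.div n 1024) 1 || Nat.beq (Nat.div n 1024) 3)))
      || Nat.ble hi (rd P n))) 4096

theorem digOK_iff {mx lo hi P : ℕ} (h : digOK mx lo hi P = true) (h0 : hi ≤ dg P 0) (e : Cell)
    {d : ℕ} (hd : d < 4) : lo ≤ dg P (pos e d) ∧
      ((∀ j, j < 5 → (mx : ℤ) ≤ (wc e d j).1) → hi ≤ dg P (pos e d)) := by
  unfold digOK at h
  have hp := allB_iff h (pos e d) (pos_lt e hd)
  have m1 : ∀ a b : ℕ, Nat.mod a b = a % b := fun _ _ => rfl
  have m2 : ∀ a b : ℕ, Nat.div a b = a / b := fun _ _ => rfl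
  rw [rd_eq, Bool.and_eq_true, ble_iff, Bool.or_eq_true, ble_iff, m1, m2] at hp
  refine ⟨hp.1, fun hj => ?_⟩
  rcases hp.2 with h2 | h2
  · by_cases hb : InB e ∧ InB (wc e d 4)
    · exfalso
      have hpos : pos e d = d * 1024 + ci e := by unfold pos; rw [if_pos hb]
      rw [hpos] at h2
      have j0 := hj 0 (by norm_num)
      have j4 := hj 4 (by norm_num)
      have hci := ci_lt hb.1
      have h32 : ((d * 1024 + ci e) % 32 : ℕ) = e.1 := by
        have := hb.1
        unfold InB at this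
        unfold ci
        omega
      have hq : (d * 1024 + ci e) / 1024 = d := by omega
      rw [hq] at h2
      rw [Bool.not_eq_true', ← Bool.not_eq_true, Bool.and_eq_true, Bool.or_eq_true,
        Bool.or_eq_true, ble_iff, ble_iff, beq_iff, beq_iff] at h2
      apply h2
      unfold wc at j0 j4
      rcases dir_cases hd with rfl | rfl | rfl | rfl <;> simp only [dv] at j0 j4 <;> omega
    · have : pos e d = 0 := by unfold pos; rw [if_neg hb]
      rw [this]; exact h0
  · exact h2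

/-- clear the windows through given cells -/
noncomputable def clrs (P : ℕ) : List ℕ → ℕ
  | [] => P
  | a :: l => clr (clrs P l) a

theorem clrs_of_not {P : ℕ} {e : Cell} {d : ℕ} (hd : d < 4) : ∀ {l : List Cell},
    (∀ c ∈ l, Inner c) → (∀ c ∈ l, ¬ InW e d c) → dg (clrs P (l.map ci)) (pos e d) = dg P (pos e d) := by
  intro l
  induction l with
  | nil => intro _ _; rfl
  | cons c l ih =>
    intro h1 h2
    have e1 : clrs P ((c :: l).map ci) = clr (clrs P (l.map ci)) (ci c) := rfl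
    rw [e1, dg_clr_of_not hd (h1 c List.mem_cons_self) (h2 c List.mem_cons_self)]
    exact ih (fun c hc => h1 c (List.mem_cons_of_mem _ hc)) (fun c hc => h2 c (List.mem_cons_of_mem _ hc))

end Pool.Agent.H61.Gom
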