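import Mathlib.Tactic.Ring
import Mathlib.Tactic.Linarith
import Mathlib.Tactic.NormNum
import Mathlib.Tactic.IntervalCases
import Mathlib.Tactic.Abel
import Mathlib.Data.Fintype.EquivFin
import Mathlib.Data.Finset.Card
import Mathlib.Data.Nat.Bitwise
import Mathlib.Algebra.BigOperators.Group.Finset.Basic
import Mathlib.Algebra.BigOperators.Group.Finset.Piecewise

/-!
The game of five in a row on the infinite grid: inductive definition of the positions won by the
first player in bounded time, extraction of a strategy on histories, and the symmetries of the board.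
-/

set_option autoImplicit false
set_option linter.dupNamespace false

namespace Pool.Agent.H61.Gom

abbrev Cell := ℤ × ℤ

/-- the four directions of lines -/
def Dirs : Finset Cell := {((1 : ℤ), (0 : ℤ)), ((0 : ℤ), (1 : ℤ)), ((1 : ℤ), (1 : ℤ)), ((1 : ℤ), (-1 : ℤ))}

/-- the set `S` contains five cells in a row -/
def Five (S : Finset Cell) : Prop :=
  ∃ a d : Cell, d ∈ Dirs ∧ ∀ k : ℕ, k < 5 → a + (k : ℤ) • d ∈ S

theorem Five.mono {S T : Finset Cell} (h : S ⊆ T) (h5 : Five S) : Five T := by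
  obtain ⟨a, d, hd, hk⟩ := h5
  exact ⟨a, d, hd, fun k hk5 => h (hk k hk5)⟩

/-- `WinN n B W`: black, who has the stones `B` against `W` and is to move, can complete five in a
row first, within `n` moves. -/
inductive WinN : ℕ → Finset Cell → Finset Cell → Prop
  | five (n : ℕ) (B W : Finset Cell) (x : Cell) (hB : x ∉ B) (hW : x ∉ W)
      (h5 : Five (insert x B)) (h : ¬ Five W) : WinN (n + 1) B W
  | step (n : ℕ) (B W : Finset Cell) (x : Cell) (hB : x ∉ B) (hW : x ∉ W)
      (h : ∀ y, y ∉ insert x B → y ∉ W → WinN n (insert x B) (insert y W)) : WinN (n + 1) B W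

theorem WinN.mono {n m : ℕ} {B W : Finset Cell} (h : WinN n B W) (hm : n ≤ m) : WinN m B W := by
  induction h generalizing m with
  | five n B W x hB hW h5 h =>
    obtain ⟨k, rfl⟩ : ∃ k, m = k + 1 := ⟨m - 1, by omega⟩
    exact WinN.five k B W x hB hW h5 h
  | step n B W x hB hW h ih =>
    obtain ⟨k, rfl⟩ : ∃ k, m = k + 1 := ⟨m - 1, by omega⟩
    exact WinN.step k B W x hB hW fun y h1 h2 => ih y h1 h2 (by omega)

theorem WinN.five' {m : ℕ} (hm : 0 < m) (B W : Finset Cell) (x : Cell) (hB : x ∉ B) (hW : x ∉ W)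
    (h5 : Five (insert x B)) (h : ¬ Five W) : WinN m B W := by
  obtain ⟨k, rfl⟩ : ∃ k, m = k + 1 := ⟨m - 1, by omega⟩
  exact WinN.five k B W x hB hW h5 h

theorem WinN.step' {n m : ℕ} (hm : n < m) (B W : Finset Cell) (x : Cell) (hB : x ∉ B) (hW : x ∉ W)
    (h : ∀ y, y ∉ insert x B → y ∉ W → WinN n (insert x B) (insert y W)) : WinN m B W :=
  (WinN.step n B W x hB hW h).mono hm

/-- a cell outside a finite set -/
noncomputable def fallback (S : Finset Cell) : Cell := Classical.choose (Infinite.exists_notMem_finset S)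

theorem fallback_notMem (S : Finset Cell) : fallback S ∉ S :=
  Classical.choose_spec (Infinite.exists_notMem_finset S)

theorem win_of_five {m : ℕ} (hm : 0 < m) {B W : Finset Cell} {e : Cell} (he : e ∉ W)
    (h5 : Five (insert e B)) (h : ¬ Five W) : WinN m B W := by
  by_cases hb : e ∈ B
  · have hf := fallback_notMem (B ∪ W)
    simp only [Finset.mem_union, not_or] at hf
    refine WinN.five' hm _ _ _ hf.1 hf.2 (h5.mono ?_) h
    rw [Finset.insert_eq_of_mem hb]
    exact Finset.subset_insert _ _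
  · exact WinN.five' hm _ _ _ hb he h5 h

/-- what a strategy has to do from the position `(B, W)`, within `N` moves -/
def Good (N : ℕ) (B W : Finset Cell) (σ : List Cell → Cell) : Prop :=
  ∀ p : ℕ → Cell,
    (∀ m : ℕ, p (2 * m) = σ (List.ofFn (fun i : Fin (2 * m) => p i))) →
    (∀ m : ℕ, p (2 * m + 1) ∉ B ∧ p (2 * m + 1) ∉ W ∧ ∀ i : ℕ, i < 2 * m + 1 → p i ≠ p (2 * m + 1)) →
    (∀ m : ℕ, p (2 * m) ∉ B ∧ p (2 * m) ∉ W ∧ ∀ i : ℕ, i < 2 * m → p i ≠ p (2 * m)) ∧
    ∃ n : ℕ, n < N ∧ Five (B ∪ (Finset.range (n + 1)).image (fun i => p (2 * i))) ∧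
      ¬ Five (W ∪ (Finset.range n).image (fun i => p (2 * i + 1)))

theorem ofFn_two_mul_succ (p : ℕ → Cell) (m : ℕ) :
    List.ofFn (fun i : Fin (2 * (m + 1)) => p i) =
      p 0 :: p 1 :: List.ofFn (fun i : Fin (2 * m) => p (i + 2)) := by
  have : 2 * (m + 1) = (2 * m + 1) + 1 := by ring
  apply List.ext_getElem
  · simp
  · intro i h1 h2
    rcases i with _ | _ | i
    · simp
    · simp
    · simp

theorem WinN.good {N : ℕ} {B W : Finset Cell} (h : WinN N B W) : ∃ σ, Good N B W σ := by
  induction h with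
  | five N B W x hB hW h5 h =>
    classical
    refine ⟨fun l => if l = [] then x else fallback (B ∪ W ∪ l.toFinset), ?_⟩
    intro p hp hw
    have h0 : p 0 = x := by simpa using hp 0
    refine ⟨?_, 0, by omega, ?_, ?_⟩
    · intro m
      rcases m with _ | m
      · simp only [Nat.mul_zero, h0]
        exact ⟨hB, hW, fun i hi => absurd hi (Nat.not_lt_zero i)⟩
      · have e := hp (m + 1)
        have hne : List.ofFn (fun i : Fin (2 * (m + 1)) => p i) ≠ [] := by
          rw [ofFn_two_mul_succ]; simp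
        simp only [hne, if_false] at e
        have hf := fallback_notMem (B ∪ W ∪ (List.ofFn (fun i : Fin (2 * (m + 1)) => p i)).toFinset)
        rw [← e] at hf
        simp only [Finset.mem_union, not_or, List.mem_toFinset, List.mem_ofFn, not_exists] at hf
        exact ⟨hf.1.1, hf.1.2, fun i hi => hf.2 ⟨i, hi⟩⟩
    · have : B ∪ (Finset.range (0 + 1)).image (fun i => p (2 * i)) = insert x B := by
        ext c; simp [h0, eq_comm]
      rw [this]; exact h5
    · simpa using h
  | step N B W x hB hW h ih =>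
    classical
    let τ : Cell → List Cell → Cell := fun y =>
      if hy : y ∉ insert x B ∧ y ∉ W then Classical.choose (ih y hy.1 hy.2) else fun _ => x
    refine ⟨fun l => match l with
      | _ :: y :: t => τ y t
      | _ => x, ?_⟩
    intro p hp hw
    have h0 : p 0 = x := by simpa using hp 0
    have hy1 : p 1 ∉ insert x B := by
      have := hw 0
      simp only [Nat.mul_zero, Nat.zero_add] at this
      rw [Finset.mem_insert, not_or]
      exact ⟨fun e => this.2.2 0 (by norm_num) (h0.trans e.symm), this.1⟩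
    have hy2 : p 1 ∉ W := by have := hw 0; simpa using this.2.1
    have hτ : τ (p 1) = Classical.choose (ih (p 1) hy1 hy2) := by
      simp only [τ]; rw [dif_pos ⟨hy1, hy2⟩]
    have hg : Good N (insert x B) (insert (p 1) W) (τ (p 1)) := by
      rw [hτ]; exact Classical.choose_spec (ih (p 1) hy1 hy2)
    have key := hg (fun i => p (i + 2)) ?_ ?_
    · obtain ⟨k1, n, kn, k2, k3⟩ := key
      refine ⟨?_, n + 1, by omega, ?_, ?_⟩
      · intro m
        rcases m with _ | m
        · simp only [Nat.mul_zero, h0]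
          exact ⟨hB, hW, fun i hi => absurd hi (Nat.not_lt_zero i)⟩
        · have k := k1 m
          simp only [Finset.mem_insert, not_or] at k
          have e : 2 * (m + 1) = 2 * m + 2 := by ring
          rw [e]
          refine ⟨k.1.2, k.2.1.2, ?_⟩
          intro i hi
          rcases i with _ | _ | i
          · rw [h0]; exact fun h => k.1.1 h.symm
          · exact fun h => k.2.1.1 h.symm
          · exact k.2.2 i (by omega)
      · refine k2.mono ?_
        intro c hc
        simp only [Finset.mem_union, Finset.mem_insert, Finset.mem_image, Finset.mem_range] at hc ⊢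
        rcases hc with (rfl | hc) | ⟨i, hi, rfl⟩
        · right; exact ⟨0, by omega, by simpa using h0⟩
        · left; exact hc
        · right; exact ⟨i + 1, by omega, by congr 1⟩
      · intro h5
        apply k3
        refine h5.mono ?_
        intro c hc
        simp only [Finset.mem_union, Finset.mem_insert, Finset.mem_image, Finset.mem_range] at hc ⊢
        rcases hc with hc | ⟨i, hi, rfl⟩
        · left; right; exact hc
        · rcases i with _ | i
          · left; left; simp
          · right; exact ⟨i, by omega, by congr 1⟩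
    · intro m
      have e := hp (m + 1)
      rw [ofFn_two_mul_succ] at e
      have e' : 2 * (m + 1) = 2 * m + 2 := by ring
      rw [e'] at e
      exact e
    · intro m
      have k := hw (m + 1)
      have e' : 2 * (m + 1) + 1 = 2 * m + 1 + 2 := by ring
      rw [e'] at k
      refine ⟨?_, ?_, ?_⟩
      · rw [Finset.mem_insert, not_or]
        exact ⟨fun e => k.2.2 0 (by omega) (h0.trans e.symm), k.1⟩
      · rw [Finset.mem_insert, not_or]
        exact ⟨fun e => k.2.2 1 (by omega) e.symm, k.2.1⟩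
      · intro i hi
        exact k.2.2 (i + 2) (by omega)

/-- the frozen statement on the existence of a winning strategy -/
theorem final {N : ℕ} (h : WinN N ∅ ∅) :
    ∃ σ : List (ℤ × ℤ) → ℤ × ℤ,
      ∀ p : ℕ → ℤ × ℤ,
        (∀ m : ℕ, p (2 * m) = σ (List.ofFn (fun i : Fin (2 * m) => p i))) →
        (∀ m i : ℕ, i < 2 * m + 1 → p i ≠ p (2 * m + 1)) →
        (∀ m i : ℕ, i < 2 * m → p i ≠ p (2 * m)) ∧
        ∃ n : ℕ,
          (∃ a d : ℤ × ℤ,
              d ∈ ({((1 : ℤ), (0 : ℤ)), ((0 : ℤ), (1 : ℤ)), ((1 : ℤ), (1 : ℤ)),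
                    ((1 : ℤ), (-1 : ℤ))} : Finset (ℤ × ℤ)) ∧
              ∀ k : ℕ, k < 5 → ∃ i : ℕ, i ≤ n ∧ p (2 * i) = a + (k : ℤ) • d) ∧
          ¬ (∃ b e : ℤ × ℤ,
              e ∈ ({((1 : ℤ), (0 : ℤ)), ((0 : ℤ), (1 : ℤ)), ((1 : ℤ), (1 : ℤ)),
                    ((1 : ℤ), (-1 : ℤ))} : Finset (ℤ × ℤ)) ∧
              ∀ k : ℕ, k < 5 → ∃ i : ℕ, i < n ∧ p (2 * i + 1) = b + (k : ℤ) • e) := by
  obtain ⟨σ, hσ⟩ := h.good
  refine ⟨σ, fun p hp hw => ?_⟩
  obtain ⟨k1, n, -, k2, k3⟩ := hσ p hp (fun m => ⟨by simp, by simp, hw m⟩)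
  refine ⟨fun m => (k1 m).2.2, n, ?_, ?_⟩
  · obtain ⟨a, d, hd, hk⟩ := k2
    refine ⟨a, d, hd, fun k hk5 => ?_⟩
    have := hk k hk5
    simp only [Finset.empty_union, Finset.mem_image, Finset.mem_range] at this
    obtain ⟨i, hi, e⟩ := this
    exact ⟨i, by omega, e⟩
  · rintro ⟨a, d, hd, hk⟩
    apply k3
    refine ⟨a, d, hd, fun k hk5 => ?_⟩
    simp only [Finset.empty_union, Finset.mem_image, Finset.mem_range]
    obtain ⟨i, hi, e⟩ := hk k hk5
    exact ⟨i, hi, e⟩

/-- the frozen statement on the win in bounded time -/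
theorem finalN {N : ℕ} (h : WinN N ∅ ∅) :
    ∃ N : ℕ, ∃ σ : List (ℤ × ℤ) → ℤ × ℤ,
      ∀ p : ℕ → ℤ × ℤ,
        (∀ k : ℕ, p (2 * k) = σ (List.ofFn (fun i : Fin (2 * k) => p (i : ℕ)))) →
        (∀ j i : ℕ, i < 2 * j + 1 → p i ≠ p (2 * j + 1)) →
        ∃ m : ℕ, m < N ∧
          (∀ k : ℕ, k ≤ m → ∀ i : ℕ, i < 2 * k → p i ≠ p (2 * k)) ∧
          (∃ a d : ℤ × ℤ,
              (d = (1, 0) ∨ d = (0, 1) ∨ d = (1, 1) ∨ d = (1, -1)) ∧
              ∀ t : ℤ, 0 ≤ t → t < 5 →
                ∃ i : ℕ, i ≤ m ∧ p (2 * i) = (a.1 + t * d.1, a.2 + t * d.2)) ∧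
          ¬ (∃ a d : ℤ × ℤ,
              (d = (1, 0) ∨ d = (0, 1) ∨ d = (1, 1) ∨ d = (1, -1)) ∧
              ∀ t : ℤ, 0 ≤ t → t < 5 →
                ∃ i : ℕ, i < m ∧ p (2 * i + 1) = (a.1 + t * d.1, a.2 + t * d.2)) := by
  obtain ⟨σ, hσ⟩ := h.good
  refine ⟨N, σ, fun p hp hw => ?_⟩
  obtain ⟨k1, n, hn, k2, k3⟩ := hσ p hp (fun m => ⟨by simp, by simp, hw m⟩)
  refine ⟨n, hn, fun k _ i hi => (k1 k).2.2 i hi, ?_, ?_⟩
  · obtain ⟨a, d, hd, hk⟩ := k2
    refine ⟨a, d, by simpa [Dirs] using hd, fun t ht ht5 => ?_⟩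
    obtain ⟨k, rfl⟩ := Int.eq_ofNat_of_zero_le ht
    have := hk k (by omega)
    simp only [Finset.empty_union, Finset.mem_image, Finset.mem_range] at this
    obtain ⟨i, hi, e⟩ := this
    refine ⟨i, by omega, ?_⟩
    rw [e]
    ext <;> simp
  · rintro ⟨a, d, hd, hk⟩
    apply k3
    refine ⟨a, d, by simpa [Dirs] using hd, fun k hk5 => ?_⟩
    simp only [Finset.empty_union, Finset.mem_image, Finset.mem_range]
    obtain ⟨i, hi, e⟩ := hk k (by omega) (by omega)
    refine ⟨i, hi, ?_⟩
    rw [e]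
    ext <;> simp

/-! ### Symmetries -/

/-- a bijection of the cells that maps lines to lines -/
def LineMap (φ : Cell ≃ Cell) : Prop := ∀ S : Finset Cell, Five (S.map φ.toEmbedding) ↔ Five S

theorem WinN.map {φ : Cell ≃ Cell} (hφ : LineMap φ) {n : ℕ} {B W : Finset Cell} (h : WinN n B W) :
    WinN n (B.map φ.toEmbedding) (W.map φ.toEmbedding) := by
  induction h with
  | five n B W x hB hW h5 h =>
    refine WinN.five n _ _ (φ x) (by simpa using hB) (by simpa using hW) ?_ ?_
    · have := (hφ (insert x B)).2 h5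
      rwa [Finset.map_insert] at this
    · rw [hφ]; exact h
  | step n B W x hB hW h ih =>
    refine WinN.step n _ _ (φ x) (by simpa using hB) (by simpa using hW) ?_
    intro y hy1 hy2
    obtain ⟨z, rfl⟩ := φ.surjective y
    have h1 : z ∉ insert x B := by
      intro hz; apply hy1
      rw [Finset.mem_insert] at hz ⊢
      rcases hz with rfl | hz
      · left; rfl
      · right; simpa using hz
    have h2 : z ∉ W := by intro hz; apply hy2; simpa using hz
    have := ih z h1 h2
    simpa [Finset.map_insert] using this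

/-- one direction for a map that sends windows to windows -/
theorem five_map_of {φ : Cell ≃ Cell}
    (h : ∀ a d : Cell, d ∈ Dirs → ∃ a' d' : Cell, d' ∈ Dirs ∧ ∀ k : ℕ, k < 5 → ∃ j : ℕ, j < 5 ∧
      a' + (k : ℤ) • d' = φ (a + (j : ℤ) • d)) (S : Finset Cell) (h5 : Five S) :
    Five (S.map φ.toEmbedding) := by
  obtain ⟨a, d, hd, hk⟩ := h5
  obtain ⟨a', d', hd', hk'⟩ := h a d hd
  refine ⟨a', d', hd', fun k hk5 => ?_⟩
  obtain ⟨j, hj, e⟩ := hk' k hk5
  rw [e]
  simpa using hk j hj

/-- reflection in the vertical axis -/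
def reflX : Cell ≃ Cell where
  toFun c := (-c.1, c.2)
  invFun c := (-c.1, c.2)
  left_inv c := by simp
  right_inv c := by simp

/-- reflection in the diagonal -/
def swapXY : Cell ≃ Cell where
  toFun c := (c.2, c.1)
  invFun c := (c.2, c.1)
  left_inv c := by simp
  right_inv c := by simp

/-- translation -/
def shift (t : Cell) : Cell ≃ Cell := Equiv.addRight t

theorem five_reflX (S : Finset Cell) (h5 : Five S) : Five (S.map reflX.toEmbedding) := by
  apply five_map_of _ S h5
  intro a d hd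
  simp only [Dirs, Finset.mem_insert, Finset.mem_singleton] at hd
  rcases hd with rfl | rfl | rfl | rfl
  · refine ⟨(-a.1 - 4, a.2), (1, 0), by simp [Dirs], fun k hk => ⟨4 - k, by omega, ?_⟩⟩
    have : ((4 - k : ℕ) : ℤ) = 4 - k := by omega
    ext <;> simp [reflX, this]; ring
  · refine ⟨(-a.1, a.2), (0, 1), by simp [Dirs], fun k hk => ⟨k, hk, ?_⟩⟩
    ext <;> simp [reflX]
  · refine ⟨(-a.1 - 4, a.2 + 4), (1, -1), by simp [Dirs], fun k hk => ⟨4 - k, by omega, ?_⟩⟩
    have : ((4 - k : ℕ) : ℤ) = 4 - k := by omega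
    ext <;> simp [reflX, this] <;> ring
  · refine ⟨(-a.1 - 4, a.2 - 4), (1, 1), by simp [Dirs], fun k hk => ⟨4 - k, by omega, ?_⟩⟩
    have : ((4 - k : ℕ) : ℤ) = 4 - k := by omega
    ext <;> simp [reflX, this] <;> ring

theorem five_swapXY (S : Finset Cell) (h5 : Five S) : Five (S.map swapXY.toEmbedding) := by
  apply five_map_of _ S h5
  intro a d hd
  simp only [Dirs, Finset.mem_insert, Finset.mem_singleton] at hd
  rcases hd with rfl | rfl | rfl | rfl
  · refine ⟨(a.2, a.1), (0, 1), by simp [Dirs], fun k hk => ⟨k, hk, ?_⟩⟩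
    ext <;> simp [swapXY]
  · refine ⟨(a.2, a.1), (1, 0), by simp [Dirs], fun k hk => ⟨k, hk, ?_⟩⟩
    ext <;> simp [swapXY]
  · refine ⟨(a.2, a.1), (1, 1), by simp [Dirs], fun k hk => ⟨k, hk, ?_⟩⟩
    ext <;> simp [swapXY]
  · refine ⟨(a.2 - 4, a.1 + 4), (1, -1), by simp [Dirs], fun k hk => ⟨4 - k, by omega, ?_⟩⟩
    have : ((4 - k : ℕ) : ℤ) = 4 - k := by omega
    ext <;> simp [swapXY, this] <;> ring

theorem five_shift (t : Cell) (S : Finset Cell) (h5 : Five S) :
    Five (S.map (shift t).toEmbedding) := by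
  apply five_map_of _ S h5
  intro a d hd
  exact ⟨a + t, d, hd, fun k hk => ⟨k, hk, by simp [shift]; abel⟩⟩

theorem lineMap_of {φ ψ : Cell ≃ Cell} (h1 : ∀ S, Five S → Five (S.map φ.toEmbedding))
    (h2 : ∀ S, Five S → Five (S.map ψ.toEmbedding)) (e : ∀ c, ψ (φ c) = c) : LineMap φ := by
  intro S
  refine ⟨fun h => ?_, h1 S⟩
  have := h2 _ h
  rw [Finset.map_map] at this
  have e' : φ.toEmbedding.trans ψ.toEmbedding = Function.Embedding.refl _ := by
    ext x <;> simp [e]
  rwa [e', Finset.map_refl] at this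

theorem lineMap_reflX : LineMap reflX :=
  lineMap_of five_reflX five_reflX (fun c => by simp [reflX])

theorem lineMap_swapXY : LineMap swapXY :=
  lineMap_of five_swapXY five_swapXY (fun c => by simp [swapXY])

theorem lineMap_shift (t : Cell) : LineMap (shift t) :=
  lineMap_of (five_shift t) (five_shift (-t)) (fun c => by simp [shift])

/-- by symmetry it is enough to treat the first white stones `(x, y)` with `0 ≤ y ≤ x` -/
theorem win_root {n : ℕ} (h : ∀ x y : ℤ, 0 ≤ y → y ≤ x → 0 < x → WinN n {(0, 0)} {(x, y)}) :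
    WinN (n + 1) ∅ ∅ := by
  refine WinN.step n ∅ ∅ (0, 0) (by simp) (by simp) ?_
  intro w hw _
  have hw0 : w ≠ (0, 0) := by simpa using hw
  have e0 : insert ((0 : ℤ), (0 : ℤ)) (∅ : Finset Cell) = {(0, 0)} := by simp
  rw [e0]
  have e1 : insert w (∅ : Finset Cell) = {w} := by simp
  rw [e1]
  have refl : ∀ x y : ℤ, WinN n {(0, 0)} {(x, y)} → WinN n {(0, 0)} {(-x, y)} := by
    intro x y hh
    have := hh.map lineMap_reflX
    simpa [reflX] using this
  have swp : ∀ x y : ℤ, WinN n {(0, 0)} {(x, y)} → WinN n {(0, 0)} {(y, x)} := by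
    intro x y hh
    have := hh.map lineMap_swapXY
    simpa [swapXY] using this
  have reflY : ∀ x y : ℤ, WinN n {(0, 0)} {(x, y)} → WinN n {(0, 0)} {(x, -y)} := by
    intro x y hh
    exact swp _ _ (refl _ _ (swp _ _ hh))
  have pos : ∀ x y : ℤ, 0 ≤ x → 0 ≤ y → (x, y) ≠ (0, 0) → WinN n {(0, 0)} {(x, y)} := by
    intro x y hx hy hne
    rcases le_total y x with hyx | hxy
    · refine h x y hy hyx ?_
      rcases hx.lt_or_eq with h0 | h0
      · exact h0
      · exfalso; apply hne
        have : y = 0 := by omega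
        rw [← h0, this]
    · refine swp _ _ (h y x hx hxy ?_)
      rcases hy.lt_or_eq with h0 | h0
      · exact h0
      · exfalso; apply hne
        have : x = 0 := by omega
        rw [← h0, this]
  obtain ⟨x, y⟩ := w
  rcases le_total 0 x with hx | hx <;> rcases le_total 0 y with hy | hy
  · exact pos x y hx hy hw0
  · have := reflY x (-y) (pos x (-y) hx (by omega) (by
      intro e; apply hw0
      simp only [Prod.mk.injEq] at e ⊢; omega))
    simpa using this
  · have := refl (-x) y (pos (-x) y (by omega) hy (by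
      intro e; apply hw0
      simp only [Prod.mk.injEq] at e ⊢; omega))
    simpa using this
  · have := refl (-x) y (by
      have := reflY (-x) (-y) (pos (-x) (-y) (by omega) (by omega) (by
        intro e; apply hw0
        simp only [Prod.mk.injEq] at e ⊢; omega))
      simpa using this)
    simpa using this

end Pool.Agent.H61.Gom
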