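/-!
Analysis of a line with three white stones in one window.
-/

set_option autoImplicit false

namespace Pool.Agent.H61.Gom

/-! ### positions on a line; the position `n` stands for the cell `n - 20` -/

def ce (E : List (Nat × Nat)) : List Nat := E.flatMap fun q => [q.1, q.2]

def inw (s n : Nat) : Bool := Nat.ble s n && Nat.ble n (s + 4)

def hasb (n : Nat) (l : List Nat) : Bool := l.any (Nat.beq n)

def wOK (k : Nat) (B W : List Nat) (E : List (Nat × Nat)) (s : Nat) : Bool :=
  B.any (inw s) || (E.any (fun q => inw s q.1 && inw s q.2) ||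
    Nat.ble ((W.filter (inw s)).length + ((ce E).filter (inw s)).length) k)

def c2 (B W : List Nat) (E : List (Nat × Nat)) : Bool := (List.range' 10 35).all (wOK 2 B W E)

def c1 (B W : List Nat) (E : List (Nat × Nat)) : Bool := (List.range' 10 10).all (wOK 1 B W E)

def nodupb : List Nat → Bool
  | [] => true
  | a :: l => !(hasb a l) && nodupb l

def okl (B W : List Nat) (E : List (Nat × Nat)) : Bool :=
  (W ++ ce E).all (fun n => Nat.ble 20 n && Nat.ble n 35) &&
    (B.all (fun n => Nat.ble 19 n && Nat.ble n 35) && (nodupb (B ++ (W ++ ce E)) && Nat.ble E.length 1))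

def aok : Nat → List Nat → List Nat → List (Nat × Nat) → Bool
  | 0, _, _, _ => false
  | f + 1, B, W, E =>
    okl B W E && (c2 B W E && (c1 B W E &&
    ((List.range' 14 27).all (fun i =>
      hasb i B || (hasb i W || (hasb i (ce E) || (c2 B (i :: W) E ||
      ((List.range' 20 13).any (fun p => (List.range' 1 4).any (fun k =>
        !(hasb p B) && (!(hasb p (i :: W)) && (!(hasb (p + k) B) && (!(hasb (p + k) (i :: W)) &&
          c2 B (i :: W) [(p, p + k)]))))) ||
      (List.range' 19 14).any (fun r => !(hasb r B) && (!(hasb r (i :: W)) &&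
        ((!(hasb r (ce E)) && aok f (r :: B) (i :: W) E) || aok f (r :: B) (i :: W) []))))))))  &&
    E.all (fun q => aok f (q.2 :: B) (q.1 :: W) [] && aok f (q.1 :: B) (q.2 :: W) []))))

theorem aok12 : aok 4 [19] [20, 21, 22] [(23, 24)] = true := by decide +kernel
theorem aok13 : aok 4 [19] [20, 21, 23] [(22, 24)] = true := by decide +kernel
theorem aok14 : aok 4 [19] [20, 21, 24] [(22, 23)] = true := by decide +kernel
theorem aok23 : aok 4 [21] [20, 22, 23] [] = true := by decide +kernel
theorem aok24 : aok 4 [21] [20, 22, 24] [] = true := by decide +kernel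
theorem aok34 : aok 4 [21] [20, 23, 24] [] = true := by decide +kernel

end Pool.Agent.H61.Gom
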