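import Pool.Agent.H61.Gom.Win
import Pool.Agent.H61.Gom.LineD

/-!
Three white stones in one window, far away from the black shape: black neutralises the line
without losing the initiative.
-/

set_option autoImplicit false
set_option linter.dupNamespace false

namespace Pool.Agent.H61.Gom

theorem hasb_iff {n : ℕ} {l : List ℕ} : hasb n l = true ↔ n ∈ l := by
  unfold hasb
  rw [List.any_eq_true]
  constructor
  · rintro ⟨x, hx, h⟩
    rw [beq_iff] at h
    exact h ▸ hx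
  · intro h
    exact ⟨n, h, beq_iff.2 rfl⟩

theorem inw_iff {s n : ℕ} : inw s n = true ↔ s ≤ n ∧ n ≤ s + 4 := by
  unfold inw
  rw [Bool.and_eq_true, ble_iff, ble_iff]

theorem nodupb_iff {l : List ℕ} : nodupb l = true → l.Nodup := by
  induction l with
  | nil => intro _; exact List.nodup_nil
  | cons a l ih =>
    intro h
    unfold nodupb at h
    rw [Bool.and_eq_true, Bool.not_eq_true'] at h
    rw [List.nodup_cons]
    refine ⟨fun hm => ?_, ih h.2⟩
    rw [← hasb_iff, h.1] at hm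
    exact Bool.noConfusion hm

theorem mem_ce {E : List (ℕ × ℕ)} {n : ℕ} : n ∈ ce E ↔ ∃ q ∈ E, n = q.1 ∨ n = q.2 := by
  simp [ce, List.mem_flatMap]

/-! ### the line -/

/-- the cell at distance `t` from `o` -/
def lz (o δ : Cell) (t : ℤ) : Cell := (o.1 + t * δ.1, o.2 + t * δ.2)

def ln (o δ : Cell) (n : ℕ) : Cell := lz o δ ((n : ℤ) - 20)

def Dir (δ : Cell) : Prop := δ = (1, 0) ∨ δ = (0, 1) ∨ δ = (1, 1) ∨ δ = (1, -1)

theorem lz_inj {o δ : Cell} (hδ : Dir δ) {s t : ℤ} (h : lz o δ s = lz o δ t) : s = t := by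
  unfold lz at h
  rw [Prod.mk.injEq] at h
  rcases hδ with rfl | rfl | rfl | rfl <;> simp only [] at h <;> omega

theorem ln_inj {o δ : Cell} (hδ : Dir δ) {m n : ℕ} (h : ln o δ m = ln o δ n) : m = n := by
  have := lz_inj hδ h
  omega

theorem ln_x {o δ : Cell} (hδ : Dir δ) {n : ℕ} (hn : 19 ≤ n) : o.1 - 1 ≤ (ln o δ n).1 := by
  unfold ln lz
  rcases hδ with rfl | rfl | rfl | rfl <;> simp only [] <;> omega

theorem lz_x {o δ : Cell} (hδ : Dir δ) {t : ℤ} (ht : 0 ≤ t) : o.1 ≤ (lz o δ t).1 := by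
  unfold lz
  rcases hδ with rfl | rfl | rfl | rfl <;> simp only [] <;> omega

theorem line_of_add {o δ e : Cell} {d : ℕ} (a : ℤ) (h : ∀ i : ℕ, i < 5 → wc e d i = lz o δ (a + i)) :
    ∀ c, InW e d c ↔ ∃ t : ℤ, a ≤ t ∧ t ≤ a + 4 ∧ c = lz o δ t := by
  intro c
  constructor
  · rintro ⟨i, hi, rfl⟩
    exact ⟨a + i, by omega, by omega, h i hi⟩
  · rintro ⟨t, h1, h2, rfl⟩
    refine ⟨(t - a).toNat, by omega, ?_⟩
    rw [h _ (by omega)]
    congr 1
    omega

theorem line_of_sub {o δ e : Cell} {d : ℕ} (a : ℤ) (h : ∀ i : ℕ, i < 5 → wc e d i = lz o δ (a - i)) :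
    ∀ c, InW e d c ↔ ∃ t : ℤ, a - 4 ≤ t ∧ t ≤ a - 4 + 4 ∧ c = lz o δ t := by
  intro c
  constructor
  · rintro ⟨i, hi, rfl⟩
    exact ⟨a - i, by omega, by omega, h i hi⟩
  · rintro ⟨t, h1, h2, rfl⟩
    refine ⟨(a - t).toNat, by omega, ?_⟩
    rw [h _ (by omega)]
    congr 1
    omega

theorem win_line {o δ : Cell} (hδ : Dir δ) (e : Cell) {d : ℕ} (hd : d < 4) :
    (∃ s : ℤ, ∀ c, InW e d c ↔ ∃ t : ℤ, s ≤ t ∧ t ≤ s + 4 ∧ c = lz o δ t) ∨
    (∀ t t' : ℤ, InW e d (lz o δ t) → InW e d (lz o δ t') → t = t') := by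
  by_cases h : ∀ t t' : ℤ, InW e d (lz o δ t) → InW e d (lz o δ t') → t = t'
  · right; exact h
  · left
    push Not at h
    obtain ⟨t, t', ⟨i, hi, h1⟩, ⟨j, hj, h2⟩, hne⟩ := h
    have h1' := h1
    have h2' := h2
    unfold wc lz at h1' h2'
    rw [Prod.mk.injEq] at h1' h2'
    rcases dir_cases hd with rfl | rfl | rfl | rfl <;> rcases hδ with rfl | rfl | rfl | rfl <;>
      simp only [dv] at h1' h2' <;>
      first
      | (exfalso; omega)
      | (refine ⟨_, line_of_sub (t + i) (fun k hk => ?_)⟩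
         unfold wc lz
         rw [Prod.mk.injEq]
         simp only [dv]
         omega)
      | (refine ⟨_, line_of_add (t - i) (fun k hk => ?_)⟩
         unfold wc lz
         rw [Prod.mk.injEq]
         simp only [dv]
         omega)

theorem cnt_le_list {S : Finset Cell} {e : Cell} {d : ℕ} (M : List Cell)
    (h : ∀ j, j < 5 → wc e d j ∈ S → wc e d j ∈ M) : cnt S e d ≤ M.length := by
  unfold cnt
  calc _ ≤ M.toFinset.card := by
        apply Finset.card_le_card_of_injOn (fun j => wc e d j)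
        · intro j hj
          simp only [Finset.coe_filter, Finset.mem_range, Set.mem_setOf_eq] at hj
          simp only [List.coe_toFinset, Set.mem_setOf_eq]
          exact h j hj.1 hj.2
        · intro i _ j _ hij
          exact wc_inj hij
    _ ≤ _ := List.toFinset_card_le M

/-- the stones on the line -/
def sl (o δ : Cell) (l : List ℕ) : Finset Cell := (l.map (ln o δ)).toFinset

theorem mem_sl {o δ : Cell} {l : List ℕ} {c : Cell} : c ∈ sl o δ l ↔ ∃ n ∈ l, c = ln o δ n := by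
  simp [sl, eq_comm]

/-- the reserved pairs -/
def el (o δ : Cell) (E : List (ℕ × ℕ)) : List (Cell × Cell) :=
  E.map fun q => (ln o δ q.1, ln o δ q.2)

theorem pcl_el (o δ : Cell) (E : List (ℕ × ℕ)) : pcl (el o δ E) = (ce E).map (ln o δ) := by
  induction E with
  | nil => rfl
  | cons q E ih =>
    have h1 : pcl (el o δ (q :: E)) = ln o δ q.1 :: ln o δ q.2 :: pcl (el o δ E) := by
      simp [pcl, el]
    have h2 : ce (q :: E) = q.1 :: q.2 :: ce E := by simp [ce]
    rw [h1, h2, ih]; rfl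

theorem union_sl (o δ : Cell) (W : List ℕ) (E : List (ℕ × ℕ)) :
    sl o δ W ∪ (pcl (el o δ E)).toFinset = sl o δ (W ++ ce E) := by
  rw [pcl_el]
  unfold sl
  rw [List.map_append, List.toFinset_append]

/-- windows on the line -/
theorem cnt_line {o δ e : Cell} {d : ℕ} (hδ : Dir δ) {s : ℤ}
    (hs : ∀ c, InW e d c ↔ ∃ t : ℤ, s ≤ t ∧ t ≤ s + 4 ∧ c = lz o δ t) (l : List ℕ) (m : ℕ)
    (hm : (m : ℤ) = s + 20) :
    cnt (sl o δ l) e d ≤ (l.filter (inw m)).length := by
  have : (l.filter (inw m)).length = ((l.filter (inw m)).map (ln o δ)).length := by simp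
  rw [this]
  apply cnt_le_list
  intro j hj hmem
  rw [mem_sl] at hmem
  obtain ⟨n, hn, he⟩ := hmem
  have hw : InW e d (ln o δ n) := ⟨j, hj, he⟩
  rw [hs] at hw
  obtain ⟨t, t1, t2, ht⟩ := hw
  have := lz_inj hδ ht
  rw [he, List.mem_map]
  refine ⟨n, ?_, rfl⟩
  rw [List.mem_filter, inw_iff]
  exact ⟨hn, by omega, by omega⟩

theorem cnt_line_zero {o δ e : Cell} {d : ℕ} (hδ : Dir δ) {s : ℤ}
    (hs : ∀ c, InW e d c ↔ ∃ t : ℤ, s ≤ t ∧ t ≤ s + 4 ∧ c = lz o δ t) (l : List ℕ)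
    (hl : ∀ n ∈ l, (n : ℤ) < s + 20 ∨ s + 24 < n) :
    cnt (sl o δ l) e d = 0 := by
  have : cnt (sl o δ l) e d ≤ ([] : List Cell).length := by
    apply cnt_le_list
    intro j hj hmem
    rw [mem_sl] at hmem
    obtain ⟨n, hn, he⟩ := hmem
    have hw : InW e d (ln o δ n) := ⟨j, hj, he⟩
    rw [hs] at hw
    obtain ⟨t, t1, t2, ht⟩ := hw
    have := lz_inj hδ ht
    have := hl n hn
    omega
  simpa using this

theorem cnt_off {o δ e : Cell} {d : ℕ} (hδ : Dir δ)
    (h1 : ∀ t t' : ℤ, InW e d (lz o δ t) → InW e d (lz o δ t') → t = t') (l : List ℕ) :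
    cnt (sl o δ l) e d ≤ 1 := by
  by_cases h : ∃ n ∈ l, InW e d (ln o δ n)
  · obtain ⟨n, hn, hw⟩ := h
    have : cnt (sl o δ l) e d ≤ [ln o δ n].length := by
      apply cnt_le_list
      intro j hj hmem
      rw [mem_sl] at hmem
      obtain ⟨m, hm, he⟩ := hmem
      have hw' : InW e d (ln o δ m) := ⟨j, hj, he⟩
      have := h1 _ _ hw hw'
      have : n = m := by omega
      rw [he, this]; simp
    simpa using this
  · have : cnt (sl o δ l) e d ≤ ([] : List Cell).length := by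
      apply cnt_le_list
      intro j hj hmem
      rw [mem_sl] at hmem
      obtain ⟨m, hm, he⟩ := hmem
      exact absurd ⟨m, hm, ⟨j, hj, he⟩⟩ h
    have h0 : cnt (sl o δ l) e d = 0 := by simpa using this
    omega

theorem wOK_elim {k : ℕ} {B W : List ℕ} {E : List (ℕ × ℕ)} {s : ℤ} {o δ e : Cell} {d m : ℕ}
    (hδ : Dir δ)
    (hs : ∀ c, InW e d c ↔ ∃ t : ℤ, s ≤ t ∧ t ≤ s + 4 ∧ c = lz o δ t)
    (hm : (m : ℤ) = s + 20) (h : wOK k B W E m = true) :
    (∃ j, j < 5 ∧ wc e d j ∈ sl o δ B) ∨ (∃ q ∈ el o δ E, InW e d q.1 ∧ InW e d q.2) ∨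
      cnt (sl o δ W ∪ (pcl (el o δ E)).toFinset) e d ≤ k := by
  have key : ∀ n : ℕ, inw m n = true → InW e d (ln o δ n) := by
    intro n hn
    rw [inw_iff] at hn
    rw [hs]
    exact ⟨(n : ℤ) - 20, by omega, by omega, rfl⟩
  unfold wOK at h
  rw [Bool.or_eq_true, Bool.or_eq_true, ble_iff, List.any_eq_true, List.any_eq_true] at h
  rcases h with ⟨b, hb, h⟩ | ⟨q, hq, h⟩ | h
  · left
    obtain ⟨j, hj, e1⟩ := key b h
    exact ⟨j, hj, by rw [e1, mem_sl]; exact ⟨b, hb, rfl⟩⟩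
  · right; left
    rw [Bool.and_eq_true] at h
    exact ⟨_, List.mem_map.2 ⟨q, hq, rfl⟩, key _ h.1, key _ h.2⟩
  · right; right
    rw [union_sl]
    refine (cnt_line hδ hs _ m hm).trans ?_
    rw [List.filter_append, List.length_append]
    exact h

end Pool.Agent.H61.Gom
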