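import Pool.Agent.H61.Gom.Line

/-!
Soundness of the analysis of a line.
-/

set_option autoImplicit false
set_option linter.dupNamespace false

namespace Pool.Agent.H61.Gom

/-- the data of the black shape `S3`: `Z` are the cells needed by its threats, all to the left of
`mx`; `PA` and `P6` are digits for positions with white resp. black to move -/
structure Shape (S3 : Finset Cell) (s3 Z PA P6 : ℕ) (mx : ℤ) (N0 : ℕ) : Prop where
  blk : ∀ i, s3.testBit i = true → ∃ c, Inner c ∧ ci c = i ∧ c ∈ S3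
  sx : ∀ c ∈ S3, c.1 < mx - 1
  al : ∀ i, Z.testBit i = true → ∃ c, Inner c ∧ ci c = i ∧ c.1 < mx
  pa : ∀ e d, d < 4 → (∃ j, j < 5 ∧ wc e d j ∈ S3) ∨ (5 ≤ dg PA (pos e d) ∧
    ((∀ j, j < 5 → mx ≤ (wc e d j).1) → 6 ≤ dg PA (pos e d)))
  p6 : ∀ e d, d < 4 → (∃ j, j < 5 ∧ wc e d j ∈ S3) ∨ 6 ≤ dg P6 (pos e d)
  h0 : ∀ E Bc Wc, Rel E s3 Z P6 Bc Wc → WinN (N0 + E.length) Bc Wc
  ht : ∀ E Bc Wc, Rel E s3 Z PA Bc Wc → ∀ y, Inner y → Z.testBit (ci y) = true → y ∉ Bc →
    WinN (N0 + E.length) Bc (insert y Wc)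

variable {S3 : Finset Cell} {s3 Z PA P6 N0 : ℕ} {mx : ℤ} {o δ : Cell}

theorem Shape.z_x (hS : Shape S3 s3 Z PA P6 mx N0) {c : Cell} (hc : Inner c)
    (h : Z.testBit (ci c) = true) : c.1 < mx := by
  obtain ⟨c', h1, h2, h3⟩ := hS.al _ h
  rwa [ci_inj h1.inB hc.inB h2] at h3

theorem sl_cons (o δ : Cell) (n : ℕ) (l : List ℕ) :
    sl o δ (n :: l) = insert (ln o δ n) (sl o δ l) := by
  simp [sl]

theorem rel_of (hS : Shape S3 s3 Z PA P6 mx N0) (hδ : Dir δ) (hx : mx ≤ o.1) {B : List ℕ}
    {E : List (ℕ × ℕ)} {Wc : Finset Cell} {P : ℕ}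
    (hE : ∀ n ∈ ce E, 20 ≤ n) (hnd : (ce E).Nodup)
    (hBE : ∀ n ∈ B, n ∉ ce E)
    (hW1 : ∀ c ∈ Wc, c ∉ S3) (hW2 : ∀ c ∈ Wc, c ∉ sl o δ B) (hW3 : ∀ n ∈ ce E, ln o δ n ∉ Wc)
    (hW4 : ∀ c ∈ Wc, Inner c → Z.testBit (ci c) = false)
    (hwin : ∀ e d, d < 4 → (∃ j, j < 5 ∧ wc e d j ∈ S3 ∪ sl o δ B) ∨
      (∃ q ∈ el o δ E, InW e d q.1 ∧ InW e d q.2) ∨
      cnt (Wc ∪ (pcl (el o δ E)).toFinset) e d + 4 ≤ dg P (pos e d)) :
    Rel (el o δ E) s3 Z P (S3 ∪ sl o δ B) Wc := by
  refine ⟨?_, ?_, ?_, ?_, ?_, hwin⟩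
  · intro c hc hW
    rw [Finset.mem_union] at hc
    exact hc.elim (hW1 c hW) (hW2 c hW)
  · rw [pcl_el]
    exact hnd.map (fun _ _ h => ln_inj hδ h)
  · intro c hc
    rw [pcl_el, List.mem_map] at hc
    obtain ⟨n, hn, rfl⟩ := hc
    have h20 := hE n hn
    refine ⟨?_, hW3 n hn⟩
    rw [Finset.mem_union, not_or]
    constructor
    · intro h
      have := hS.sx _ h
      have := ln_x (o := o) hδ (n := n) (by omega)
      omega
    · intro h
      rw [mem_sl] at h
      obtain ⟨m, hm, he⟩ := h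
      have := ln_inj hδ he
      exact hBE m hm (this ▸ hn)
  · intro i hi
    obtain ⟨c, h1, h2, h3⟩ := hS.blk i hi
    exact ⟨c, h1, h2, Finset.mem_union_left _ h3⟩
  · intro i hi
    obtain ⟨c, h1, h2, h3⟩ := hS.al i hi
    refine ⟨c, h1, h2, ?_, ?_⟩
    · intro hc
      rw [← h2, hW4 c hc h1] at hi
      exact Bool.noConfusion hi
    · intro hc
      rw [pcl_el, List.mem_map] at hc
      obtain ⟨n, hn, he⟩ := hc
      have h20 := hE n hn
      have : o.1 ≤ (ln o δ n).1 := lz_x hδ (by omega)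
      rw [he] at this
      omega

structure Okl (B W : List ℕ) (E : List (ℕ × ℕ)) : Prop where
  w : ∀ n ∈ W ++ ce E, 20 ≤ n ∧ n ≤ 35
  b : ∀ n ∈ B, 19 ≤ n ∧ n ≤ 35
  nd : (B ++ (W ++ ce E)).Nodup
  len : E.length ≤ 1

theorem okl_iff {B W : List ℕ} {E : List (ℕ × ℕ)} (h : okl B W E = true) : Okl B W E := by
  unfold okl at h
  rw [Bool.and_eq_true, Bool.and_eq_true, Bool.and_eq_true, List.all_eq_true, List.all_eq_true] at h
  obtain ⟨h1, h2, h3, h4⟩ := h
  refine ⟨fun n hn => ?_, fun n hn => ?_, nodupb_iff h3, ble_iff.1 h4⟩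
  · have := h1 n hn
    rwa [Bool.and_eq_true, ble_iff, ble_iff] at this
  · have := h2 n hn
    rwa [Bool.and_eq_true, ble_iff, ble_iff] at this

theorem c2_elim {B W : List ℕ} {E : List (ℕ × ℕ)} (h : c2 B W E = true) {m : ℕ} (h1 : 10 ≤ m)
    (h2 : m ≤ 44) : wOK 2 B W E m = true := by
  unfold c2 at h
  rw [List.all_eq_true] at h
  apply h
  rw [List.mem_range'_1]
  omega

theorem c1_elim {B W : List ℕ} {E : List (ℕ × ℕ)} (h : c1 B W E = true) {m : ℕ} (h1 : 10 ≤ m)
    (h2 : m ≤ 19) : wOK 1 B W E m = true := by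
  unfold c1 at h
  rw [List.all_eq_true] at h
  apply h
  rw [List.mem_range'_1]
  omega

theorem mem_union_right' {B : List ℕ} {e : Cell} {d : ℕ}
    (h : ∃ j, j < 5 ∧ wc e d j ∈ sl o δ B) : ∃ j, j < 5 ∧ wc e d j ∈ S3 ∪ sl o δ B := by
  obtain ⟨j, hj, h⟩ := h
  exact ⟨j, hj, Finset.mem_union_right _ h⟩

theorem mem_union_left' {B : List ℕ} {e : Cell} {d : ℕ}
    (h : ∃ j, j < 5 ∧ wc e d j ∈ S3) : ∃ j, j < 5 ∧ wc e d j ∈ S3 ∪ sl o δ B := by
  obtain ⟨j, hj, h⟩ := h
  exact ⟨j, hj, Finset.mem_union_left _ h⟩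

/-- white to move -/
theorem relA (hS : Shape S3 s3 Z PA P6 mx N0) (hδ : Dir δ) (hx : mx ≤ o.1) {B W : List ℕ}
    {E : List (ℕ × ℕ)} (ho : Okl B W E) (h2 : c2 B W E = true) (h1 : c1 B W E = true) :
    Rel (el o δ E) s3 Z PA (S3 ∪ sl o δ B) (sl o δ W) := by
  have hnd := ho.nd
  rw [List.nodup_append] at hnd
  obtain ⟨nB, nWE, nBWE⟩ := hnd
  rw [List.nodup_append] at nWE
  obtain ⟨nW, nE, nWE'⟩ := nWE
  refine rel_of hS hδ hx ?_ nE ?_ ?_ ?_ ?_ ?_ ?_
  · intro n hn
    exact (ho.w n (List.mem_append_right _ hn)).1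
  · intro n hn hm
    exact nBWE n hn n (List.mem_append_right _ hm) rfl
  · intro c hc h3
    rw [mem_sl] at hc
    obtain ⟨n, hn, rfl⟩ := hc
    have h20 := (ho.w n (List.mem_append_left _ hn)).1
    have := hS.sx _ h3
    have := ln_x (o := o) hδ (n := n) (by omega)
    omega
  · intro c hc h3
    rw [mem_sl] at hc h3
    obtain ⟨n, hn, rfl⟩ := hc
    obtain ⟨m, hm, he⟩ := h3
    have := ln_inj hδ he
    subst this
    exact nBWE n hm n (List.mem_append_left _ hn) rfl
  · intro n hn hc
    rw [mem_sl] at hc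
    obtain ⟨m, hm, he⟩ := hc
    have := ln_inj hδ he
    subst this
    exact nWE' n hm n hn rfl
  · intro c hc hin
    rw [mem_sl] at hc
    obtain ⟨n, hn, rfl⟩ := hc
    have h20 := (ho.w n (List.mem_append_left _ hn)).1
    by_contra hz
    have := hS.z_x hin (by simpa using hz)
    have : o.1 ≤ (ln o δ n).1 := lz_x hδ (by omega)
    omega
  · intro e d hd
    rcases hS.pa e d hd with hb | ⟨p5, p6⟩
    · left; exact mem_union_left' hb
    rcases win_line (o := o) hδ e hd with ⟨s, hs⟩ | h1'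
    · by_cases hr : 10 ≤ s + 20 ∧ s + 20 ≤ 44
      · obtain ⟨m, hm⟩ : ∃ m : ℕ, (m : ℤ) = s + 20 := ⟨(s + 20).toNat, by omega⟩
        by_cases hm19 : m ≤ 19
        · rcases wOK_elim hδ hs hm (c1_elim h1 (by omega) hm19) with hb | hq | hc
          · left; exact mem_union_right' hb
          · right; left; exact hq
          · right; right; omega
        · rcases wOK_elim hδ hs hm (c2_elim h2 (by omega) (by omega)) with hb | hq | hc
          · left; exact mem_union_right' hb
          · right; left; exact hq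
          · right; right
            have : 6 ≤ dg PA (pos e d) := by
              apply p6
              intro j hj
              obtain ⟨t, t1, t2, ht⟩ := (hs (wc e d j)).1 ⟨j, hj, rfl⟩
              rw [ht]
              have := lz_x (o := o) hδ (t := t) (by omega)
              omega
            omega
      · right; right
        rw [union_sl, cnt_line_zero hδ hs]
        · omega
        · intro n hn
          have := ho.w n hn
          omega
    · right; right
      rw [union_sl]
      have := cnt_off hδ h1' (W ++ ce E)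
      omega

/-- black to move, the last white stone being on the line not far from the others -/
theorem relO (hS : Shape S3 s3 Z PA P6 mx N0) (hδ : Dir δ) (hx : mx ≤ o.1) {B W : List ℕ}
    {E : List (ℕ × ℕ)} {i : ℕ} (hi : 14 ≤ i ∧ i ≤ 40)
    (hW : ∀ n ∈ W, 20 ≤ n ∧ n ≤ 35) (hE : ∀ n ∈ ce E, 20 ≤ n ∧ n ≤ 40)
    (nE : (ce E).Nodup) (hBW : ∀ n ∈ B, n ∉ W) (hBE : ∀ n ∈ B, n ∉ ce E) (hWE : ∀ n ∈ W, n ∉ ce E)
    (hiB : i ∉ B) (hiE : i ∉ ce E) (hS3 : ln o δ i ∉ S3)
    (hZ : Inner (ln o δ i) → Z.testBit (ci (ln o δ i)) = false)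
    (h2 : c2 B (i :: W) E = true) :
    Rel (el o δ E) s3 Z P6 (S3 ∪ sl o δ B) (insert (ln o δ i) (sl o δ W)) := by
  rw [← sl_cons]
  refine rel_of hS hδ hx (fun n hn => (hE n hn).1) nE hBE ?_ ?_ ?_ ?_ ?_
  · intro c hc h3
    rw [mem_sl] at hc
    obtain ⟨n, hn, rfl⟩ := hc
    rw [List.mem_cons] at hn
    rcases hn with rfl | hn
    · exact hS3 h3
    · have h20 := (hW n hn).1
      have := hS.sx _ h3
      have := ln_x (o := o) hδ (n := n) (by omega)
      omega
  · intro c hc h3
    rw [mem_sl] at hc h3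
    obtain ⟨n, hn, rfl⟩ := hc
    obtain ⟨m, hm, he⟩ := h3
    have := ln_inj hδ he
    subst this
    rw [List.mem_cons] at hn
    rcases hn with rfl | hn
    · exact hiB hm
    · exact hBW n hm hn
  · intro n hn hc
    rw [mem_sl] at hc
    obtain ⟨m, hm, he⟩ := hc
    have := ln_inj hδ he
    subst this
    rw [List.mem_cons] at hm
    rcases hm with rfl | hm
    · exact hiE hn
    · exact hWE n hm hn
  · intro c hc hin
    rw [mem_sl] at hc
    obtain ⟨n, hn, rfl⟩ := hc
    rw [List.mem_cons] at hn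
    rcases hn with rfl | hn
    · exact hZ hin
    · have h20 := (hW n hn).1
      by_contra hz
      have := hS.z_x hin (by simpa using hz)
      have : o.1 ≤ (ln o δ n).1 := lz_x hδ (by omega)
      omega
  · intro e d hd
    rcases hS.p6 e d hd with hb | p6
    · left; exact mem_union_left' hb
    rcases win_line (o := o) hδ e hd with ⟨s, hs⟩ | h1'
    · by_cases hr : 10 ≤ s + 20 ∧ s + 20 ≤ 44
      · obtain ⟨m, hm⟩ : ∃ m : ℕ, (m : ℤ) = s + 20 := ⟨(s + 20).toNat, by omega⟩
        rcases wOK_elim hδ hs hm (c2_elim h2 (by omega) (by omega)) with hb | hq | hc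
        · left; exact mem_union_right' hb
        · right; left; exact hq
        · right; right; omega
      · right; right
        rw [union_sl, cnt_line_zero hδ hs]
        · omega
        · intro n hn
          rw [List.mem_append, List.mem_cons] at hn
          rcases hn with (rfl | hn) | hn
          · omega
          · have := hW n hn
            omega
          · have := hE n hn
            omega
    · right; right
      rw [union_sl]
      have := cnt_off hδ h1' ((i :: W) ++ ce E)
      omega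

/-- black to move, the last white stone being off the line or far away on it -/
theorem relO' (hS : Shape S3 s3 Z PA P6 mx N0) (hδ : Dir δ) (hx : mx ≤ o.1) {B W : List ℕ}
    {E : List (ℕ × ℕ)} (ho : Okl B W E) (h2 : c2 B W E = true) {y : Cell}
    (hy1 : y ∉ S3 ∪ sl o δ B) (hyl : ∀ t : ℤ, y = lz o δ t → t + 20 ≤ 13 ∨ 41 ≤ t + 20)
    (hyZ : Inner y → Z.testBit (ci y) = false) :
    Rel (el o δ E) s3 Z P6 (S3 ∪ sl o δ B) (insert y (sl o δ W)) := by
  have hnd := ho.nd
  rw [List.nodup_append] at hnd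
  obtain ⟨nB, nWE, nBWE⟩ := hnd
  rw [List.nodup_append] at nWE
  obtain ⟨nW, nE, nWE'⟩ := nWE
  rw [Finset.mem_union, not_or] at hy1
  have hyE : ∀ n ∈ ce E, ln o δ n ≠ y := by
    intro n hn he
    have := ho.w n (List.mem_append_right _ hn)
    have := hyl ((n : ℤ) - 20) he.symm
    omega
  refine rel_of hS hδ hx ?_ nE ?_ ?_ ?_ ?_ ?_ ?_
  · intro n hn
    exact (ho.w n (List.mem_append_right _ hn)).1
  · intro n hn hm
    exact nBWE n hn n (List.mem_append_right _ hm) rfl
  · intro c hc h3
    rw [Finset.mem_insert, mem_sl] at hc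
    rcases hc with rfl | ⟨n, hn, rfl⟩
    · exact hy1.1 h3
    · have h20 := (ho.w n (List.mem_append_left _ hn)).1
      have := hS.sx _ h3
      have := ln_x (o := o) hδ (n := n) (by omega)
      omega
  · intro c hc h3
    rw [Finset.mem_insert] at hc
    rcases hc with rfl | hc
    · exact hy1.2 h3
    rw [mem_sl] at hc h3
    obtain ⟨n, hn, rfl⟩ := hc
    obtain ⟨m, hm, he⟩ := h3
    have := ln_inj hδ he
    subst this
    exact nBWE n hm n (List.mem_append_left _ hn) rfl
  · intro n hn hc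
    rw [Finset.mem_insert] at hc
    rcases hc with hc | hc
    · exact hyE n hn hc
    rw [mem_sl] at hc
    obtain ⟨m, hm, he⟩ := hc
    have := ln_inj hδ he
    subst this
    exact nWE' n hm n hn rfl
  · intro c hc hin
    rw [Finset.mem_insert] at hc
    rcases hc with rfl | hc
    · exact hyZ hin
    rw [mem_sl] at hc
    obtain ⟨n, hn, rfl⟩ := hc
    have h20 := (ho.w n (List.mem_append_left _ hn)).1
    by_contra hz
    have := hS.z_x hin (by simpa using hz)
    have : o.1 ≤ (ln o δ n).1 := lz_x hδ (by omega)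
    omega
  · intro e d hd
    rcases hS.p6 e d hd with hb | p6
    · left; exact mem_union_left' hb
    rcases win_line (o := o) hδ e hd with ⟨s, hs⟩ | h1'
    · by_cases hyw : InW e d y
      · right; right
        have hins := cnt_union_insert_le y e d (sl o δ W) (pcl (el o δ E)).toFinset
        rw [union_sl, cnt_line_zero hδ hs] at hins
        · omega
        · intro n hn
          obtain ⟨t, t1, t2, ht⟩ := (hs y).1 hyw
          have := hyl t ht
          have := ho.w n hn
          omega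
      · rw [Finset.insert_union, cnt_insert_of_not hyw]
        by_cases hr : 10 ≤ s + 20 ∧ s + 20 ≤ 44
        · obtain ⟨m, hm⟩ : ∃ m : ℕ, (m : ℤ) = s + 20 := ⟨(s + 20).toNat, by omega⟩
          rcases wOK_elim hδ hs hm (c2_elim h2 (by omega) (by omega)) with hb | hq | hc
          · left; exact mem_union_right' hb
          · right; left; exact hq
          · right; right; omega
        · right; right
          rw [union_sl, cnt_line_zero hδ hs]
          · omega
          · intro n hn
            have := ho.w n hn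
            omega
    · right; right
      have hins := cnt_union_insert_le y e d (sl o δ W) (pcl (el o δ E)).toFinset
      rw [union_sl] at hins
      have := cnt_off hδ h1' (W ++ ce E)
      omega

/-- white to move loses, within `n` moves of black -/
def AL (S3 : Finset Cell) (o δ : Cell) (n : ℕ) (B W : List ℕ) : Prop :=
  ∀ y, y ∉ S3 ∪ sl o δ B → y ∉ sl o δ W → WinN n (S3 ∪ sl o δ B) (insert y (sl o δ W))

/-- black plays `r` and white loses -/
theorem AL.step (hS : Shape S3 s3 Z PA P6 mx N0) (hδ : Dir δ) (hx : mx ≤ o.1) {B W : List ℕ} {r n : ℕ}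
    (hr : 19 ≤ r) (hrB : r ∉ B) (hrW : r ∉ W) (h : AL S3 o δ n (r :: B) W) :
    WinN (n + 1) (S3 ∪ sl o δ B) (sl o δ W) := by
  refine WinN.step _ _ _ (ln o δ r) ?_ ?_ ?_
  · rw [Finset.mem_union, not_or]
    constructor
    · intro h3
      have := hS.sx _ h3
      have := ln_x (o := o) hδ hr
      omega
    · intro h3
      rw [mem_sl] at h3
      obtain ⟨m, hm, he⟩ := h3
      have := ln_inj hδ he
      exact hrB (this ▸ hm)
  · intro h3
    rw [mem_sl] at h3
    obtain ⟨m, hm, he⟩ := h3
    have := ln_inj hδ he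
    exact hrW (this ▸ hm)
  · intro y hy1 hy2
    have e1 : S3 ∪ sl o δ (r :: B) = insert (ln o δ r) (S3 ∪ sl o δ B) := by
      rw [sl_cons, Finset.union_insert]
    have := h y (by rw [e1]; exact hy1) hy2
    rwa [e1] at this

theorem aok_sound (hS : Shape S3 s3 Z PA P6 mx N0) (hδ : Dir δ) (hx : mx ≤ o.1) :
    ∀ f B W E, aok f B W E = true → AL S3 o δ (N0 + 1 + f) B W := by
  intro f
  induction f with
  | zero => intro B W E h; exact Bool.noConfusion h
  | succ f ih =>
    intro B W E h y hy1 hy2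
    unfold aok at h
    rw [Bool.and_eq_true, Bool.and_eq_true, Bool.and_eq_true, Bool.and_eq_true] at h
    obtain ⟨h1, h2, h3, h4, h5⟩ := h
    have ho := okl_iff h1
    have hEl : (el o δ E).length ≤ 1 := by
      unfold el
      rw [List.length_map]
      exact ho.len
    have hA := relA (o := o) hS hδ hx ho h2 h3
    by_cases hz : Inner y ∧ Z.testBit (ci y) = true
    · exact (hS.ht _ _ _ hA y hz.1 hz.2 hy1).mono (by omega)
    have hyZ : Inner y → Z.testBit (ci y) = false := by
      intro hin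
      by_contra hc
      exact hz ⟨hin, by simpa using hc⟩
    by_cases hl : ∀ t : ℤ, y = lz o δ t → t + 20 ≤ 13 ∨ 41 ≤ t + 20
    · exact (hS.h0 _ _ _ (relO' hS hδ hx ho h2 hy1 hl hyZ)).mono (by omega)
    push Not at hl
    obtain ⟨t, rfl, ht1, ht2⟩ := hl
    obtain ⟨i, hi⟩ : ∃ i : ℕ, (i : ℤ) = t + 20 := ⟨(t + 20).toNat, by omega⟩
    have hyi : lz o δ t = ln o δ i := by
      unfold ln; congr 1; omega
    rw [hyi] at hy1 hy2 hyZ ⊢
    rw [Finset.mem_union, not_or] at hy1
    have hiB : i ∉ B := fun hm => hy1.2 (mem_sl.2 ⟨i, hm, rfl⟩)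
    have hiW : i ∉ W := fun hm => hy2 (mem_sl.2 ⟨i, hm, rfl⟩)
    have hnd := ho.nd
    rw [List.nodup_append] at hnd
    obtain ⟨nB, nWE, nBWE⟩ := hnd
    rw [List.nodup_append] at nWE
    obtain ⟨nW, nE, nWE'⟩ := nWE
    rw [List.all_eq_true] at h4 h5
    have h4' := h4 i (by rw [List.mem_range'_1]; omega)
    rw [Bool.or_eq_true, Bool.or_eq_true, Bool.or_eq_true, Bool.or_eq_true, Bool.or_eq_true,
      hasb_iff, hasb_iff, hasb_iff] at h4'
    have hBW : ∀ n ∈ B, n ∉ W := fun n hn hm => nBWE n hn n (List.mem_append_left _ hm) rfl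
    have hBE : ∀ n ∈ B, n ∉ ce E := fun n hn hm => nBWE n hn n (List.mem_append_right _ hm) rfl
    have hWE : ∀ n ∈ W, n ∉ ce E := fun n hn hm => nWE' n hn n hm rfl
    have hWr : ∀ n ∈ W, 20 ≤ n ∧ n ≤ 35 := fun n hn => ho.w n (List.mem_append_left _ hn)
    have hEr : ∀ n ∈ ce E, 20 ≤ n ∧ n ≤ 35 := fun n hn => ho.w n (List.mem_append_right _ hn)
    rcases h4' with h6 | h6 | h6 | h6 | h6 | h6
    · exact absurd h6 hiB
    · exact absurd h6 hiW
    · -- the pair
      rw [mem_ce] at h6
      obtain ⟨q, hq, hqi⟩ := h6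
      have h5' := h5 q hq
      rw [Bool.and_eq_true] at h5'
      have hqE1 : q.1 ∈ ce E := mem_ce.2 ⟨q, hq, Or.inl rfl⟩
      have hqE2 : q.2 ∈ ce E := mem_ce.2 ⟨q, hq, Or.inr rfl⟩
      have hne : q.1 ≠ q.2 := by
        obtain ⟨s, t, rfl⟩ := List.append_of_mem hq
        unfold ce at nE
        rw [List.flatMap_append, List.nodup_append] at nE
        have := nE.2.1
        rw [List.flatMap_cons, List.nodup_append] at this
        have := this.1
        simpa using this
      rw [← sl_cons]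
      rcases hqi with rfl | rfl
      · refine AL.step hS hδ hx (r := q.2) ?_ ?_ ?_ (ih _ _ _ h5'.1)
        · exact le_trans (by norm_num) (hEr _ hqE2).1
        · exact fun hm => hBE _ hm hqE2
        · rw [List.mem_cons, not_or]
          exact ⟨fun e => hne e.symm, fun hm => hWE _ hm hqE2⟩
      · refine AL.step hS hδ hx (r := q.1) ?_ ?_ ?_ (ih _ _ _ h5'.2)
        · exact le_trans (by norm_num) (hEr _ hqE1).1
        · exact fun hm => hBE _ hm hqE1
        · rw [List.mem_cons, not_or]
          exact ⟨fun e => hne e, fun hm => hWE _ hm hqE1⟩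
    · by_cases hiE : i ∈ ce E
      · -- impossible to say here, use the pair answer
        rw [mem_ce] at hiE
        obtain ⟨q, hq, hqi⟩ := hiE
        have h5' := h5 q hq
        rw [Bool.and_eq_true] at h5'
        have hqE1 : q.1 ∈ ce E := mem_ce.2 ⟨q, hq, Or.inl rfl⟩
        have hqE2 : q.2 ∈ ce E := mem_ce.2 ⟨q, hq, Or.inr rfl⟩
        have hne : q.1 ≠ q.2 := by
          obtain ⟨s, t, rfl⟩ := List.append_of_mem hq
          unfold ce at nE
          rw [List.flatMap_append, List.nodup_append] at nE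
          have := nE.2.1
          rw [List.flatMap_cons, List.nodup_append] at this
          have := this.1
          simpa using this
        rw [← sl_cons]
        rcases hqi with rfl | rfl
        · refine AL.step hS hδ hx (r := q.2) ?_ ?_ ?_ (ih _ _ _ h5'.1)
          · exact le_trans (by norm_num) (hEr _ hqE2).1
          · exact fun hm => hBE _ hm hqE2
          · rw [List.mem_cons, not_or]
            exact ⟨fun e => hne e.symm, fun hm => hWE _ hm hqE2⟩
        · refine AL.step hS hδ hx (r := q.1) ?_ ?_ ?_ (ih _ _ _ h5'.2)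
          · exact le_trans (by norm_num) (hEr _ hqE1).1
          · exact fun hm => hBE _ hm hqE1
          · rw [List.mem_cons, not_or]
            exact ⟨fun e => hne e, fun hm => hWE _ hm hqE1⟩
      · exact (hS.h0 _ _ _ (relO hS hδ hx (by omega) hWr
          (fun n hn => ⟨(hEr n hn).1, by have := (hEr n hn).2; omega⟩) nE hBW hBE hWE hiB hiE hy1.1
          hyZ h6)).mono (by omega)
    · -- a new pair
      rw [List.any_eq_true] at h6
      obtain ⟨p, hp, h6⟩ := h6
      rw [List.any_eq_true] at h6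
      obtain ⟨k, hk, h6⟩ := h6
      rw [List.mem_range'_1] at hp hk
      simp only [Bool.and_eq_true, Bool.not_eq_true', ← Bool.not_eq_true, hasb_iff] at h6
      obtain ⟨g1, g2, g3, g4, g5⟩ := h6
      rw [List.mem_cons, not_or] at g2 g4
      have hce : ce [(p, p + k)] = [p, p + k] := rfl
      have hlen : (el o δ [(p, p + k)]).length = 1 := by simp [el]
      refine (hS.h0 _ _ _ (relO (E := [(p, p + k)]) hS hδ hx (by omega) hWr ?_ ?_ hBW ?_ ?_ hiB ?_
        hy1.1 hyZ g5)).mono (by omega)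
      · intro n hn
        rw [hce] at hn
        simp only [List.mem_cons, List.not_mem_nil, or_false] at hn
        omega
      · rw [hce]
        simp only [List.nodup_cons, List.mem_cons, List.not_mem_nil, or_false, not_false_eq_true,
          List.nodup_nil, and_true]
        omega
      · intro n hn hm
        rw [hce] at hm
        simp only [List.mem_cons, List.not_mem_nil, or_false] at hm
        rcases hm with rfl | rfl
        · exact g1 hn
        · exact g3 hn
      · intro n hn hm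
        rw [hce] at hm
        simp only [List.mem_cons, List.not_mem_nil, or_false] at hm
        rcases hm with rfl | rfl
        · exact g2.2 hn
        · exact g4.2 hn
      · rw [hce]
        simp only [List.mem_cons, List.not_mem_nil, or_false, not_or]
        exact ⟨fun e => g2.1 e.symm, fun e => g4.1 e.symm⟩
    · -- a black answer
      rw [List.any_eq_true] at h6
      obtain ⟨r, hr, h6⟩ := h6
      rw [List.mem_range'_1] at hr
      rw [Bool.and_eq_true, Bool.and_eq_true, Bool.or_eq_true, Bool.and_eq_true] at h6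
      obtain ⟨g1, g2, g3⟩ := h6
      simp only [Bool.not_eq_true', ← Bool.not_eq_true, hasb_iff] at g1 g2
      rw [← sl_cons]
      rcases g3 with g3 | g3
      · exact AL.step hS hδ hx (by omega) g1 g2 (ih _ _ _ g3.2)
      · exact AL.step hS hδ hx (by omega) g1 g2 (ih _ _ _ g3)

end Pool.Agent.H61.Gom
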