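import Pool.Agent.H61.Gom.Const

/-!
The checking machine. A state is given by two numbers: the board `J`, with one hexadecimal digit
for every cell (bit 0: black stone, bit 1: the cell is available), and the digits `P` of the
windows. The argument `cur` of the machine is the sequence of the instructions still to be read.
-/

namespace Pool.Agent.H61.Gom

/-- trees of states, the index being read from its lowest bits -/
inductive Tr
  | lf (J P : Nat)
  | nd (a b c d : Tr)

/-- stacks of goals -/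
inductive Stk
  | nil
  | cons (J P : Nat) (tl : Stk)

noncomputable def get (t : Tr) : Nat → (Nat → Nat → Bool) → Bool :=
  @Tr.rec (fun _ => Nat → (Nat → Nat → Bool) → Bool) (fun J P _ kont => kont J P)
    (fun _ _ _ _ ia ib ic id i kont => (@Nat.rec (fun _ => Nat → (Nat → Nat → Bool) → Bool) ia (fun n1 _ => (@Nat.rec (fun _ => Nat → (Nat → Nat → Bool) → Bool) ib (fun n2 _ => (@Nat.rec (fun _ => Nat → (Nat → Nat → Bool) → Bool) ic (fun n3 _ => id) n2)) n1)) (Nat.land i (nat_lit 3))) (Nat.shiftRight i (nat_lit 2)) kont) t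

/-- number of the state under proof, instructions, current goal, other goals -/
abbrev K3 := (k cur : Nat) → (J P : Nat) → Stk → Bool
abbrev T3 := Tr → (b : Nat) → K3 → (k cur : Nat) → (J P : Nat) → Stk → Bool

/-- start with the state number `k` -/
noncomputable def load (tbl : Tr) (ih : K3) (k cur : Nat) : Bool :=
  get tbl k (fun J P => (@Bool.rec (fun _ => Bool) Bool.false
      (ih k cur J P Stk.nil)
      (Nat.beq (Nat.land (Nat.land P cEIGHT) (Nat.lor (Nat.shiftLeft P (nat_lit 1)) (Nat.lor (Nat.shiftLeft P (nat_lit 2)) (Nat.shiftLeft P (nat_lit 3))))) (nat_lit 0))))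

noncomputable def pop3 (tbl : Tr) (b : Nat) (ih : K3) (k cur : Nat) (stk : Stk) : Bool :=
  @Stk.rec (fun _ => Bool)
    (@Bool.rec (fun _ => Bool) (load tbl ih (Nat.succ k) cur) Bool.true (Nat.beq (Nat.succ k) b))
    (fun J P tl _ => ih k cur J P tl) stk

/-- straight four -/
noncomputable def stepS : T3 := fun tbl b ih k cur J P stk =>
  (@Bool.rec (fun _ => Bool) Bool.false
      (@Bool.rec (fun _ => Bool) Bool.false
      (pop3 tbl b ih k (Nat.shiftRight cur (nat_lit 18)) stk)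
      (Nat.beq (Nat.land P cEIGHT) (nat_lit 0)))
      (Nat.beq (Nat.land J (Nat.shiftLeft (Nat.land (Nat.shiftRight kE (Nat.land (Nat.shiftRight cur (nat_lit 4)) (nat_lit 15360))) (nat_lit 0xffffffffffffffffffffffffffffffffffffffffffffffffffffffffffffffffffffffffffffffffffffffffffffffffffffffffffffffffffffffffffffffffffffffffffffffffffffffffffffffffffffffff)) (Nat.land (Nat.shiftRight cur (nat_lit 2)) (nat_lit 4092)))) (Nat.shiftLeft (Nat.land (Nat.shiftRight kE (Nat.land (Nat.shiftRight cur (nat_lit 4)) (nat_lit 15360))) (nat_lit 0xffffffffffffffffffffffffffffffffffffffffffffffffffffffffffffffffffffffffffffffffffffffffffffffffffffffffffffffffffffffffffffffffffffffffffffffffffffffffffffffffffffffff)) (Nat.land (Nat.shiftRight cur (nat_lit 2)) (nat_lit 4092)))))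

/-- a move with a threat, then in all cases a straight four -/
noncomputable def stepDb (tbl : Tr) (b : Nat) (ih : K3) (k cur : Nat) (J P1 J1 V V' : Nat) (stk : Stk) (t0 : Nat) : Bool :=
  (@Bool.rec (fun _ => Bool) Bool.false
      (@Bool.rec (fun _ => Bool) Bool.false
      (@Bool.rec (fun _ => Bool) Bool.false
      (@Bool.rec (fun _ => Bool) Bool.false
      (pop3 tbl b ih k cur stk)
      (Nat.beq (Nat.land (Nat.xor J1 (Nat.land V k2)) V') V'))
      (Nat.beq (Nat.land (Nat.add P1 cONE) cEIGHT) (nat_lit 0)))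
      (Nat.beq (Nat.land J1 V) V))
      (Nat.beq (Nat.land J (Nat.shiftLeft (nat_lit 2) t0)) (Nat.shiftLeft (nat_lit 2) t0)))
noncomputable def stepD : T3 := fun tbl b ih k cur J P stk =>
  stepDb tbl b ih k (Nat.shiftRight cur (nat_lit 42)) J (Nat.land P (Nat.shiftRight kN (Nat.sub (nat_lit 4096) (Nat.land (Nat.shiftRight cur (nat_lit 16)) (nat_lit 4092))))) (Nat.xor J (Nat.shiftLeft (nat_lit 3) (Nat.land (Nat.shiftRight cur (nat_lit 16)) (nat_lit 4092)))) (Nat.shiftLeft (Nat.land (Nat.shiftRight kE (Nat.land (Nat.shiftRight cur (nat_lit 4)) (nat_lit 15360))) (nat_lit 0xffffffffffffffffffffffffffffffffffffffffffffffffffffffffffffffffffffffffffffffffffffffffffffffffffffffffffffffffffffffffffffffffffffffffffffffffffffffffffffffffffffffff)) (Nat.land (Nat.shiftRight cur (nat_lit 2)) (nat_lit 4092))) (Nat.shiftLeft (Nat.land (Nat.shiftRight kE (Nat.land (Nat.shiftRight cur (nat_lit 28)) (nat_lit 15360))) (nat_lit 0xffffffffffffffffffffffffffffffffffffffffffffffffffffffffffffffffffffffffffffffffffffffffffffffffffffffffffffffffffffffffffffffffffffffffffffffffffffffffffffffffffffffff))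 (Nat.land (Nat.shiftRight cur (nat_lit 26)) (nat_lit 4092))) stk (Nat.land (Nat.shiftRight cur (nat_lit 16)) (nat_lit 4092))

/-- a move with a threat; the three cells as a group of answers -/
noncomputable def stepGb (tbl : Tr) (b : Nat) (ih : K3) (k cur : Nat) (J P1 J1 V : Nat) (stk : Stk) (t0 ts tc te : Nat) : Bool :=
  (@Bool.rec (fun _ => Bool) Bool.false
      (@Bool.rec (fun _ => Bool) Bool.false
      (@Bool.rec (fun _ => Bool) Bool.false
      (ih k cur (Nat.xor J1 (Nat.land V k2)) (Nat.add P1 (Nat.lor (Nat.shiftLeft cPAT ts) (Nat.lor (Nat.shiftLeft cPAT tc) (Nat.shiftLeft cPAT te)))) stk)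
      (Nat.beq (Nat.land (Nat.add P1 cONE) cEIGHT) (nat_lit 0)))
      (Nat.beq (Nat.land J1 V) V))
      (Nat.beq (Nat.land J (Nat.shiftLeft (nat_lit 2) t0)) (Nat.shiftLeft (nat_lit 2) t0)))
noncomputable def stepG : T3 := fun tbl b ih k cur J P stk =>
  stepGb tbl b ih k (Nat.shiftRight cur (nat_lit 28)) J (Nat.land P (Nat.shiftRight kN (Nat.sub (nat_lit 4096) (Nat.land (Nat.shiftRight cur (nat_lit 16)) (nat_lit 4092))))) (Nat.xor J (Nat.shiftLeft (nat_lit 3) (Nat.land (Nat.shiftRight cur (nat_lit 16)) (nat_lit 4092)))) (Nat.shiftLeft (Nat.land (Nat.shiftRight kE (Nat.land (Nat.shiftRight cur (nat_lit 4)) (nat_lit 15360))) (nat_lit 0xffffffffffffffffffffffffffffffffffffffffffffffffffffffffffffffffffffffffffffffffffffffffffffffffffffffffffffffffffffffffffffffffffffffffffffffffffffffffffffffffffffffff)) (Nat.land (Nat.shiftRight cur (nat_lit 2)) (nat_lit 4092))) stk  (Nat.land (Nat.shiftRight cur (nat_lit 16)) (nat_lit 4092)) (Nat.land (Nat.shiftRight cur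 (nat_lit 2)) (nat_lit 4092)) (Nat.add (Nat.land (Nat.shiftRight cur (nat_lit 2)) (nat_lit 4092)) (Nat.land (Nat.shiftRight (Nat.shiftRight kE (Nat.land (Nat.shiftRight cur (nat_lit 4)) (nat_lit 15360))) (nat_lit 672)) (nat_lit 4095))) (Nat.add (Nat.land (Nat.shiftRight cur (nat_lit 2)) (nat_lit 4092)) (Nat.land (Nat.shiftRight (Nat.shiftRight kE (Nat.land (Nat.shiftRight cur (nat_lit 4)) (nat_lit 15360))) (nat_lit 684)) (nat_lit 4095)))

/-- a move with a threat; the three cells one by one -/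
noncomputable def stepTb (tbl : Tr) (b : Nat) (ih : K3) (k cur : Nat) (J P1 J1 V : Nat) (stk : Stk) (t0 ts tc te : Nat) : Bool :=
  (@Bool.rec (fun _ => Bool) Bool.false
      (@Bool.rec (fun _ => Bool) Bool.false
      (@Bool.rec (fun _ => Bool) Bool.false
      (ih k cur (Nat.xor J1 (Nat.shiftLeft (nat_lit 2) tc)) (Nat.add P1 (Nat.shiftLeft cPAT tc)) (Stk.cons (Nat.xor J1 (Nat.shiftLeft (nat_lit 2) ts)) (Nat.add P1 (Nat.shiftLeft cPAT ts)) (Stk.cons (Nat.xor J1 (Nat.shiftLeft (nat_lit 2) te)) (Nat.add P1 (Nat.shiftLeft cPAT te)) stk)))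
      (Nat.beq (Nat.land (Nat.add P1 cONE) cEIGHT) (nat_lit 0)))
      (Nat.beq (Nat.land J1 V) V))
      (Nat.beq (Nat.land J (Nat.shiftLeft (nat_lit 2) t0)) (Nat.shiftLeft (nat_lit 2) t0)))
noncomputable def stepT : T3 := fun tbl b ih k cur J P stk =>
  stepTb tbl b ih k (Nat.shiftRight cur (nat_lit 28)) J (Nat.land P (Nat.shiftRight kN (Nat.sub (nat_lit 4096) (Nat.land (Nat.shiftRight cur (nat_lit 16)) (nat_lit 4092))))) (Nat.xor J (Nat.shiftLeft (nat_lit 3) (Nat.land (Nat.shiftRight cur (nat_lit 16)) (nat_lit 4092)))) (Nat.shiftLeft (Nat.land (Nat.shiftRight kE (Nat.land (Nat.shiftRight cur (nat_lit 4)) (nat_lit 15360))) (nat_lit 0xffffffffffffffffffffffffffffffffffffffffffffffffffffffffffffffffffffffffffffffffffffffffffffffffffffffffffffffffffffffffffffffffffffffffffffffffffffffffffffffffffffffff)) (Nat.land (Nat.shiftRight cur (nat_lit 2)) (nat_lit 4092))) stk  (Nat.land (Nat.shiftRight cur (nat_lit 16)) (nat_lit 4092)) (Nat.land (Nat.shiftRight cur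 (nat_lit 2)) (nat_lit 4092)) (Nat.add (Nat.land (Nat.shiftRight cur (nat_lit 2)) (nat_lit 4092)) (Nat.land (Nat.shiftRight (Nat.shiftRight kE (Nat.land (Nat.shiftRight cur (nat_lit 4)) (nat_lit 15360))) (nat_lit 672)) (nat_lit 4095))) (Nat.add (Nat.land (Nat.shiftRight cur (nat_lit 2)) (nat_lit 4092)) (Nat.land (Nat.shiftRight (Nat.shiftRight kE (Nat.land (Nat.shiftRight cur (nat_lit 4)) (nat_lit 15360))) (nat_lit 684)) (nat_lit 4095)))

/-- one of three cells alone, the two others as a group -/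
noncomputable def stepQ (tbl : Tr) (b : Nat) (ih : K3) (k cur : Nat) (J1 P1 : Nat) (stk : Stk) (t1 t2 t3 : Nat) : Bool :=
  ih k cur (Nat.xor J1 (Nat.shiftLeft (nat_lit 2) t1)) (Nat.add P1 (Nat.shiftLeft cPAT t1))
    (Stk.cons (Nat.xor J1 (Nat.lor (Nat.shiftLeft (nat_lit 2) t2) (Nat.shiftLeft (nat_lit 2) t3))) (Nat.add P1 (Nat.lor (Nat.shiftLeft cPAT t2) (Nat.shiftLeft cPAT t3))) stk)

/-- a move with a threat; one of the three cells alone -/
noncomputable def stepPb (tbl : Tr) (b : Nat) (ih : K3) (k cur : Nat) (J P1 J1 V : Nat) (stk : Stk) (p : Nat) (t0 ts tc te : Nat) : Bool :=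
  (@Bool.rec (fun _ => Bool) Bool.false
      (@Bool.rec (fun _ => Bool) Bool.false
      (@Bool.rec (fun _ => Bool) Bool.false
      (@Nat.rec (fun _ => Bool) (stepQ tbl b ih k cur J1 P1 stk tc ts te) (fun n1 _ => (@Nat.rec (fun _ => Bool) (stepQ tbl b ih k cur J1 P1 stk ts tc te) (fun n2 _ => (stepQ tbl b ih k cur J1 P1 stk te tc ts)) n1)) p)
      (Nat.beq (Nat.land (Nat.add P1 cONE) cEIGHT) (nat_lit 0)))
      (Nat.beq (Nat.land J1 V) V))
      (Nat.beq (Nat.land J (Nat.shiftLeft (nat_lit 2) t0)) (Nat.shiftLeft (nat_lit 2) t0)))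
noncomputable def stepP : T3 := fun tbl b ih k cur J P stk =>
  stepPb tbl b ih k (Nat.shiftRight cur (nat_lit 30)) J (Nat.land P (Nat.shiftRight kN (Nat.sub (nat_lit 4096) (Nat.land (Nat.shiftRight cur (nat_lit 16)) (nat_lit 4092))))) (Nat.xor J (Nat.shiftLeft (nat_lit 3) (Nat.land (Nat.shiftRight cur (nat_lit 16)) (nat_lit 4092)))) (Nat.shiftLeft (Nat.land (Nat.shiftRight kE (Nat.land (Nat.shiftRight cur (nat_lit 4)) (nat_lit 15360))) (nat_lit 0xffffffffffffffffffffffffffffffffffffffffffffffffffffffffffffffffffffffffffffffffffffffffffffffffffffffffffffffffffffffffffffffffffffffffffffffffffffffffffffffffffffffff)) (Nat.land (Nat.shiftRight cur (nat_lit 2)) (nat_lit 4092))) stk (Nat.land (Nat.shiftRight cur (nat_lit 28)) (nat_lit 3)) (Nat.land (Nat.shiftRight cur (nat_lit 16)) (nat_lit 4092)) (Nat.land (Nat.shiftRight cur (nat_lit 2)) (nat_lit 4092)) (Nat.add (Nat.land (Nat.shiftRight cur (nat_lit 2)) (nat_lit 4092)) (Nat.land (Nat.shiftRight (Nat.shiftRight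 kE (Nat.land (Nat.shiftRight cur (nat_lit 4)) (nat_lit 15360))) (nat_lit 672)) (nat_lit 4095))) (Nat.add (Nat.land (Nat.shiftRight cur (nat_lit 2)) (nat_lit 4092)) (Nat.land (Nat.shiftRight (Nat.shiftRight kE (Nat.land (Nat.shiftRight cur (nat_lit 4)) (nat_lit 15360))) (nat_lit 684)) (nat_lit 4095)))

/-- a four and the forced answer -/
noncomputable def stepFb (tbl : Tr) (b : Nat) (ih : K3) (k cur : Nat) (J P1 : Nat) (stk : Stk) (tc te x m : Nat) : Bool :=
  (@Bool.rec (fun _ => Bool) Bool.false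
      (@Bool.rec (fun _ => Bool) Bool.false
      (@Bool.rec (fun _ => Bool) Bool.false
      (ih k cur (Nat.xor (Nat.xor J (Nat.shiftLeft (nat_lit 3) tc)) (Nat.shiftLeft (nat_lit 2) te)) (Nat.add P1 (Nat.shiftLeft cPAT te)) stk)
      (Nat.beq (Nat.land P1 cEIGHT) (nat_lit 0)))
      (Nat.beq (Nat.land (Nat.lor J x) m) m))
      (Nat.beq (Nat.land J (Nat.shiftLeft x (nat_lit 1))) (Nat.shiftLeft x (nat_lit 1))))
noncomputable def stepF : T3 := fun tbl b ih k cur J P stk =>
  stepFb tbl b ih k (Nat.shiftRight cur (nat_lit 36)) J (Nat.land P (Nat.shiftRight kN (Nat.sub (nat_lit 4096) (Nat.land (Nat.shiftRight cur (nat_lit 2)) (nat_lit 4092))))) stk (Nat.land (Nat.shiftRight cur (nat_lit 2)) (nat_lit 4092)) (Nat.land (Nat.shiftRight cur (nat_lit 12)) (nat_lit 4092)) (Nat.lor (Nat.shiftLeft (nat_lit 1) (Nat.land (Nat.shiftRight cur (nat_lit 2)) (nat_lit 4092))) (Nat.shiftLeft (nat_lit 1) (Nat.land (Nat.shiftRight cur (nat_lit 12)) (nat_lit 4092)))) (Nat.shiftLeft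 (Nat.land (Nat.shiftRight kF (Nat.land (Nat.shiftRight cur (nat_lit 24)) (nat_lit 3072))) (nat_lit 0xffffffffffffffffffffffffffffffffffffffffffffffffffffffffffffffffffffffffffffffffffffffffffffffffffffffffffffffffffffffffffffffffffffffff)) (Nat.land (Nat.shiftRight cur (nat_lit 22)) (nat_lit 4092)))

/-- a double four -/
noncomputable def stepZb (tbl : Tr) (b : Nat) (ih : K3) (k cur : Nat) (J P : Nat) (stk : Stk) (tc t1 t2 m1 m2 : Nat) : Bool :=
  (@Bool.rec (fun _ => Bool) Bool.false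
      (@Bool.rec (fun _ => Bool) Bool.false
      (@Bool.rec (fun _ => Bool) Bool.false
      (@Bool.rec (fun _ => Bool) Bool.false
      (@Bool.rec (fun _ => Bool) Bool.false
      (pop3 tbl b ih k cur stk)
      (Nat.ble (Nat.succ t1) t2))
      (Nat.beq (Nat.land (Nat.land P (Nat.shiftRight kN (Nat.sub (nat_lit 4096) tc))) cEIGHT) (nat_lit 0)))
      (Nat.beq (Nat.land (Nat.lor J (Nat.lor (Nat.shiftLeft (nat_lit 1) tc) (Nat.shiftLeft (nat_lit 1) t2))) m2) m2))
      (Nat.beq (Nat.land (Nat.lor J (Nat.lor (Nat.shiftLeft (nat_lit 1) tc) (Nat.shiftLeft (nat_lit 1) t1))) m1) m1))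
      (Nat.beq (Nat.land J (Nat.lor (Nat.shiftLeft (nat_lit 2) tc) (Nat.lor (Nat.shiftLeft (nat_lit 2) t1) (Nat.shiftLeft (nat_lit 2) t2)))) (Nat.lor (Nat.shiftLeft (nat_lit 2) tc) (Nat.lor (Nat.shiftLeft (nat_lit 2) t1) (Nat.shiftLeft (nat_lit 2) t2)))))
noncomputable def stepZ : T3 := fun tbl b ih k cur J P stk =>
  stepZb tbl b ih k (Nat.shiftRight cur (nat_lit 58)) J P stk (Nat.land (Nat.shiftRight cur (nat_lit 2)) (nat_lit 4092)) (Nat.land (Nat.shiftRight cur (nat_lit 12)) (nat_lit 4092)) (Nat.land (Nat.shiftRight cur (nat_lit 22)) (nat_lit 4092)) (Nat.shiftLeft (Nat.land (Nat.shiftRight kF (Nat.land (Nat.shiftRight cur (nat_lit 34)) (nat_lit 3072))) (nat_lit 0xffffffffffffffffffffffffffffffffffffffffffffffffffffffffffffffffffffffffffffffffffffffffffffffffffffffffffffffffffffffffffffffffffffffff)) (Nat.land (Nat.shiftRight cur (nat_lit 32)) (nat_lit 4092))) (Nat.shiftLeft (Nat.land (Nat.shiftRight kF (Nat.land (Nat.shiftRight cur (nat_lit 46)) (nat_lit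 3072))) (nat_lit 0xffffffffffffffffffffffffffffffffffffffffffffffffffffffffffffffffffffffffffffffffffffffffffffffffffffffffffffffffffffffffffffffffffffffff)) (Nat.land (Nat.shiftRight cur (nat_lit 44)) (nat_lit 4092)))

/-- bound of the number of white stones in a window -/
noncomputable def stepCb (tbl : Tr) (b : Nat) (ih : K3) (k cur : Nat) (J P : Nat) (stk : Stk) (e v c p : Nat) : Bool :=
  (@Bool.rec (fun _ => Bool) Bool.false
      (ih k cur J (Nat.sub P (Nat.shiftLeft (Nat.sub (Nat.land (Nat.shiftRight P p) (nat_lit 15)) (Nat.add c (nat_lit 4))) p)) stk)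
      (Nat.ble (nat_lit 5) (Nat.add c (Nat.add (Nat.land (Nat.shiftRight J e) (nat_lit 1)) (Nat.add (Nat.land (Nat.shiftRight J (Nat.sub e v)) (nat_lit 1)) (Nat.add (Nat.land (Nat.shiftRight J (Nat.sub e (Nat.mul (nat_lit 2) v))) (nat_lit 1)) (Nat.add (Nat.land (Nat.shiftRight J (Nat.sub e (Nat.mul (nat_lit 3) v))) (nat_lit 1)) (Nat.land (Nat.shiftRight J (Nat.sub e (Nat.mul (nat_lit 4) v))) (nat_lit 1)))))))))
noncomputable def stepC : T3 := fun tbl b ih k cur J P stk =>
  stepCb tbl b ih k (Nat.shiftRight cur (nat_lit 19)) J P stk (Nat.succ (Nat.land (Nat.shiftRight cur (nat_lit 2)) (nat_lit 4092))) (@Nat.rec (fun _ => Nat) (nat_lit 4) (fun n1 _ => (@Nat.rec (fun _ => Nat) (nat_lit 128) (fun n2 _ => (@Nat.rec (fun _ => Nat) (nat_lit 132) (fun n3 _ => (nat_lit 124)) n2)) n1)) (Nat.land (Nat.shiftRight cur (nat_lit 14)) (nat_lit 3))) (Nat.land (Nat.shiftRight cur (nat_lit 16)) (nat_lit 7)) (Nat.land (Nat.shiftRight cur (nat_lit 2)) (nat_lit 16380))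

/-- a state already won -/
noncomputable def leP8 (P P' A : Nat) : Bool :=
  (@Bool.rec (fun _ => Bool) Bool.false
      (Nat.beq (Nat.land (Nat.sub (Nat.lor P' cEIGHT) (Nat.xor P A)) cEIGHT) cEIGHT)
      (Nat.beq (Nat.land P' A) A))
noncomputable def stepX : T3 := fun tbl b ih k cur J P stk =>
  (@Bool.rec (fun _ => Bool) Bool.false
      (@Bool.rec (fun _ => Bool) Bool.false
      (pop3 tbl b ih k (Nat.shiftRight cur (nat_lit 18)) stk)
      (get tbl (Nat.land (Nat.shiftRight cur (nat_lit 4)) (nat_lit 16383)) (fun J' P' => (@Bool.rec (fun _ => Bool) Bool.false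
      (leP8 P P' (Nat.land P cEIGHT))
      (Nat.beq (Nat.land J J') J')))))
      (Nat.ble (Nat.succ (Nat.land (Nat.shiftRight cur (nat_lit 4)) (nat_lit 16383))) k))

/-- a state already won, two cells being put aside as a pair -/
noncomputable def leE (J P1 both y J' P' : Nat) : Bool :=
  (@Bool.rec (fun _ => Bool) Bool.false
      (@Bool.rec (fun _ => Bool) Bool.false
      (@Bool.rec (fun _ => Bool) Bool.false
      (@Bool.rec (fun _ => Bool) Bool.false
      (Nat.beq (Nat.land (Nat.sub (Nat.lor P' cEIGHT) (Nat.xor P1 (Nat.land P1 both))) cEIGHT) cEIGHT)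
      (Nat.beq (Nat.land (Nat.xor P1 (Nat.land P1 both)) cEIGHT) (nat_lit 0)))
      (Nat.beq (Nat.land J' y) (nat_lit 0)))
      (Nat.beq (Nat.land J y) y))
      (Nat.beq (Nat.land J J') J'))
noncomputable def stepEb (tbl : Tr) (b : Nat) (ih : K3) (k cur : Nat) (J P : Nat) (stk : Stk) (i tp tq : Nat) : Bool :=
  (@Bool.rec (fun _ => Bool) Bool.false
      (@Bool.rec (fun _ => Bool) Bool.false
      (@Bool.rec (fun _ => Bool) Bool.false
      (@Bool.rec (fun _ => Bool) Bool.false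
      (pop3 tbl b ih k cur stk)
      (get tbl i (leE J (Nat.add P (Nat.add (Nat.shiftLeft cPAT tp) (Nat.shiftLeft cPAT tq))) (Nat.land (Nat.shiftLeft cKILL tp) (Nat.shiftLeft cKILL tq)) (Nat.lor (Nat.shiftLeft (nat_lit 2) tp) (Nat.shiftLeft (nat_lit 2) tq)))))
      (Nat.beq (Nat.land P cEIGHT) (nat_lit 0)))
      (Nat.ble (Nat.succ tp) tq))
      (Nat.ble (Nat.succ i) k))
noncomputable def stepE : T3 := fun tbl b ih k cur J P stk =>
  stepEb tbl b ih k (Nat.shiftRight cur (nat_lit 38)) J P stk (Nat.land (Nat.shiftRight cur (nat_lit 4)) (nat_lit 16383)) (Nat.land (Nat.shiftRight cur (nat_lit 16)) (nat_lit 4092)) (Nat.land (Nat.shiftRight cur (nat_lit 26)) (nat_lit 4092))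

/-- a move with arbitrary groups of answers: `R` are the cells answered, `m` and `W` the current
group -/
abbrev KM := (cur R m W : Nat) → (stk : Stk) → Bool
noncomputable def repE (J1 P1 : Nat) (ih : KM) (cur R : Nat) (stk : Stk) (m W : Nat) : Bool :=
  ih cur (Nat.lor R m) (nat_lit 0) (nat_lit 0) (Stk.cons (Nat.xor J1 m) (Nat.add P1 W) stk)
noncomputable def rep1 (J1 P1 : Nat) (ih : KM) (cur R m W : Nat) (stk : Stk) (fl x y : Nat) : Bool :=
  (@Nat.rec (fun _ => Bool) (repE J1 P1 ih cur R stk x y) (fun n1 _ => (@Nat.rec (fun _ => Bool) (ih cur R (Nat.lor m x) (Nat.lor W y) stk) (fun n2 _ => (repE J1 P1 ih cur R stk (Nat.lor m x) (Nat.lor W y))) n1)) fl)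
noncomputable def reps (J1 P1 : Nat) (fin : (cur R : Nat) → (stk : Stk) → Bool) (n : Nat) : KM :=
  @Nat.rec (fun _ => KM) (fun cur R _ _ stk => fin cur R stk)
    (fun _ ih cur R m W stk => rep1 J1 P1 ih (Nat.shiftRight cur (nat_lit 12)) R m W stk (Nat.land cur (nat_lit 3)) (Nat.shiftLeft (nat_lit 2) (Nat.land cur (nat_lit 4092))) (Nat.shiftLeft cPAT (Nat.land cur (nat_lit 4092)))) n
noncomputable def finM (ih : K3) (k J1 P1 cur R : Nat) (stk : Stk) : Bool :=
  (@Bool.rec (fun _ => Bool) Bool.false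
      (ih k cur (Nat.xor (Nat.xor J1 (Nat.land J1 k2)) R) (Nat.add P1 cONE) stk)
      (Nat.beq (Nat.land J1 R) R))
noncomputable def stepMb (tbl : Tr) (b : Nat) (ih : K3) (k cur : Nat) (J J1 P1 : Nat) (stk : Stk) (n t0 : Nat) : Bool :=
  (@Bool.rec (fun _ => Bool) Bool.false
      (@Bool.rec (fun _ => Bool) Bool.false
      (reps J1 P1 (finM ih k J1 P1) n cur (nat_lit 0) (nat_lit 0) (nat_lit 0) stk)
      (Nat.beq (Nat.land P1 cEIGHT) (nat_lit 0)))
      (Nat.beq (Nat.land J (Nat.shiftLeft (nat_lit 2) t0)) (Nat.shiftLeft (nat_lit 2) t0)))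
noncomputable def stepM : T3 := fun tbl b ih k cur J P stk =>
  stepMb tbl b ih k (Nat.shiftRight cur (nat_lit 22)) J (Nat.xor J (Nat.shiftLeft (nat_lit 3) (Nat.land (Nat.shiftRight cur (nat_lit 2)) (nat_lit 4092)))) (Nat.land P (Nat.shiftRight kN (Nat.sub (nat_lit 4096) (Nat.land (Nat.shiftRight cur (nat_lit 2)) (nat_lit 4092))))) stk (Nat.land (Nat.shiftRight cur (nat_lit 14)) (nat_lit 255)) (Nat.land (Nat.shiftRight cur (nat_lit 2)) (nat_lit 4092))

inductive Op
  | oS | oD | oF | oC | oG | oM | oX | oP | oE | oZ | oT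

noncomputable def dec (op : Nat) : Op :=
  (@Nat.rec (fun _ => Op) Op.oS (fun n1 _ => (@Nat.rec (fun _ => Op) Op.oD (fun n2 _ => (@Nat.rec (fun _ => Op) Op.oF (fun n3 _ => (@Nat.rec (fun _ => Op) Op.oC (fun n4 _ => (@Nat.rec (fun _ => Op) Op.oG (fun n5 _ => (@Nat.rec (fun _ => Op) Op.oM (fun n6 _ => (@Nat.rec (fun _ => Op) Op.oX (fun n7 _ => (@Nat.rec (fun _ => Op) Op.oP (fun n8 _ => (@Nat.rec (fun _ => Op) Op.oE (fun n9 _ => (@Nat.rec (fun _ => Op) Op.oZ (fun n10 _ => Op.oT) n9)) n8)) n7)) n6)) n5)) n4)) n3)) n2)) n1)) op)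

noncomputable def run3 (tbl : Tr) (b fuel : Nat) : K3 :=
  @Nat.rec (fun _ => K3) (fun _ _ _ _ _ => Bool.false)
    (fun _ ih k cur J P stk => @Op.rec (fun _ => K3 → K3)
      (stepS tbl b) (stepD tbl b) (stepF tbl b) (stepC tbl b) (stepG tbl b) (stepM tbl b) (stepX tbl b) (stepP tbl b) (stepE tbl b) (stepZ tbl b) (stepT tbl b)
      (dec (Nat.land cur (nat_lit 15))) ih k cur J P stk) fuel

/-- the states number `a` to `b - 1` of the table, given those before -/
noncomputable def chk (tbl : Tr) (a b cur : Nat) : Bool :=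
  load tbl (run3 tbl b (nat_lit 1000000)) a cur

/-- the states number `a` to `b - 1` are won if those before are -/
inductive Ok (tbl : Tr) : Nat → Nat → Prop
  | nil (a : Nat) : Ok tbl a a
  | step {a b c cur : Nat} (h : Ok tbl a b) (h' : chk tbl b c cur = true) : Ok tbl a c

end Pool.Agent.H61.Gom
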