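import Pool.Agent.H61.Gom.Sound
import Pool.Agent.H61.Gom.Root

/-!
The initial positions and the tables of states.
-/

set_option autoImplicit false
set_option linter.dupNamespace false
set_option maxRecDepth 100000

namespace Pool.Agent.H61.Gom

/-- the state number `i < n` of the table contains the given one -/
noncomputable def lib (tbl : Tr) (n i J P : ℕ) : Bool :=
  Nat.ble (i + 1) n && get tbl i (fun J' P' => Nat.beq (Nat.land J J') J' &&
    (Nat.beq (Nat.land P cEIGHT) 0 &&
      Nat.beq (Nat.land (Nat.sub (Nat.lor P' cEIGHT) P) cEIGHT) cEIGHT))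

theorem lib_ok {tbl : Tr} {n i J P : ℕ} (h : lib tbl n i J P = true) (hw : ∀ i, i < n → Wk tbl i) :
    WinJ J P := by
  unfold lib at h
  rw [Bool.and_eq_true, get_eq, Bool.and_eq_true, Bool.and_eq_true] at h
  obtain ⟨h1, h2, h3, h4⟩ := h
  have h2' := eq_of h2
  refine WinOR.mono (hw i (Nat.le_of_ble_eq_true h1)) ?_ ?_
    (fun m hm => le_of_leD (eq_of h3) (eq_of h4) hm)
  · intro j hj
    rw [ext_bit] at hj ⊢
    exact sub_of_land' h2' _ hj
  · intro j hj
    rw [ext_bit] at hj ⊢
    exact sub_of_land' h2' _ hj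

noncomputable def tabOK (tbl : Tr) (n J P : ℕ) : List ℕ → List ℕ → Bool
  | [], _ => true
  | _ :: _, [] => false
  | a :: l, i :: m =>
    Nat.beq (Nat.land (Nat.shiftRight J (Nat.succ (Nat.mul 4 a))) 1) 1 &&
      (lib tbl n i (Nat.xor J (Nat.shiftLeft 2 (Nat.mul 4 a)))
        (Nat.add P (Nat.shiftLeft cPAT (Nat.mul 4 a))) && tabOK tbl n J P l m)

theorem ext_xor (m m' r : ℕ) : ext (m ^^^ m') r = ext m r ^^^ ext m' r := by
  apply Nat.eq_of_testBit_eq
  intro i
  rw [ext_bit, Nat.testBit_xor, Nat.testBit_xor, ext_bit, ext_bit]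

theorem ext_two (a : ℕ) : ext (2 <<< (4 * a)) 0 = 0 := by
  apply Nat.eq_of_testBit_eq
  intro i
  rw [ext_bit, tb2, Nat.zero_testBit, decide_eq_false]
  omega

theorem ext_b0 (a : ℕ) : ext (1 <<< (4 * a)) 0 = 1 <<< a := by
  apply Nat.eq_of_testBit_eq
  intro i
  rw [ext_bit, testBit_one_shl, testBit_one_shl]
  exact decide_eq_decide.2 (by omega)

theorem ext_b1 (a : ℕ) : ext (1 <<< (4 * a)) 1 = 0 := by
  apply Nat.eq_of_testBit_eq
  intro i
  rw [ext_bit, testBit_one_shl, Nat.zero_testBit, decide_eq_false]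
  omega

theorem ext_30 (a : ℕ) : ext (3 <<< (4 * a)) 0 = 1 <<< a := by
  apply Nat.eq_of_testBit_eq
  intro i
  rw [ext_bit, tb3, testBit_one_shl, decide_eq_false (show ¬ 4 * i + 0 = 4 * a + 1 by omega),
    Bool.or_false]
  exact decide_eq_decide.2 (by omega)

theorem ext_31 (a : ℕ) : ext (3 <<< (4 * a)) 1 = 1 <<< a := by
  apply Nat.eq_of_testBit_eq
  intro i
  rw [ext_bit, tb3, testBit_one_shl, decide_eq_false (show ¬ 4 * i + 1 = 4 * a by omega),
    Bool.false_or]
  exact decide_eq_decide.2 (by omega)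

theorem ext_zero (r : ℕ) : ext 0 r = 0 := by
  apply Nat.eq_of_testBit_eq
  intro i
  rw [ext_bit, Nat.zero_testBit, Nat.zero_testBit]

theorem tab_sound {tbl : Tr} {n J P : ℕ} (h7 : Le 7 P) (hw : ∀ i, i < n → Wk tbl i) :
    ∀ {l m : List ℕ}, tabOK tbl n J P l m = true → TabW (ext J 0) (ext J 1) P l := by
  intro l
  induction l with
  | nil => intro m _; exact ⟨0, fun E Bc Wc _ y _ hy => by simp at hy⟩
  | cons a l ih =>
    intro m h
    cases m with
    | nil => exact Bool.noConfusion h
    | cons i m =>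
      unfold tabOK at h
      rw [Bool.and_eq_true, Bool.and_eq_true] at h
      obtain ⟨h1, h2, h3⟩ := h
      have h1' := bit_iff.1 (eq_of h1)
      obtain ⟨N1, hN1⟩ := lib_ok h2 hw
      obtain ⟨N2, hN2⟩ := ih h3
      refine ⟨N1 + N2, ?_⟩
      intro E Bc Wc hR y hin hy hB
      rw [List.mem_cons] at hy
      rcases hy with hy | hy
      · subst hy
        have ha : (ext J 1).testBit (ci y) = true := by rw [ext_bit]; exact h1'
        have hr := hR.reply h7 hin hB ha
        refine (hN1 E Bc _ (hr.mono ?_ ?_ (fun n _ => le_rfl))).mono (by omega)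
        · have e : ext (Nat.xor J (Nat.shiftLeft 2 (Nat.mul 4 (ci y)))) 0 = ext J 0 := by
            have : Nat.xor J (Nat.shiftLeft 2 (Nat.mul 4 (ci y))) = J ^^^ 2 <<< (4 * ci y) := rfl
            rw [this, ext_xor, ext_two, Nat.xor_zero]
          rw [e]; exact fun i hi => hi
        · have e : ext (Nat.xor J (Nat.shiftLeft 2 (Nat.mul 4 (ci y)))) 1 =
            ext J 1 ^^^ 1 <<< ci y := by
            have : Nat.xor J (Nat.shiftLeft 2 (Nat.mul 4 (ci y))) = J ^^^ 2 <<< (4 * ci y) := rfl
            rw [this, ext_xor, ext_one]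
          rw [e]; exact fun i hi => hi
      · exact (hN2 E Bc Wc hR y hin hy hB).mono (by omega)

/-- boards given by lists of cells -/
def jb (l : List ℕ) : ℕ := l.foldr (fun a z => Nat.lor (Nat.shiftLeft 1 (Nat.mul 4 a)) z) 0
def ja (l : List ℕ) : ℕ := l.foldr (fun a z => Nat.lor (Nat.shiftLeft 2 (Nat.mul 4 a)) z) 0

theorem ext_jb0 (l : List ℕ) : ext (jb l) 0 = maskOf l := by
  induction l with
  | nil => exact ext_zero 0
  | cons a l ih =>
    have e : jb (a :: l) = 1 <<< (4 * a) ||| jb l := rfl
    have e' : maskOf (a :: l) = (1 <<< a) ||| maskOf l := rfl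
    rw [e, e', ext_or, ih, ext_b0]

theorem ext_jb1 (l : List ℕ) : ext (jb l) 1 = 0 := by
  induction l with
  | nil => exact ext_zero 1
  | cons a l ih =>
    have e : jb (a :: l) = 1 <<< (4 * a) ||| jb l := rfl
    rw [e, ext_or, ih, ext_b1]; rfl

theorem ext_ja1 (l : List ℕ) : ext (ja l) 1 = maskOf l := by
  induction l with
  | nil => exact ext_zero 1
  | cons a l ih =>
    have e : ja (a :: l) = 2 <<< (4 * a) ||| ja l := rfl
    have e' : maskOf (a :: l) = (1 <<< a) ||| maskOf l := rfl
    rw [e, e', ext_or, ih, ext_one]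

theorem ext_ja0 (l : List ℕ) : ext (ja l) 0 = 0 := by
  induction l with
  | nil => exact ext_zero 0
  | cons a l ih =>
    have e : ja (a :: l) = 2 <<< (4 * a) ||| ja l := rfl
    rw [e, ext_or, ih, ext_two]; rfl

theorem ext_nib (lb la : List ℕ) : ext (Nat.lor (jb lb) (ja la)) 0 = maskOf lb ∧
    ext (Nat.lor (jb lb) (ja la)) 1 = maskOf la := by
  have e : Nat.lor (jb lb) (ja la) = jb lb ||| ja la := rfl
  rw [e, ext_or, ext_or, ext_jb0, ext_jb1, ext_ja0, ext_ja1, Nat.or_zero, Nat.zero_or]
  exact ⟨rfl, rfl⟩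

/-- the board `A` of available cells, with one digit for every cell -/
noncomputable def nibOK (j A : ℕ) : Bool :=
  (Nat.beq (Nat.shiftRight j 4096) 0 && Nat.beq (Nat.shiftRight A 1024) 0) &&
    allB (fun n => Nat.beq (rd j n) (Nat.mul 2 (Nat.land (Nat.shiftRight A n) 1))) 1024

theorem nib_bits : ∀ b : ℕ, b ≤ 1 → (2 * b).testBit 0 = false ∧
    ((2 * b).testBit 1 = true ↔ b = 1) := by
  intro b hb
  interval_cases b
  · exact ⟨rfl, by decide⟩
  · exact ⟨rfl, by decide⟩

theorem nib_ok {j A : ℕ} (h : nibOK j A = true) : ext j 0 = 0 ∧ ext j 1 = A := by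
  unfold nibOK at h
  rw [Bool.and_eq_true, Bool.and_eq_true] at h
  obtain ⟨⟨h1, h2⟩, h3⟩ := h
  have h1' : j >>> 4096 = 0 := eq_of h1
  have h2' : A >>> 1024 = 0 := eq_of h2
  have dig : ∀ i, i < 1024 → dg j i = 2 * Nat.land (Nat.shiftRight A i) 1 := by
    intro i hi
    have := eq_of (allB_iff h3 i hi)
    rwa [rd_eq] at this
  have big : ∀ i, 4096 ≤ i → j.testBit i = false := by
    intro i hi
    have e : j.testBit i = (j >>> 4096).testBit (i - 4096) := by
      rw [Nat.testBit_shiftRight]; congr 1; omega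
    rw [e, h1', Nat.zero_testBit]
  have bigA : ∀ i, 1024 ≤ i → A.testBit i = false := by
    intro i hi
    have e : A.testBit i = (A >>> 1024).testBit (i - 1024) := by
      rw [Nat.testBit_shiftRight]; congr 1; omega
    rw [e, h2', Nat.zero_testBit]
  constructor
  · apply Nat.eq_of_testBit_eq
    intro i
    rw [ext_bit, Nat.zero_testBit]
    rcases lt_or_ge i 1024 with hi | hi
    · rw [← testBit_dg _ _ _ (by norm_num), dig i hi]
      exact (nib_bits _ (land_one_le _)).1
    · exact big _ (by omega)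
  · apply Nat.eq_of_testBit_eq
    intro i
    rw [ext_bit]
    rcases lt_or_ge i 1024 with hi | hi
    · rw [← testBit_dg _ _ _ (by norm_num), dig i hi]
      have := (nib_bits _ (land_one_le (Nat.shiftRight A i))).2
      have h5 := @bit_iff A i
      rw [Bool.eq_iff_iff, this, h5]
    · rw [big _ (by omega), bigA _ hi]

/-- the boards with all the inner cells, resp. those to the left of 22, available -/
def jI : ℕ := 0x2222222222222222222222220000000022222222222222222222222200000000222222222222222222222222000000002222222222222222222222220000000022222222222222222222222200000000222222222222222222222222000000002222222222222222222222220000000022222222222222222222222200000000222222222222222222222222000000002222222222222222222222220000000022222222222222222222222200000000222222222222222222222222000000002222222222222222222222220000000022222222222222222222222200000000222222222222222222222222000000002222222222222222222222220000000022222222222222222222222200000000222222222222222222222222000000002222222222222222222222220000000022222222222222222222222200000000222222222222222222222222000000002222222222222222222222220000000022222222222222222222222200000000222222222222222222222222000000000000000000000000000000000000000000000000000000000000000000000000000000000000000000000000000000000000000000000000000000000000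
def jA2 : ℕ := 0x2222222222222222220000000000000022222222222222222200000000000000222222222222222222000000000000002222222222222222220000000000000022222222222222222200000000000000222222222222222222000000000000002222222222222222220000000000000022222222222222222200000000000000222222222222222222000000000000002222222222222222220000000000000022222222222222222200000000000000222222222222222222000000000000002222222222222222220000000000000022222222222222222200000000000000222222222222222222000000000000002222222222222222220000000000000022222222222222222200000000000000222222222222222222000000000000002222222222222222220000000000000022222222222222222200000000000000222222222222222222000000000000002222222222222222220000000000000022222222222222222200000000000000222222222222222222000000000000000000000000000000000000000000000000000000000000000000000000000000000000000000000000000000000000000000000000000000000000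

theorem nibI : nibOK jI kINNER = true := by decide +kernel
theorem nib2 : nibOK jA2 kAL2 = true := by decide +kernel

noncomputable def rootOK (tbl : Tr) (n i a b : ℕ) : Bool :=
  Nat.beq (Nat.land (Nat.shiftRight kINNER a) 1) 1 &&
    (Nat.beq (Nat.land (Nat.shiftRight (Nat.xor kINNER (Nat.shiftLeft 1 a)) b) 1) 1 &&
      lib tbl n i (Nat.xor (Nat.xor jI (Nat.shiftLeft 3 (Nat.mul 4 a)))
        (Nat.shiftLeft 2 (Nat.mul 4 b))) (Nat.add (clr k4 a) (Nat.shiftLeft cPAT (Nat.mul 4 b))))

theorem root_win {tbl : Tr} {n i : ℕ} {c0 c1 : Cell} (h : rootOK tbl n i (ci c0) (ci c1) = true)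
    (hw : ∀ i, i < n → Wk tbl i) (h0 : Inner c0) (h1 : Inner c1) (hne : c1 ≠ c0) :
    ∃ N, WinN N {c0} {c1} := by
  unfold rootOK at h
  rw [Bool.and_eq_true, Bool.and_eq_true] at h
  obtain ⟨g1, g2, g3⟩ := h
  have r2 := rel_two (bit_iff.1 (eq_of g1)) (bit_iff.1 (eq_of g2)) h0 h1 hne
  obtain ⟨N, hN⟩ := lib_ok g3 hw
  have e : Nat.xor (Nat.xor jI (Nat.shiftLeft 3 (Nat.mul 4 (ci c0))))
    (Nat.shiftLeft 2 (Nat.mul 4 (ci c1))) = (jI ^^^ 3 <<< (4 * ci c0)) ^^^ 2 <<< (4 * ci c1) := rfl
  obtain ⟨n1, n2⟩ := nib_ok nibI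
  refine ⟨_, hN [] _ _ (r2.mono ?_ ?_ (fun n _ => le_rfl))⟩
  · rw [e, ext_xor, ext_xor, n1, ext_30, ext_two, Nat.zero_xor, Nat.xor_zero]
    exact fun i hi => hi
  · rw [e, ext_xor, ext_xor, n2, ext_31, ext_one]
    exact fun i hi => hi

theorem class_win {tbl : Tr} {n : ℕ} (i cx cy x y : ℕ)
    (h : rootOK tbl n i (cy * 32 + cx) ((cy + y) * 32 + (cx + x)) = true)
    (hw : ∀ i, i < n → Wk tbl i)
    (hc : 4 ≤ cx ∧ cx + x ≤ 27 ∧ 4 ≤ cy ∧ cy + y ≤ 27 ∧ 0 < x) :
    ∃ N, WinN N {(0, 0)} {((x : ℤ), (y : ℤ))} := by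
  have key : ∃ N, WinN N {((cx : ℤ), (cy : ℤ))} {((cx : ℤ) + x, (cy : ℤ) + y)} := by
    refine root_win (i := i) ?_ hw ?_ ?_ ?_
    · have e1 : ci ((cx : ℤ), (cy : ℤ)) = cy * 32 + cx := by unfold ci; simp only []; omega
      have e2 : ci ((cx : ℤ) + x, (cy : ℤ) + y) = (cy + y) * 32 + (cx + x) := by
        unfold ci; simp only []; omega
      rw [e1, e2]
      exact h
    · unfold Inner; simp only []; omega
    · unfold Inner; simp only []; omega
    · intro e
      rw [Prod.mk.injEq] at e
      omega
  obtain ⟨N, hN⟩ := key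
  exact ⟨N, of_centre hN⟩

/-! ### the far family -/

noncomputable def j3 (l : List ℕ) : ℕ := Nat.lor (jb [428, 427, 395]) (ja l)
noncomputable def j2 : ℕ := Nat.lor (jb [428, 427]) jA2

theorem ext_j2 : ext j2 0 = m2 ∧ ext j2 1 = kAL2 := by
  obtain ⟨n1, n2⟩ := nib_ok nib2
  have e : j2 = jb [428, 427] ||| jA2 := rfl
  rw [e, ext_or, ext_or, ext_jb0, ext_jb1, n1, n2, Nat.or_zero, Nat.zero_or]
  exact ⟨rfl, rfl⟩

theorem far_tab {tbl : Tr} {n i0 : ℕ} {l m mm : List ℕ} (h0 : lib tbl n i0 (j3 l) q6 = true)
    (ht : tabOK tbl n (j3 l) qPA l m = true) (hl : cellsOK 18 l = true)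
    (ht2 : tabOK tbl n j2 qP2 (395 :: l) mm = true) (hw : ∀ i, i < n → Wk tbl i) :
    ∃ N, ∀ x y : ℤ, 10 ≤ x → WinN N {(0, 0)} {(x, y)} := by
  obtain ⟨a1, a2⟩ := ext_nib [428, 427, 395] l
  obtain ⟨b1, b2⟩ := ext_j2
  have k0 : WinOR (ext (j3 l) 0) (ext (j3 l) 1) q6 := lib_ok h0 hw
  have k1 := tab_sound le7_qPA hw ht
  have k2 := tab_sound le7_qP2 hw ht2
  have a1' : ext (j3 l) 0 = m3 := a1
  have a2' : ext (j3 l) 1 = maskOf l := a2
  rw [a1', a2'] at k0 k1
  rw [b1, b2] at k2
  exact far_all k0 k1 hl k2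

end Pool.Agent.H61.Gom
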