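import Mathlib.Algebra.Order.BigOperators.Group.Finset
import Pool.Agent.H61.Gom.Near
import Pool.Agent.H61.Gom.G.CA0
import Pool.Agent.H61.Gom.G.CA1
import Pool.Agent.H61.Gom.G.CA2
import Pool.Agent.H61.Gom.G.CA3
import Pool.Agent.H61.Gom.G.CA4
import Pool.Agent.H61.Gom.G.CA5
import Pool.Agent.H61.Gom.G.CA6
import Pool.Agent.H61.Gom.G.CA7
import Pool.Agent.H61.Gom.G.CA8
import Pool.Agent.H61.Gom.G.CA9
import Pool.Agent.H61.Gom.G.CB0
import Pool.Agent.H61.Gom.G.CB1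
import Pool.Agent.H61.Gom.G.CB2
import Pool.Agent.H61.Gom.G.CC0
import Pool.Agent.H61.Gom.G.CC1
import Pool.Agent.H61.Gom.G.CC2
import Pool.Agent.H61.Gom.G.CC3
import Pool.Agent.H61.Gom.G.CD0
import Pool.Agent.H61.Gom.G.CD1
import Pool.Agent.H61.Gom.G.CD2
import Pool.Agent.H61.Gom.G.CD3
import Pool.Agent.H61.Gom.G.CD4
import Pool.Agent.H61.Gom.G.CD5
import Pool.Agent.H61.Gom.G.CD6
import Pool.Agent.H61.Gom.G.CD7
import Pool.Agent.H61.Gom.G.CD8
import Pool.Agent.H61.Gom.G.CD9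
import Pool.Agent.H61.Gom.G.CD10
import Pool.Agent.H61.Gom.G.CD11
import Pool.Agent.H61.Gom.G.CD12
import Pool.Agent.H61.Gom.G.CE0
import Pool.Agent.H61.Gom.G.CE1

/-!
All the first white stones.
-/

set_option autoImplicit false
set_option linter.dupNamespace false
set_option maxRecDepth 100000

namespace Pool.Agent.H61.Gom

theorem wonA : ∀ i, i < nat_lit 5278 → Wk tbA i :=
  (pA9.win (pA8.win (pA7.win (pA6.win (pA5.win (pA4.win (pA3.win (pA2.win (pA1.win (pA0.win (fun i hi => absurd hi (Nat.not_lt_zero i))))))))))))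

theorem wonB : ∀ i, i < nat_lit 2055 → Wk tbB i :=
  (pB2.win (pB1.win (pB0.win (fun i hi => absurd hi (Nat.not_lt_zero i)))))

theorem wonC : ∀ i, i < nat_lit 2517 → Wk tbC i :=
  (pC3.win (pC2.win (pC1.win (pC0.win (fun i hi => absurd hi (Nat.not_lt_zero i))))))

theorem wonD : ∀ i, i < nat_lit 8274 → Wk tbD i :=
  (pD12.win (pD11.win (pD10.win (pD9.win (pD8.win (pD7.win (pD6.win (pD5.win (pD4.win (pD3.win (pD2.win (pD1.win (pD0.win (fun i hi => absurd hi (Nat.not_lt_zero i)))))))))))))))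

theorem wonE : ∀ i, i < nat_lit 1507 → Wk tbE i :=
  (pE1.win (pE0.win (fun i hi => absurd hi (Nat.not_lt_zero i))))

def zl : List ℕ := [167, 171, 175, 199, 200, 201, 203, 205, 206, 207, 231, 232, 233, 234, 235, 236, 237, 238, 239, 262, 264, 265, 266, 267, 268, 269, 270, 272, 273, 293, 295, 296, 297, 298, 299, 300, 301, 302, 303, 304, 305, 326, 327, 328, 329, 330, 331, 332, 333, 334, 335, 336, 337, 358, 359, 360, 361, 362, 363, 364, 365, 366, 367, 368, 369, 391, 392, 393, 394, 396, 397, 398, 399, 421, 422, 423, 424, 425, 426, 429, 430, 431, 432, 433, 453, 455, 456, 457, 458, 459, 460, 461, 462, 463, 464, 465, 486, 487, 488, 489, 490, 491, 492, 493, 494, 495, 518, 519, 520, 521, 522, 523, 524, 525, 526, 527, 528, 549, 550, 552, 553, 554, 555, 556, 557, 558, 561, 583, 586, 587, 589, 590, 591, 614, 618, 622]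

def lm : List ℕ := [1, 2, 3, 121, 4, 122, 5, 123, 6, 124, 7, 125, 8, 9, 11, 126, 12, 13, 14, 127, 15, 128, 16, 17, 18, 129, 19, 130, 20, 21, 22, 23, 24, 25, 26, 27, 28, 29, 30, 31, 32, 33, 131, 132, 34, 35, 36, 37, 38, 39, 40, 41, 133, 42, 43, 44, 45, 48, 49, 50, 51, 52, 53, 54, 55, 56, 57, 58, 59, 60, 61, 62, 63, 64, 65, 66, 67, 68, 70, 71, 72, 73, 74, 75, 134, 76, 77, 78, 79, 80, 81, 82, 83, 84, 135, 85, 86, 87, 88, 89, 90, 91, 93, 94, 95, 96, 97, 136, 137, 98, 99, 100, 101, 102, 138, 139, 103, 104, 140, 105, 106, 107, 108, 109, 110, 111, 112, 113, 114, 115, 116, 141, 117, 118, 119, 120]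

def lmm : List ℕ := [960, 153, 157, 155, 154, 162, 165, 177, 176, 166, 164, 163, 171, 198, 218, 221, 178, 191, 220, 194, 156, 212, 229, 191, 284, 191, 285, 263, 176, 156, 161, 202, 260, 329, 371, 444, 473, 421, 385, 330, 261, 199, 197, 242, 316, 397, 528, 590, 654, 599, 537, 413, 309, 231, 216, 282, 359, 514, 715, 791, 867, 768, 682, 503, 337, 156, 213, 427, 577, 812, 1022, 983, 847, 633, 191, 222, 310, 489, 674, 948, 1094, 894, 641, 491, 309, 178, 293, 455, 610, 736, 1014, 1040, 999, 747, 566, 466, 213, 214, 276, 352, 531, 698, 824, 874, 833, 690, 544, 195, 233, 311, 405, 556, 629, 636, 623, 539, 401, 312, 159, 175, 244, 308, 335, 445, 474, 430, 345, 213, 190, 156, 213, 213, 178, 191, 156, 156, 213]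

theorem far_h0 : lib tbD (nat_lit 8274) 0 (j3 zl) q6 = true := by decide +kernel

theorem far_ht : tabOK tbD (nat_lit 8274) (j3 zl) qPA zl lm = true := by decide +kernel

theorem far_hl : cellsOK 18 zl = true := by decide +kernel

theorem far_ht2 : tabOK tbD (nat_lit 8274) j2 qP2 (395 :: zl) lmm = true := by decide +kernel

theorem far_x : ∃ N, ∀ x y : ℤ, 10 ≤ x → WinN N {(0, 0)} {(x, y)} :=
  far_tab far_h0 far_ht far_hl far_ht2 wonD

theorem k_1_0 : ∃ N, WinN N {(0, 0)} {(((1 : ℕ) : ℤ), ((0 : ℕ) : ℤ))} :=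
  class_win 5277 16 16 1 0 (by decide +kernel) wonA (by norm_num)

theorem k_1_1 : ∃ N, WinN N {(0, 0)} {(((1 : ℕ) : ℤ), ((1 : ℕ) : ℤ))} :=
  class_win 2054 16 16 1 1 (by decide +kernel) wonB (by norm_num)

theorem k_2_0 : ∃ N, WinN N {(0, 0)} {(((2 : ℕ) : ℤ), ((0 : ℕ) : ℤ))} :=
  class_win 2516 16 16 2 0 (by decide +kernel) wonC (by norm_num)

theorem k_2_1 : ∃ N, WinN N {(0, 0)} {(((2 : ℕ) : ℤ), ((1 : ℕ) : ℤ))} :=
  class_win 1554 16 16 2 1 (by decide +kernel) wonC (by norm_num)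

theorem k_2_2 : ∃ N, WinN N {(0, 0)} {(((2 : ℕ) : ℤ), ((2 : ℕ) : ℤ))} :=
  class_win 913 16 16 2 2 (by decide +kernel) wonC (by norm_num)

theorem k_3_0 : ∃ N, WinN N {(0, 0)} {(((3 : ℕ) : ℤ), ((0 : ℕ) : ℤ))} :=
  class_win 8273 12 13 3 0 (by decide +kernel) wonD (by norm_num)

theorem k_3_1 : ∃ N, WinN N {(0, 0)} {(((3 : ℕ) : ℤ), ((1 : ℕ) : ℤ))} :=
  class_win 7987 12 13 3 1 (by decide +kernel) wonD (by norm_num)

theorem k_3_2 : ∃ N, WinN N {(0, 0)} {(((3 : ℕ) : ℤ), ((2 : ℕ) : ℤ))} :=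
  class_win 7662 12 13 3 2 (by decide +kernel) wonD (by norm_num)

theorem k_3_3 : ∃ N, WinN N {(0, 0)} {(((3 : ℕ) : ℤ), ((3 : ℕ) : ℤ))} :=
  class_win 7328 12 13 3 3 (by decide +kernel) wonD (by norm_num)

theorem k_4_0 : ∃ N, WinN N {(0, 0)} {(((4 : ℕ) : ℤ), ((0 : ℕ) : ℤ))} :=
  class_win 7123 12 13 4 0 (by decide +kernel) wonD (by norm_num)

theorem k_4_1 : ∃ N, WinN N {(0, 0)} {(((4 : ℕ) : ℤ), ((1 : ℕ) : ℤ))} :=
  class_win 6896 12 13 4 1 (by decide +kernel) wonD (by norm_num)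

theorem k_4_2 : ∃ N, WinN N {(0, 0)} {(((4 : ℕ) : ℤ), ((2 : ℕ) : ℤ))} :=
  class_win 6604 12 13 4 2 (by decide +kernel) wonD (by norm_num)

theorem k_4_3 : ∃ N, WinN N {(0, 0)} {(((4 : ℕ) : ℤ), ((3 : ℕ) : ℤ))} :=
  class_win 6282 12 13 4 3 (by decide +kernel) wonD (by norm_num)

theorem k_4_4 : ∃ N, WinN N {(0, 0)} {(((4 : ℕ) : ℤ), ((4 : ℕ) : ℤ))} :=
  class_win 5987 12 13 4 4 (by decide +kernel) wonD (by norm_num)

theorem k_5_0 : ∃ N, WinN N {(0, 0)} {(((5 : ℕ) : ℤ), ((0 : ℕ) : ℤ))} :=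
  class_win 5868 12 13 5 0 (by decide +kernel) wonD (by norm_num)

theorem k_5_1 : ∃ N, WinN N {(0, 0)} {(((5 : ℕ) : ℤ), ((1 : ℕ) : ℤ))} :=
  class_win 5600 12 13 5 1 (by decide +kernel) wonD (by norm_num)

theorem k_5_2 : ∃ N, WinN N {(0, 0)} {(((5 : ℕ) : ℤ), ((2 : ℕ) : ℤ))} :=
  class_win 5415 12 13 5 2 (by decide +kernel) wonD (by norm_num)

theorem k_5_3 : ∃ N, WinN N {(0, 0)} {(((5 : ℕ) : ℤ), ((3 : ℕ) : ℤ))} :=
  class_win 5200 12 13 5 3 (by decide +kernel) wonD (by norm_num)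

theorem k_5_4 : ∃ N, WinN N {(0, 0)} {(((5 : ℕ) : ℤ), ((4 : ℕ) : ℤ))} :=
  class_win 4999 12 13 5 4 (by decide +kernel) wonD (by norm_num)

theorem k_5_5 : ∃ N, WinN N {(0, 0)} {(((5 : ℕ) : ℤ), ((5 : ℕ) : ℤ))} :=
  class_win 4788 12 13 5 5 (by decide +kernel) wonD (by norm_num)

theorem k_6_0 : ∃ N, WinN N {(0, 0)} {(((6 : ℕ) : ℤ), ((0 : ℕ) : ℤ))} :=
  class_win 4669 12 13 6 0 (by decide +kernel) wonD (by norm_num)

theorem k_6_1 : ∃ N, WinN N {(0, 0)} {(((6 : ℕ) : ℤ), ((1 : ℕ) : ℤ))} :=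
  class_win 4522 12 13 6 1 (by decide +kernel) wonD (by norm_num)

theorem k_6_2 : ∃ N, WinN N {(0, 0)} {(((6 : ℕ) : ℤ), ((2 : ℕ) : ℤ))} :=
  class_win 4302 12 13 6 2 (by decide +kernel) wonD (by norm_num)

theorem k_6_3 : ∃ N, WinN N {(0, 0)} {(((6 : ℕ) : ℤ), ((3 : ℕ) : ℤ))} :=
  class_win 4142 12 13 6 3 (by decide +kernel) wonD (by norm_num)

theorem k_6_4 : ∃ N, WinN N {(0, 0)} {(((6 : ℕ) : ℤ), ((4 : ℕ) : ℤ))} :=
  class_win 4020 12 13 6 4 (by decide +kernel) wonD (by norm_num)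

theorem k_6_5 : ∃ N, WinN N {(0, 0)} {(((6 : ℕ) : ℤ), ((5 : ℕ) : ℤ))} :=
  class_win 3806 12 13 6 5 (by decide +kernel) wonD (by norm_num)

theorem k_6_6 : ∃ N, WinN N {(0, 0)} {(((6 : ℕ) : ℤ), ((6 : ℕ) : ℤ))} :=
  class_win 3705 12 13 6 6 (by decide +kernel) wonD (by norm_num)

theorem k_7_0 : ∃ N, WinN N {(0, 0)} {(((7 : ℕ) : ℤ), ((0 : ℕ) : ℤ))} :=
  class_win 3618 12 13 7 0 (by decide +kernel) wonD (by norm_num)

theorem k_7_1 : ∃ N, WinN N {(0, 0)} {(((7 : ℕ) : ℤ), ((1 : ℕ) : ℤ))} :=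
  class_win 3468 12 13 7 1 (by decide +kernel) wonD (by norm_num)

theorem k_7_2 : ∃ N, WinN N {(0, 0)} {(((7 : ℕ) : ℤ), ((2 : ℕ) : ℤ))} :=
  class_win 3335 12 13 7 2 (by decide +kernel) wonD (by norm_num)

theorem k_7_3 : ∃ N, WinN N {(0, 0)} {(((7 : ℕ) : ℤ), ((3 : ℕ) : ℤ))} :=
  class_win 3201 12 13 7 3 (by decide +kernel) wonD (by norm_num)

theorem k_7_4 : ∃ N, WinN N {(0, 0)} {(((7 : ℕ) : ℤ), ((4 : ℕ) : ℤ))} :=
  class_win 3076 12 13 7 4 (by decide +kernel) wonD (by norm_num)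

theorem k_7_5 : ∃ N, WinN N {(0, 0)} {(((7 : ℕ) : ℤ), ((5 : ℕ) : ℤ))} :=
  class_win 2920 12 13 7 5 (by decide +kernel) wonD (by norm_num)

theorem k_7_6 : ∃ N, WinN N {(0, 0)} {(((7 : ℕ) : ℤ), ((6 : ℕ) : ℤ))} :=
  class_win 2818 12 13 7 6 (by decide +kernel) wonD (by norm_num)

theorem k_7_7 : ∃ N, WinN N {(0, 0)} {(((7 : ℕ) : ℤ), ((7 : ℕ) : ℤ))} :=
  class_win 2728 12 13 7 7 (by decide +kernel) wonD (by norm_num)

theorem k_8_0 : ∃ N, WinN N {(0, 0)} {(((8 : ℕ) : ℤ), ((0 : ℕ) : ℤ))} :=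
  class_win 2675 12 13 8 0 (by decide +kernel) wonD (by norm_num)

theorem k_8_1 : ∃ N, WinN N {(0, 0)} {(((8 : ℕ) : ℤ), ((1 : ℕ) : ℤ))} :=
  class_win 2570 12 13 8 1 (by decide +kernel) wonD (by norm_num)

theorem k_8_2 : ∃ N, WinN N {(0, 0)} {(((8 : ℕ) : ℤ), ((2 : ℕ) : ℤ))} :=
  class_win 2468 12 13 8 2 (by decide +kernel) wonD (by norm_num)

theorem k_8_3 : ∃ N, WinN N {(0, 0)} {(((8 : ℕ) : ℤ), ((3 : ℕ) : ℤ))} :=
  class_win 2322 12 13 8 3 (by decide +kernel) wonD (by norm_num)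

theorem k_8_4 : ∃ N, WinN N {(0, 0)} {(((8 : ℕ) : ℤ), ((4 : ℕ) : ℤ))} :=
  class_win 2183 12 13 8 4 (by decide +kernel) wonD (by norm_num)

theorem k_8_5 : ∃ N, WinN N {(0, 0)} {(((8 : ℕ) : ℤ), ((5 : ℕ) : ℤ))} :=
  class_win 2087 12 13 8 5 (by decide +kernel) wonD (by norm_num)

theorem k_8_6 : ∃ N, WinN N {(0, 0)} {(((8 : ℕ) : ℤ), ((6 : ℕ) : ℤ))} :=
  class_win 1987 12 13 8 6 (by decide +kernel) wonD (by norm_num)

theorem k_8_7 : ∃ N, WinN N {(0, 0)} {(((8 : ℕ) : ℤ), ((7 : ℕ) : ℤ))} :=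
  class_win 1863 12 13 8 7 (by decide +kernel) wonD (by norm_num)

theorem k_8_8 : ∃ N, WinN N {(0, 0)} {(((8 : ℕ) : ℤ), ((8 : ℕ) : ℤ))} :=
  class_win 1770 12 13 8 8 (by decide +kernel) wonD (by norm_num)

theorem k_9_0 : ∃ N, WinN N {(0, 0)} {(((9 : ℕ) : ℤ), ((0 : ℕ) : ℤ))} :=
  class_win 1506 11 12 9 0 (by decide +kernel) wonE (by norm_num)

theorem k_9_1 : ∃ N, WinN N {(0, 0)} {(((9 : ℕ) : ℤ), ((1 : ℕ) : ℤ))} :=
  class_win 1692 12 13 9 1 (by decide +kernel) wonD (by norm_num)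

theorem k_9_2 : ∃ N, WinN N {(0, 0)} {(((9 : ℕ) : ℤ), ((2 : ℕ) : ℤ))} :=
  class_win 1515 12 13 9 2 (by decide +kernel) wonD (by norm_num)

theorem k_9_3 : ∃ N, WinN N {(0, 0)} {(((9 : ℕ) : ℤ), ((3 : ℕ) : ℤ))} :=
  class_win 1366 11 12 9 3 (by decide +kernel) wonE (by norm_num)

theorem k_9_4 : ∃ N, WinN N {(0, 0)} {(((9 : ℕ) : ℤ), ((4 : ℕ) : ℤ))} :=
  class_win 1266 11 12 9 4 (by decide +kernel) wonE (by norm_num)

theorem k_9_5 : ∃ N, WinN N {(0, 0)} {(((9 : ℕ) : ℤ), ((5 : ℕ) : ℤ))} :=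
  class_win 1174 11 12 9 5 (by decide +kernel) wonE (by norm_num)

theorem k_9_6 : ∃ N, WinN N {(0, 0)} {(((9 : ℕ) : ℤ), ((6 : ℕ) : ℤ))} :=
  class_win 1099 11 12 9 6 (by decide +kernel) wonE (by norm_num)

theorem k_9_7 : ∃ N, WinN N {(0, 0)} {(((9 : ℕ) : ℤ), ((7 : ℕ) : ℤ))} :=
  class_win 1001 11 12 9 7 (by decide +kernel) wonE (by norm_num)

theorem k_9_8 : ∃ N, WinN N {(0, 0)} {(((9 : ℕ) : ℤ), ((8 : ℕ) : ℤ))} :=
  class_win 1314 12 13 9 8 (by decide +kernel) wonD (by norm_num)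

theorem k_9_9 : ∃ N, WinN N {(0, 0)} {(((9 : ℕ) : ℤ), ((9 : ℕ) : ℤ))} :=
  class_win 807 11 12 9 9 (by decide +kernel) wonE (by norm_num)

theorem near (x y : ℕ) :
    ∃ N, x < 10 → 0 < x → y ≤ x → WinN N {(0, 0)} {((x : ℤ), (y : ℤ))} := by
  by_cases h : x < 10 ∧ 0 < x ∧ y ≤ x
  · obtain ⟨h1, h2, h3⟩ := h
    have key : ∃ N, WinN N {(0, 0)} {((x : ℤ), (y : ℤ))} := by
      interval_cases x
      · interval_cases y
        · exact k_1_0
        · exact k_1_1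
      · interval_cases y
        · exact k_2_0
        · exact k_2_1
        · exact k_2_2
      · interval_cases y
        · exact k_3_0
        · exact k_3_1
        · exact k_3_2
        · exact k_3_3
      · interval_cases y
        · exact k_4_0
        · exact k_4_1
        · exact k_4_2
        · exact k_4_3
        · exact k_4_4
      · interval_cases y
        · exact k_5_0
        · exact k_5_1
        · exact k_5_2
        · exact k_5_3
        · exact k_5_4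
        · exact k_5_5
      · interval_cases y
        · exact k_6_0
        · exact k_6_1
        · exact k_6_2
        · exact k_6_3
        · exact k_6_4
        · exact k_6_5
        · exact k_6_6
      · interval_cases y
        · exact k_7_0
        · exact k_7_1
        · exact k_7_2
        · exact k_7_3
        · exact k_7_4
        · exact k_7_5
        · exact k_7_6
        · exact k_7_7
      · interval_cases y
        · exact k_8_0
        · exact k_8_1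
        · exact k_8_2
        · exact k_8_3
        · exact k_8_4
        · exact k_8_5
        · exact k_8_6
        · exact k_8_7
        · exact k_8_8
      · interval_cases y
        · exact k_9_0
        · exact k_9_1
        · exact k_9_2
        · exact k_9_3
        · exact k_9_4
        · exact k_9_5
        · exact k_9_6
        · exact k_9_7
        · exact k_9_8
        · exact k_9_9
    exact key.imp fun N h _ _ _ => h
  · exact ⟨0, fun h1 h2 h3 => absurd ⟨h1, h2, h3⟩ h⟩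

/-- black, who moves first, wins in bounded time -/
theorem win_start : ∃ N, WinN N ∅ ∅ := by
  obtain ⟨n, hn⟩ := far_x
  choose f hf using near
  have hle : ∀ a b : ℕ, a < 10 → b < 10 →
      f a b ≤ ∑ i ∈ Finset.range 10, ∑ j ∈ Finset.range 10, f i j := by
    intro a b ha hb
    calc f a b ≤ ∑ j ∈ Finset.range 10, f a j :=
          Finset.single_le_sum (f := fun j => f a j) (fun _ _ => Nat.zero_le _) (Finset.mem_range.2 hb)
      _ ≤ _ := Finset.single_le_sum (f := fun i => ∑ j ∈ Finset.range 10, f i j)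
          (fun _ _ => Nat.zero_le _) (Finset.mem_range.2 ha)
  generalize ∑ i ∈ Finset.range 10, ∑ j ∈ Finset.range 10, f i j = m at hle
  refine ⟨(n + m) + 1, win_root ?_⟩
  intro x y h0 h1 h2
  rcases le_or_gt 10 x with hx | hx
  · exact (hn x y hx).mono (by omega)
  · obtain ⟨a, rfl⟩ := Int.eq_ofNat_of_zero_le h2.le
    obtain ⟨b, rfl⟩ := Int.eq_ofNat_of_zero_le h0
    have := hle a b (by omega) (by omega)
    exact (hf a b (by omega) (by omega) (by omega)).mono (by omega)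

end Pool.Agent.H61.Gom
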