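import Pool.Agent.H61.Gom.Win
import Pool.Agent.H61.Gom.Mach

/-!
The boards of the machine, with one hexadecimal digit for every cell, and its tables.
-/

set_option autoImplicit false
set_option linter.dupNamespace false

namespace Pool.Agent.H61.Gom

/-- every fourth bit of `J` from the bit `r` -/
def ext (J r : ℕ) : ℕ := Nat.ofBits fun i : Fin J => J.testBit (4 * i + r)

theorem ext_bit (J r i : ℕ) : (ext J r).testBit i = J.testBit (4 * i + r) := by
  unfold ext
  rw [Nat.testBit_ofBits]
  split_ifs with h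
  · rfl
  · symm
    apply Nat.testBit_lt_two_pow
    calc J < 2 ^ J := Nat.lt_two_pow_self
      _ ≤ 2 ^ (4 * i + r) := Nat.pow_le_pow_right (by norm_num) (by omega)

/-- the state is won with black to move -/
def WinJ (J P : ℕ) : Prop := WinOR (ext J 0) (ext J 1) P

def AndJ (J P L : ℕ) : Prop := WinAND (ext J 0) (ext J 1) P L

theorem tb2 (a i : ℕ) : (2 <<< a : ℕ).testBit i = decide (i = a + 1) := by
  have e : (2 <<< a : ℕ) = 2 ^ (a + 1) := by rw [Nat.shiftLeft_eq, pow_succ]; ring
  rw [e, Nat.testBit_two_pow]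
  exact decide_eq_decide.2 eq_comm

theorem tb3 (a i : ℕ) : (3 <<< a : ℕ).testBit i = (decide (i = a) || decide (i = a + 1)) := by
  rw [Nat.testBit_shiftLeft]
  rcases lt_trichotomy i a with h | h | h
  · rw [decide_eq_false (show ¬ a ≤ i by omega), decide_eq_false (show ¬ i = a by omega),
      decide_eq_false (show ¬ i = a + 1 by omega)]
    rfl
  · subst h
    rw [Nat.sub_self]
    simp
  · obtain ⟨k, rfl⟩ := Nat.exists_eq_add_of_lt h
    rw [decide_eq_true (show a ≤ a + k + 1 by omega), decide_eq_false (show ¬ a + k + 1 = a by omega),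
      show a + k + 1 - a = k + 1 by omega]
    rcases k with _ | k
    · have : (3 : ℕ).testBit (0 + 1) = true := rfl
      rw [this]; simp
    · rw [decide_eq_false (show ¬ a + (k + 1) + 1 = a + 1 by omega)]
      have : (3 : ℕ).testBit (k + 1 + 1) = false := by
        apply Nat.testBit_lt_two_pow
        calc 3 < 2 ^ 2 := by norm_num
          _ ≤ 2 ^ (k + 1 + 1) := Nat.pow_le_pow_right (by norm_num) (by omega)
      simpa using this

theorem testBit_dg (P n i : ℕ) (hi : i < 4) : (dg P n).testBit i = P.testBit (4 * n + i) := by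
  have e : dg P n = (P >>> (4 * n)) % 2 ^ 4 := by
    rw [dg, Nat.shiftRight_eq_div_pow, pow16]
    norm_num
  rw [e, Nat.testBit_mod_two_pow, Nat.testBit_shiftRight]
  simp [hi]

theorem dg_congr {P Q n : ℕ} (hn : n < 4096) (h : ∀ i, i < 16384 → P.testBit i = Q.testBit i) :
    dg P n = dg Q n := by
  apply Nat.eq_of_testBit_eq
  intro i
  rcases lt_or_ge i 4 with hi | hi
  · rw [testBit_dg _ _ _ hi, testBit_dg _ _ _ hi, h _ (by omega)]
  · have h16 : 16 ≤ 2 ^ i := by
      calc 16 = 2 ^ 4 := by norm_num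
        _ ≤ 2 ^ i := Nat.pow_le_pow_right (by norm_num) hi
    rw [Nat.testBit_lt_two_pow ((dg_lt P n).trans_le h16),
      Nat.testBit_lt_two_pow ((dg_lt Q n).trans_le h16)]

/-! ### clearing the windows through a cell -/

/-- the operation of the machine; `t` is four times the index of the cell -/
def kil (P t : ℕ) : ℕ := Nat.land P (Nat.shiftRight kN (Nat.sub 4096 t))

theorem kN_eq : kN = (2 ^ 20480 - 1) ^^^ (cKILL <<< 4096) := by decide +kernel

theorem kil_bit {P c i : ℕ} (hc : c < 1024) (hi : i < 16384) :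
    (kil P (4 * c)).testBit i = (clr P c).testBit i := by
  have e1 : kil P (4 * c) = P &&& (kN >>> (4096 - 4 * c)) := rfl
  have e2 : clr P c = P ^^^ (P &&& (cKILL <<< (4 * c))) := rfl
  rw [e1, e2, Nat.testBit_and, Nat.testBit_shiftRight, kN_eq, Nat.testBit_xor,
    Nat.testBit_two_pow_sub_one, Nat.testBit_shiftLeft, Nat.testBit_xor, Nat.testBit_and,
    Nat.testBit_shiftLeft, decide_eq_true (show 4096 - 4 * c + i < 20480 by omega)]
  by_cases h : 4 * c ≤ i
  · rw [decide_eq_true (show 4096 - 4 * c + i ≥ 4096 by omega), decide_eq_true (show i ≥ 4 * c from h),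
      show 4096 - 4 * c + i - 4096 = i - 4 * c by omega]
    cases P.testBit i <;> cases cKILL.testBit (i - 4 * c) <;> rfl
  · rw [decide_eq_false (show ¬ 4096 - 4 * c + i ≥ 4096 by omega),
      decide_eq_false (show ¬ i ≥ 4 * c from h)]
    cases P.testBit i <;> rfl

theorem dg_kil {P c n : ℕ} (hc : c < 1024) (hn : n < 4096) : dg (kil P (4 * c)) n = dg (clr P c) n :=
  dg_congr hn fun _ hi => kil_bit hc hi

theorem le_clr {k P c : ℕ} (h : Le k P) : Le k (clr P c) := fun n hn => (dg_clr_le P c n).trans (h n hn)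

theorem le_kil {k P c : ℕ} (hc : c < 1024) (h : Le k P) : Le k (kil P (4 * c)) := fun n hn => by
  rw [dg_kil hc hn]; exact le_clr h n hn

theorem le_clr_of_kil {k P c : ℕ} (hc : c < 1024) (h : Le k (kil P (4 * c))) : Le k (clr P c) :=
  fun n hn => by rw [← dg_kil hc hn]; exact h n hn

/-! ### groups of answers -/

/-- the cells `m` (bits `4 c + 1`) and the digits `W` to be added for a stone on one of them -/
structure Grp (m W : ℕ) : Prop where
  mod : ∀ i, m.testBit i = true → i % 4 = 1
  w1 : Le 1 W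
  hit : ∀ c, Inner c → m.testBit (4 * ci c + 1) = true → ∀ e d, d < 4 → InW e d c →
    1 ≤ dg W (pos e d)

theorem Grp.zero : Grp 0 0 := by
  refine ⟨?_, fun n _ => by rw [dg_zero]; omega, ?_⟩
  · intro i hi
    rw [Nat.zero_testBit] at hi
    exact Bool.noConfusion hi
  · intro c _ h
    rw [Nat.zero_testBit] at h
    exact Bool.noConfusion h

theorem Grp.one (a : ℕ) : Grp (2 <<< (4 * a)) (cPAT <<< (4 * a)) := by
  classical
  refine ⟨?_, fun n _ => dg_pat_le a n, ?_⟩
  · intro i hi
    rw [tb2, decide_eq_true_eq] at hi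
    omega
  · intro c hc h e d hd hw
    rw [tb2, decide_eq_true_eq] at h
    have : a = ci c := by omega
    subst this
    rw [dg_pat hd hc, if_pos hw]

theorem lor_le_one : ∀ a, a < 16 → ∀ b, b < 16 → (a ≤ 1 → b ≤ 1 → (a ||| b) ≤ 1) ∧
    (1 ≤ a → 1 ≤ (a ||| b)) ∧ (1 ≤ b → 1 ≤ (a ||| b)) := by decide

theorem Grp.lor {m W m' W' : ℕ} (h : Grp m W) (h' : Grp m' W') : Grp (m ||| m') (W ||| W') := by
  refine ⟨?_, ?_, ?_⟩
  · intro i hi
    rw [Nat.testBit_or, Bool.or_eq_true] at hi
    exact hi.elim (h.mod i) (h'.mod i)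
  · intro n hn
    rw [dg_lor]
    exact (lor_le_one _ (dg_lt _ _) _ (dg_lt _ _)).1 (h.w1 n hn) (h'.w1 n hn)
  · intro c hc hm e d hd hw
    rw [Nat.testBit_or, Bool.or_eq_true] at hm
    rw [dg_lor]
    rcases hm with hm | hm
    · exact (lor_le_one _ (dg_lt _ _) _ (dg_lt _ _)).2.1 (h.hit c hc hm e d hd hw)
    · exact (lor_le_one _ (dg_lt _ _) _ (dg_lt _ _)).2.2 (h'.hit c hc hm e d hd hw)

theorem le_add {k P W : ℕ} (hk : k < 15) (h : Le k P) (h' : Le 1 W) : Le (k + 1) (P + W) := by
  intro n hn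
  rw [dg_add]
  · have := h n hn
    have := h' n hn
    omega
  · intro m hm
    have := h m (by omega)
    have := h' m (by omega)
    omega

theorem one_le : Le 1 cONE := fun n hn => by rw [dg_cONE hn]

theorem Le.mono {k k' P : ℕ} (h : Le k P) (hk : k ≤ k') : Le k' P := fun n hn => (h n hn).trans hk

/-- no digit of `P` is 7 or 8 -/
theorem le6 {P : ℕ} (h8 : Le 8 P) (h : Le 7 (P + cONE)) : Le 6 P := by
  intro n hn
  have := h n hn
  rw [dg_add, dg_cONE hn] at this
  · omega
  · intro m hm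
    have := h8 m (by omega)
    rw [dg_cONE (by omega)]
    omega

/-! ### rules for the boards of the machine -/

theorem winJ_M {J P c : ℕ} (hc : c < 1024) (h1 : J.testBit (4 * c + 1) = true)
    (h : AndJ (J ^^^ 3 <<< (4 * c)) (kil P (4 * c)) 0) : WinJ J P := by
  refine win_M (c := c) (by rw [ext_bit]; exact h1) (h.mono ?_ ?_ ?_ (fun i hi => hi))
  · intro i hi
    rw [ext_bit, Nat.testBit_xor, tb3] at hi
    rw [Nat.testBit_or, ext_bit, testBit_one_shl]
    by_cases e : c = i
    · simp [e]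
    · rw [decide_eq_false (show ¬ 4 * i + 0 = 4 * c by omega),
        decide_eq_false (show ¬ 4 * i + 0 = 4 * c + 1 by omega)] at hi
      simpa [e] using hi
  · intro i hi
    rw [ext_bit, Nat.testBit_xor, tb3] at hi
    rw [Nat.testBit_xor, ext_bit, testBit_one_shl]
    by_cases e : c = i
    · subst e
      rw [h1] at hi
      simp at hi
    · rw [decide_eq_false (show ¬ 4 * i + 1 = 4 * c by omega),
        decide_eq_false (show ¬ 4 * i + 1 = 4 * c + 1 by omega)] at hi
      simpa [e] using hi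
  · intro n hn
    rw [dg_kil hc hn]

theorem ext_one (a : ℕ) : ext (2 <<< (4 * a)) 1 = 1 <<< a := by
  apply Nat.eq_of_testBit_eq
  intro i
  rw [ext_bit, tb2, testBit_one_shl]
  exact decide_eq_decide.2 (by omega)

theorem ext_or (m m' r : ℕ) : ext (m ||| m') r = ext m r ||| ext m' r := by
  apply Nat.eq_of_testBit_eq
  intro i
  rw [ext_bit, Nat.testBit_or, Nat.testBit_or, ext_bit, ext_bit]

theorem and_grp {J P L m W : ℕ} (h7 : Le 7 P) (hg : Grp m W)
    (hsub : ∀ i, m.testBit i = true → J.testBit i = true) (k1 : WinJ (J ^^^ m) (P + W))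
    (k2 : AndJ J P (L ||| ext m 1)) : AndJ J P L := by
  refine and_G (Alg := ext (J ^^^ m) 1) h7 hg.w1 ?_ ?_ ?_ ?_
  · intro i hi
    rw [ext_bit, Nat.testBit_xor] at hi
    rw [ext_bit]
    by_contra hc
    have hm : m.testBit (4 * i + 1) = false := by
      by_contra hm
      exact hc (hsub _ (by simpa using hm))
    rw [hm, Bool.xor_false] at hi
    exact hc hi
  · intro c hc h1 h2 e d hd hw
    rw [ext_bit] at h1
    rw [ext_bit, Nat.testBit_xor, h1] at h2
    exact hg.hit c hc (by simpa using h2) e d hd hw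
  · refine WinOR.mono k1 ?_ (fun i hi => hi) (fun n _ => le_rfl)
    intro i hi
    rw [ext_bit, Nat.testBit_xor] at hi
    have hm : m.testBit (4 * i + 0) = false := by
      by_contra hm
      have := hg.mod _ (by simpa using hm)
      omega
    rw [hm, Bool.xor_false] at hi
    rw [ext_bit]; exact hi
  · refine WinAND.mono k2 (fun i hi => hi) (fun i hi => hi) (fun n _ => le_rfl) ?_
    intro i hi
    rw [Nat.testBit_or, ext_bit, Bool.or_eq_true] at hi
    rw [Nat.testBit_or, Nat.testBit_xor, ext_bit, ext_bit, Nat.testBit_xor, Bool.or_eq_true]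
    refine hi.imp_right fun hi => ?_
    rw [hi, hsub _ hi]; rfl

/-! ### straight fours -/

def cMV : ℕ := 0xffffffffffffffffffffffffffffffffffffffffffffffffffffffffffffffffffffffffffffffffffffffffffffffffffffffffffffffffffffffffffffffffffffffffffffffffffffffffffffffffffffffff

/-- the pattern of a straight four -/
def vq (q : ℕ) : ℕ := Nat.land (Nat.shiftRight kE (1024 * q)) cMV

theorem vq1 : ∀ q, q < 16 → ∀ i, i < 5 → 1 ≤ i → i ≠ q % 4 + 1 →
    (vq q).testBit (4 * (i * sv (q / 4))) = true := by decide +kernel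

theorem vq2 : ∀ q, q < 16 → (vq q).testBit 1 = true ∧
    (vq q).testBit (4 * ((q % 4 + 1) * sv (q / 4)) + 1) = true ∧
    (vq q).testBit (4 * (5 * sv (q / 4)) + 1) = true := by decide +kernel

theorem vq3 : ∀ q, q < 16 → vq q &&& k2 = (2 ||| (2 <<< (4 * ((q % 4 + 1) * sv (q / 4))) |||
    2 <<< (4 * (5 * sv (q / 4))))) := by decide +kernel

theorem vq4 : ∀ q, q < 16 → Nat.land (Nat.shiftRight (Nat.shiftRight kE (1024 * q)) 672) 4095 =
    4 * ((q % 4 + 1) * sv (q / 4)) := by decide +kernel

theorem vq5 : ∀ q, q < 16 → Nat.land (Nat.shiftRight (Nat.shiftRight kE (1024 * q)) 684) 4095 =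
    4 * (5 * sv (q / 4)) := by decide +kernel

theorem shl_bit {x i : ℕ} (s : ℕ) (h : x.testBit i = true) : (x <<< s).testBit (s + i) = true := by
  rw [Nat.testBit_shiftLeft, decide_eq_true (show s + i ≥ s by omega), Nat.add_sub_cancel_left, h]
  rfl

theorem S_of {J s q : ℕ} (hq : q < 16)
    (h : ∀ i, (vq q <<< (4 * s)).testBit i = true → J.testBit i = true) :
    (∀ i, 1 ≤ i → i ≤ 4 → i ≠ q % 4 + 1 → J.testBit (4 * (s + i * sv (q / 4))) = true) ∧
    J.testBit (4 * s + 1) = true ∧ J.testBit (4 * (s + (q % 4 + 1) * sv (q / 4)) + 1) = true ∧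
    J.testBit (4 * (s + 5 * sv (q / 4)) + 1) = true := by
  obtain ⟨v1, v2, v3⟩ := vq2 q hq
  refine ⟨fun i h1 h4 hi => ?_, h _ (shl_bit _ v1), ?_, ?_⟩
  · have := h _ (shl_bit (4 * s) (vq1 q hq i (by omega) h1 hi))
    rwa [← Nat.mul_add] at this
  · have := h _ (shl_bit (4 * s) v2)
    rwa [← Nat.add_assoc, ← Nat.mul_add] at this
  · have := h _ (shl_bit (4 * s) v3)
    rwa [← Nat.add_assoc, ← Nat.mul_add] at this

theorem winJ_S {J P s q : ℕ} (hq : q < 16)
    (h : ∀ i, (vq q <<< (4 * s)).testBit i = true → J.testBit i = true) (h7 : Le 7 P) :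
    WinJ J P := by
  obtain ⟨a1, a2, a3, a4⟩ := S_of hq h
  refine win_S (s := s) (d := q / 4) (j := q % 4 + 1) (by omega) (by omega) (by omega) ?_ ?_ ?_ ?_
    (le_clr h7)
  · intro i i1 i4 hi
    rw [ext_bit]; exact a1 i i1 i4 hi
  · rw [ext_bit]; exact a2
  · rw [ext_bit]; exact a3
  · rw [ext_bit]; exact a4

/-- the three cells of a straight four -/
def L3 (s q : ℕ) : ℕ := 1 <<< s ||| (1 <<< (s + (q % 4 + 1) * sv (q / 4)) ||| 1 <<< (s + 5 * sv (q / 4)))

theorem and_thr {J P s q : ℕ} (hq : q < 16)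
    (h : ∀ i, (vq q <<< (4 * s)).testBit i = true → J.testBit i = true) (h7 : Le 7 P)
    (h7' : Le 7 (P + cONE)) : AndJ J P (L3 s q) := by
  obtain ⟨a1, a2, a3, a4⟩ := S_of hq h
  refine and_D h7 (win_S (s := s) (d := q / 4) (j := q % 4 + 1) (by omega) (by omega) (by omega)
    ?_ ?_ ?_ ?_ (le_clr h7'))
  · intro i i1 i4 hi
    rw [ext_bit]; exact a1 i i1 i4 hi
  · rw [Nat.testBit_and, ext_bit, a2, L3, Nat.testBit_or, testBit_one_shl]; simp
  · rw [Nat.testBit_and, ext_bit, a3, L3, Nat.testBit_or, Nat.testBit_or, testBit_one_shl,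
      testBit_one_shl, testBit_one_shl]
    simp
  · rw [Nat.testBit_and, ext_bit, a4, L3, Nat.testBit_or, Nat.testBit_or, testBit_one_shl,
      testBit_one_shl, testBit_one_shl]
    simp

noncomputable def tabK2 : Bool := allB (fun n => Nat.beq (rd k2 n) 2) 1024

set_option maxRecDepth 100000 in
theorem tabK2_eq : tabK2 = true := by decide +kernel

theorem k2_lt : k2 < 2 ^ 4096 := by decide +kernel

theorem k2_bit (i : ℕ) : k2.testBit i = (decide (i < 4096) && decide (i % 4 = 1)) := by
  rcases lt_or_ge i 4096 with h | h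
  · have := Nat.eq_of_beq_eq_true (allB_iff tabK2_eq (i / 4) (by omega))
    rw [rd_eq] at this
    have e : i = 4 * (i / 4) + i % 4 := by omega
    rw [decide_eq_true h, Bool.true_and]
    conv_lhs => rw [e]
    rw [← testBit_dg _ _ _ (Nat.mod_lt _ (by norm_num)), this]
    have : i % 4 < 4 := Nat.mod_lt _ (by norm_num)
    generalize i % 4 = r at *
    interval_cases r <;> rfl
  · rw [Nat.testBit_lt_two_pow (k2_lt.trans_le (Nat.pow_le_pow_right (by norm_num) h)),
      decide_eq_false (by omega)]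
    rfl

theorem v_lt {q : ℕ} (hq : q < 16) : sv (q / 4) ≤ 33 := by
  have : q / 4 < 4 := by omega
  rcases dir_cases this with h | h | h | h <;> rw [h] <;> norm_num [sv]

/-- the available cells of a straight four -/
theorem v_k2 {s q : ℕ} (hq : q < 16) (hs : s + 5 * sv (q / 4) < 1024) :
    (vq q <<< (4 * s)) &&& k2 = (2 <<< (4 * s) ||| (2 <<< (4 * (s + (q % 4 + 1) * sv (q / 4))) |||
      2 <<< (4 * (s + 5 * sv (q / 4))))) := by
  have hv := v_lt hq
  have hj : (q % 4 + 1) * sv (q / 4) ≤ 4 * sv (q / 4) := Nat.mul_le_mul_right _ (by omega)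
  apply Nat.eq_of_testBit_eq
  intro i
  have h3 := vq3 q hq
  rw [Nat.testBit_and, Nat.testBit_shiftLeft, k2_bit, Nat.testBit_or, Nat.testBit_or, tb2, tb2, tb2]
  by_cases h : 4 * s ≤ i
  · obtain ⟨k, rfl⟩ := Nat.exists_eq_add_of_le h
    have h3' := congrArg (fun x => x.testBit k) h3
    have e2 : (2 : ℕ) = 2 <<< 0 := rfl
    simp only [Nat.testBit_and, Nat.testBit_or, k2_bit] at h3'
    rw [tb2, tb2, e2, tb2] at h3'
    rw [decide_eq_true (show 4 * s + k ≥ 4 * s by omega), Nat.add_sub_cancel_left, Bool.true_and]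
    by_cases hk : 4 * s + k < 4096
    · rw [show decide (4 * s + k < 4096) = decide (k < 4096) from
        decide_eq_decide.2 (by omega), show (4 * s + k) % 4 = k % 4 by omega, h3']
      congr 1
      · exact decide_eq_decide.2 (by omega)
      · congr 1
        · exact decide_eq_decide.2 (by rw [Nat.mul_add]; omega)
        · exact decide_eq_decide.2 (by rw [Nat.mul_add]; omega)
    · rw [decide_eq_false hk, Bool.false_and, Bool.and_false, decide_eq_false, decide_eq_false,
        decide_eq_false]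
      · rfl
      · omega
      · omega
      · omega
  · rw [decide_eq_false (show ¬ i ≥ 4 * s from h), Bool.false_and, Bool.false_and,
      decide_eq_false, decide_eq_false, decide_eq_false]
    · rfl
    · omega
    · rw [Nat.mul_add]; omega
    · omega

/-! ### fives -/

def cMF : ℕ := 0xffffffffffffffffffffffffffffffffffffffffffffffffffffffffffffffffffffffffffffffffffffffffffffffffffffffffffffffffffffffffffffffffffffffff

def fq (d : ℕ) : ℕ := Nat.land (Nat.shiftRight kF (1024 * d)) cMF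

theorem fq1 : ∀ d, d < 4 → ∀ j, j < 5 → (fq d).testBit (4 * (j * sv d)) = true := by decide +kernel

theorem five_of {X s d B : ℕ} (hd : d < 4)
    (h : ∀ i, (fq d <<< (4 * s)).testBit i = true → X.testBit i = true)
    (hB : ∀ i, X.testBit (4 * i) = true → B.testBit i = true) : FiveB B d s := by
  intro j hj
  have := h _ (shl_bit (4 * s) (fq1 d hd j hj))
  rw [← Nat.mul_add] at this
  exact hB _ this

end Pool.Agent.H61.Gom
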