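import Pool.Agent.H61.Gom.Game
import Pool.Agent.H61.Gom.Digits

/-!
The relation between the abstract states of the machine and the real positions of the game.
-/

set_option autoImplicit false
set_option linter.dupNamespace false

namespace Pool.Agent.H61.Gom

/-- the board of the machine -/
def InB (c : Cell) : Prop := 0 ≤ c.1 ∧ c.1 ≤ 31 ∧ 0 ≤ c.2 ∧ c.2 ≤ 31

/-- the cells all whose windows are on the board -/
def Inner (c : Cell) : Prop := 4 ≤ c.1 ∧ c.1 ≤ 27 ∧ 4 ≤ c.2 ∧ c.2 ≤ 27

instance (c : Cell) : Decidable (InB c) := by unfold InB; infer_instance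
instance (c : Cell) : Decidable (Inner c) := by unfold Inner; infer_instance

/-- index of a cell -/
def ci (c : Cell) : ℕ := (c.2 * 32 + c.1).toNat

def dv : ℕ → Cell
  | 0 => (1, 0)
  | 1 => (0, 1)
  | 2 => (1, 1)
  | _ => (-1, 1)

/-- the `j`-th cell, from its end, of the window of direction `d` that ends in `e` -/
def wc (e : Cell) (d j : ℕ) : Cell := (e.1 - j * (dv d).1, e.2 - j * (dv d).2)

def InW (e : Cell) (d : ℕ) (c : Cell) : Prop := ∃ j, j < 5 ∧ wc e d j = c

/-- the position of the digit of a window -/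
def pos (e : Cell) (d : ℕ) : ℕ := if InB e ∧ InB (wc e d 4) then d * 1024 + ci e else 0

theorem Inner.inB {c : Cell} (h : Inner c) : InB c := by
  unfold Inner at h; unfold InB; omega

theorem ci_inj {c c' : Cell} (h : InB c) (h' : InB c') (e : ci c = ci c') : c = c' := by
  unfold InB at h h'
  unfold ci at e
  ext <;> omega

theorem ci_lt {c : Cell} (h : InB c) : ci c < 1024 := by
  unfold InB at h; unfold ci; omega

theorem pos_lt (e : Cell) {d : ℕ} (hd : d < 4) : pos e d < 4096 := by
  unfold pos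
  split_ifs with h
  · have := ci_lt h.1
    omega
  · norm_num

theorem dir_cases {d : ℕ} (hd : d < 4) : d = 0 ∨ d = 1 ∨ d = 2 ∨ d = 3 := by omega

theorem inB_of_inW {e c : Cell} {d : ℕ} (hd : d < 4) (hc : Inner c) (h : InW e d c) :
    InB e ∧ InB (wc e d 4) := by
  obtain ⟨j, hj, rfl⟩ := h
  unfold Inner at hc
  unfold InB
  rcases dir_cases hd with rfl | rfl | rfl | rfl <;> simp only [wc, dv] at * <;> push_cast <;> omega

theorem wc_inj {e : Cell} {d i j : ℕ} (h : wc e d i = wc e d j) : i = j := by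
  unfold wc at h
  rw [Prod.mk.injEq] at h
  rcases d with _ | _ | _ | d <;> simp only [dv] at h <;> omega

/-- the windows through an inner cell, in terms of indices -/
theorem hit_iff {e c : Cell} {d : ℕ} (hd : d < 4) (hc : Inner c) (hw : InB e ∧ InB (wc e d 4)) :
    (ci c ≤ d * 1024 + ci e ∧ hitPos (d * 1024 + ci e - ci c) = true) ↔ InW e d c := by
  rw [hitPos_iff]
  constructor
  · rintro ⟨hle, d', hd', j, hj, h⟩
    refine ⟨j, hj, ?_⟩
    unfold Inner at hc
    unfold InB ci at *
    unfold wc at *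
    rcases dir_cases hd with rfl | rfl | rfl | rfl <;>
      rcases dir_cases hd' with rfl | rfl | rfl | rfl <;>
      simp only [dv, sv] at * <;> (rw [Prod.ext_iff]; simp only []; omega)
  · rintro ⟨j, hj, h⟩
    subst h
    unfold Inner at hc
    unfold InB ci at *
    unfold wc at *
    refine ⟨?_, d, hd, j, hj, ?_⟩ <;>
      rcases dir_cases hd with rfl | rfl | rfl | rfl <;> simp only [dv, sv] at * <;> omega

theorem ci_pos {c : Cell} (hc : Inner c) : 0 < ci c := by
  unfold Inner at hc; unfold ci; omega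

open Classical in
theorem dg_pat {e c : Cell} {d : ℕ} (hd : d < 4) (hc : Inner c) :
    dg (cPAT <<< (4 * ci c)) (pos e d) = if InW e d c then 1 else 0 := by
  rw [dg_shift, dg_cPAT]
  unfold pos
  by_cases hw : InB e ∧ InB (wc e d 4)
  · rw [if_pos hw]
    have := hit_iff hd hc hw
    by_cases h : InW e d c
    · rw [if_pos h]
      have h' := this.2 h
      rw [if_pos h'.1, if_pos h'.2]
    · rw [if_neg h]
      by_cases h1 : ci c ≤ d * 1024 + ci e
      · rw [if_pos h1, if_neg]
        exact fun h2 => h (this.1 ⟨h1, h2⟩)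
      · rw [if_neg h1]
  · rw [if_neg hw]
    have h0 := ci_pos hc
    rw [if_neg (by omega)]
    rw [if_neg]
    exact fun h => hw (inB_of_inW hd hc h)

open Classical in
theorem dg_kill {e c : Cell} {d : ℕ} (hd : d < 4) (hc : Inner c) :
    dg (cKILL <<< (4 * ci c)) (pos e d) = if InW e d c then 15 else 0 := by
  rw [dg_shift, dg_cKILL]
  unfold pos
  by_cases hw : InB e ∧ InB (wc e d 4)
  · rw [if_pos hw]
    have := hit_iff hd hc hw
    by_cases h : InW e d c
    · rw [if_pos h]
      have h' := this.2 h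
      rw [if_pos h'.1, if_pos h'.2]
    · rw [if_neg h]
      by_cases h1 : ci c ≤ d * 1024 + ci e
      · rw [if_pos h1, if_neg]
        exact fun h2 => h (this.1 ⟨h1, h2⟩)
      · rw [if_neg h1]
  · rw [if_neg hw]
    have h0 := ci_pos hc
    rw [if_neg (by omega)]
    rw [if_neg]
    exact fun h => hw (inB_of_inW hd hc h)

theorem dg_pat_le (k n : ℕ) : dg (cPAT <<< (4 * k)) n ≤ 1 := by
  rw [dg_shift]
  split_ifs
  · rw [dg_cPAT]; split_ifs <;> omega
  · omega

theorem xor_land : ∀ a, a < 16 → (a ^^^ (a &&& 0) = a) ∧ (a ^^^ (a &&& 15) = 0) := by decide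

theorem dg_kill_cases (k n : ℕ) : dg (cKILL <<< (4 * k)) n = 0 ∨ dg (cKILL <<< (4 * k)) n = 15 := by
  rw [dg_shift]
  split_ifs
  · rw [dg_cKILL]; split_ifs <;> omega
  · omega

theorem dg_clr_le (P k n : ℕ) : dg (clr P k) n ≤ dg P n := by
  have : clr P k = P ^^^ (P &&& (cKILL <<< (4 * k))) := rfl
  rw [this, dg_xor, dg_land]
  have hx := xor_land _ (dg_lt P n)
  rcases dg_kill_cases k n with h | h <;> rw [h]
  · rw [hx.1]
  · rw [hx.2]; omega

theorem dg_clr_of_not {P : ℕ} {e c : Cell} {d : ℕ} (hd : d < 4) (hc : Inner c) (h : ¬ InW e d c) :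
    dg (clr P (ci c)) (pos e d) = dg P (pos e d) := by
  classical
  have : clr P (ci c) = P ^^^ (P &&& (cKILL <<< (4 * ci c))) := rfl
  rw [this, dg_xor, dg_land, dg_kill hd hc, if_neg h]
  exact (xor_land _ (dg_lt P _)).1

/-! ### windows -/

theorem five_iff (S : Finset Cell) :
    Five S ↔ ∃ e : Cell, ∃ d : ℕ, d < 4 ∧ ∀ j : ℕ, j < 5 → wc e d j ∈ S := by
  constructor
  · rintro ⟨a, d, hd, h⟩
    simp only [Dirs, Finset.mem_insert, Finset.mem_singleton] at hd
    rcases hd with rfl | rfl | rfl | rfl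
    · refine ⟨(a.1 + 4, a.2), 0, by norm_num, fun j hj => ?_⟩
      have := h (4 - j) (by omega)
      have e : ((4 - j : ℕ) : ℤ) = 4 - j := by omega
      convert this using 1
      ext <;> simp [wc, dv, e]; ring
    · refine ⟨(a.1, a.2 + 4), 1, by norm_num, fun j hj => ?_⟩
      have := h (4 - j) (by omega)
      have e : ((4 - j : ℕ) : ℤ) = 4 - j := by omega
      convert this using 1
      ext <;> simp [wc, dv, e]; ring
    · refine ⟨(a.1 + 4, a.2 + 4), 2, by norm_num, fun j hj => ?_⟩
      have := h (4 - j) (by omega)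
      have e : ((4 - j : ℕ) : ℤ) = 4 - j := by omega
      convert this using 1
      ext <;> simp [wc, dv, e] <;> ring
    · refine ⟨a, 3, by norm_num, fun j hj => ?_⟩
      have := h j hj
      convert this using 1
      ext <;> simp [wc, dv]; ring
  · rintro ⟨e, d, hd, h⟩
    rcases dir_cases hd with rfl | rfl | rfl | rfl
    · refine ⟨(e.1 - 4, e.2), (1, 0), by simp [Dirs], fun j hj => ?_⟩
      have := h (4 - j) (by omega)
      have e' : ((4 - j : ℕ) : ℤ) = 4 - j := by omega
      convert this using 1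
      ext <;> simp [wc, dv, e']; ring
    · refine ⟨(e.1, e.2 - 4), (0, 1), by simp [Dirs], fun j hj => ?_⟩
      have := h (4 - j) (by omega)
      have e' : ((4 - j : ℕ) : ℤ) = 4 - j := by omega
      convert this using 1
      ext <;> simp [wc, dv, e']; ring
    · refine ⟨(e.1 - 4, e.2 - 4), (1, 1), by simp [Dirs], fun j hj => ?_⟩
      have := h (4 - j) (by omega)
      have e' : ((4 - j : ℕ) : ℤ) = 4 - j := by omega
      convert this using 1
      ext <;> simp [wc, dv, e'] <;> ring
    · refine ⟨e, (1, -1), by simp [Dirs], fun j hj => ?_⟩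
      have := h j hj
      convert this using 1
      ext <;> simp [wc, dv]; ring

/-- the number of cells of `S` in a window -/
def cnt (S : Finset Cell) (e : Cell) (d : ℕ) : ℕ :=
  ((Finset.range 5).filter fun j => wc e d j ∈ S).card

theorem cnt_le_five (S : Finset Cell) (e : Cell) (d : ℕ) : cnt S e d ≤ 5 := by
  unfold cnt
  exact (Finset.card_filter_le _ _).trans (by simp)

theorem cnt_mono {S T : Finset Cell} (e : Cell) (d : ℕ) (h : ∀ j, j < 5 → wc e d j ∈ S → wc e d j ∈ T) :
    cnt S e d ≤ cnt T e d := by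
  unfold cnt
  apply Finset.card_le_card
  intro j hj
  simp only [Finset.mem_filter, Finset.mem_range] at hj ⊢
  exact ⟨hj.1, h j hj.1 hj.2⟩

theorem cnt_insert_le (S : Finset Cell) (y e : Cell) (d : ℕ) :
    cnt (insert y S) e d ≤ cnt S e d + 1 := by
  unfold cnt
  by_cases h : ∃ j, j < 5 ∧ wc e d j = y
  · obtain ⟨i, hi, rfl⟩ := h
    calc _ ≤ (insert i ((Finset.range 5).filter fun j => wc e d j ∈ S)).card := by
          apply Finset.card_le_card
          intro j hj
          simp only [Finset.mem_filter, Finset.mem_range, Finset.mem_insert] at hj ⊢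
          rcases hj.2 with h | h
          · left; exact wc_inj h
          · right; exact ⟨hj.1, h⟩
      _ ≤ _ := Finset.card_insert_le _ _
  · push Not at h
    refine (Finset.card_le_card ?_).trans (Nat.le_succ _)
    intro j hj
    simp only [Finset.mem_filter, Finset.mem_range, Finset.mem_insert] at hj ⊢
    exact ⟨hj.1, hj.2.resolve_left (h j hj.1)⟩

theorem cnt_insert_of_not {S : Finset Cell} {y e : Cell} {d : ℕ} (h : ¬ InW e d y) :
    cnt (insert y S) e d = cnt S e d := by
  apply le_antisymm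
  · apply cnt_mono
    intro j hj h'
    rw [Finset.mem_insert] at h'
    rcases h' with h' | h'
    · exact absurd ⟨j, hj, h'⟩ h
    · exact h'
  · apply cnt_mono
    intro j _ h'
    exact Finset.mem_insert_of_mem h'

open Classical in
theorem cnt_insert_le' (S : Finset Cell) (y e : Cell) (d : ℕ) :
    cnt (insert y S) e d ≤ cnt S e d + if InW e d y then 1 else 0 := by
  split_ifs with h
  · exact cnt_insert_le S y e d
  · rw [cnt_insert_of_not h]; simp

theorem cnt_five {S : Finset Cell} {e : Cell} {d : ℕ} (h : ∀ j, j < 5 → wc e d j ∈ S) :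
    cnt S e d = 5 := by
  unfold cnt
  rw [Finset.filter_true_of_mem, Finset.card_range]
  intro j hj
  exact h j (Finset.mem_range.1 hj)

/-! ### the relation -/

/-- the cells of the reserved pairs -/
def pcl (E : List (Cell × Cell)) : List Cell := E.flatMap fun q => [q.1, q.2]

theorem mem_pcl {E : List (Cell × Cell)} {c : Cell} :
    c ∈ pcl E ↔ ∃ q ∈ E, c = q.1 ∨ c = q.2 := by
  simp [pcl, List.mem_flatMap]

/-- the position `(Bc, Wc)` of the game, with the reserved pairs `E` (black answers a white stone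
on one cell of a pair by the other one), is described by the state `(B, Al, P)`. The cells of `Al`
may hold black stones, which do no harm. -/
structure Rel (E : List (Cell × Cell)) (B Al P : ℕ) (Bc Wc : Finset Cell) : Prop where
  disj : ∀ c, c ∈ Bc → c ∉ Wc
  nd : (pcl E).Nodup
  free : ∀ c, c ∈ pcl E → c ∉ Bc ∧ c ∉ Wc
  blk : ∀ i, B.testBit i = true → ∃ c, Inner c ∧ ci c = i ∧ c ∈ Bc
  al : ∀ i, Al.testBit i = true → ∃ c, Inner c ∧ ci c = i ∧ c ∉ Wc ∧ c ∉ pcl E
  win : ∀ e d, d < 4 → (∃ j, j < 5 ∧ wc e d j ∈ Bc) ∨ (∃ q ∈ E, InW e d q.1 ∧ InW e d q.2) ∨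
    cnt (Wc ∪ (pcl E).toFinset) e d + 4 ≤ dg P (pos e d)

theorem pair_ne {E : List (Cell × Cell)} (h : (pcl E).Nodup) {q : Cell × Cell} (hq : q ∈ E) :
    q.1 ≠ q.2 := by
  obtain ⟨s, t, rfl⟩ := List.append_of_mem hq
  simp only [pcl, List.flatMap_append, List.flatMap_cons, List.nodup_append, List.nodup_cons] at h
  have := h.2.1.1.1
  simpa using this

variable {E : List (Cell × Cell)} {B Al P : ℕ} {Bc Wc : Finset Cell}

theorem Rel.mem_al (h : Rel E B Al P Bc Wc) {c : Cell} (hc : Inner c) (ha : Al.testBit (ci c) = true) :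
    c ∉ Wc ∧ c ∉ pcl E := by
  obtain ⟨c', h1, h2, h3⟩ := h.al _ ha
  rwa [← ci_inj h1.inB hc.inB h2]

theorem Rel.noFive (h : Rel E B Al P Bc Wc) (hP : Le 8 P) : ¬ Five Wc := by
  rw [five_iff]
  rintro ⟨e, d, hd, hj⟩
  rcases h.win e d hd with ⟨j, hj5, hb⟩ | ⟨q, hq, ⟨j, hj5, h1⟩, _⟩ | hc
  · exact h.disj _ hb (hj j hj5)
  · have := (h.free q.1 (mem_pcl.2 ⟨q, hq, Or.inl rfl⟩)).2
    rw [← h1] at this
    exact this (hj j hj5)
  · have h5 : cnt (Wc ∪ (pcl E).toFinset) e d = 5 :=
      cnt_five fun j hj5 => Finset.mem_union_left _ (hj j hj5)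
    have := hP _ (pos_lt e hd)
    omega

theorem Rel.noFive' (h : Rel E B Al P Bc Wc) (hP : Le 7 P) {y : Cell} (hy : y ∉ Bc) :
    ¬ Five (insert y Wc) := by
  rw [five_iff]
  rintro ⟨e, d, hd, hj⟩
  rcases h.win e d hd with ⟨j, hj5, hb⟩ | ⟨q, hq, ⟨j, hj5, h1⟩, ⟨j', hj5', h2⟩⟩ | hc
  · have := hj j hj5
    rw [Finset.mem_insert] at this
    rcases this with h' | h'
    · rw [h'] at hb; exact hy hb
    · exact h.disj _ hb h'
  · have f1 := (h.free q.1 (mem_pcl.2 ⟨q, hq, Or.inl rfl⟩)).2
    have f2 := (h.free q.2 (mem_pcl.2 ⟨q, hq, Or.inr rfl⟩)).2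
    have g1 := hj j hj5
    have g2 := hj j' hj5'
    rw [h1, Finset.mem_insert] at g1
    rw [h2, Finset.mem_insert] at g2
    exact pair_ne h.nd hq ((g1.resolve_right f1).trans (g2.resolve_right f2).symm)
  · have h5 : cnt (insert y (Wc ∪ (pcl E).toFinset)) e d = 5 := by
      apply cnt_five
      intro j hj5
      have := hj j hj5
      rw [Finset.mem_insert] at this ⊢
      exact this.imp_right (Finset.mem_union_left _)
    have h6 := cnt_insert_le (Wc ∪ (pcl E).toFinset) y e d
    have := hP _ (pos_lt e hd)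
    omega

theorem testBit_one_shl (i j : ℕ) : (1 <<< i : ℕ).testBit j = decide (i = j) := by
  rw [Nat.shiftLeft_eq, Nat.one_mul, Nat.testBit_two_pow]

/-- black can play so as to own a given available cell -/
theorem Rel.move (h : Rel E B Al P Bc Wc) {c : Cell} (hc : Inner c)
    (ha : Al.testBit (ci c) = true) :
    ∃ x, x ∉ Bc ∧ x ∉ Wc ∧ x ∉ pcl E ∧ c ∈ insert x Bc := by
  obtain ⟨c2, c3⟩ := h.mem_al hc ha
  by_cases hb : c ∈ Bc
  · have hf := fallback_notMem (Bc ∪ Wc ∪ (pcl E).toFinset)
    simp only [Finset.mem_union, List.mem_toFinset, not_or] at hf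
    exact ⟨_, hf.1.1, hf.1.2, hf.2, Finset.mem_insert_of_mem hb⟩
  · exact ⟨c, hb, c2, c3, Finset.mem_insert_self _ _⟩

/-- a black stone -/
theorem Rel.black (h : Rel E B Al P Bc Wc) {c x : Cell} (hc : Inner c)
    (ha : Al.testBit (ci c) = true) (hx2 : x ∉ Wc) (hx3 : x ∉ pcl E) (hcx : c ∈ insert x Bc) :
    Rel E (B ||| 1 <<< ci c) (Al ^^^ 1 <<< ci c) (clr P (ci c)) (insert x Bc) Wc := by
  refine ⟨?_, h.nd, ?_, ?_, ?_, ?_⟩
  · intro z hz
    rw [Finset.mem_insert] at hz
    rcases hz with rfl | hz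
    · exact hx2
    · exact h.disj z hz
  · intro z hz
    refine ⟨?_, (h.free z hz).2⟩
    rw [Finset.mem_insert, not_or]
    exact ⟨fun e => hx3 (e ▸ hz), (h.free z hz).1⟩
  · intro i hi
    rw [Nat.testBit_or, testBit_one_shl, Bool.or_eq_true, decide_eq_true_eq] at hi
    rcases hi with hi | hi
    · obtain ⟨z, x1, x2, x3⟩ := h.blk i hi
      exact ⟨z, x1, x2, Finset.mem_insert_of_mem x3⟩
    · exact ⟨c, hc, hi, hcx⟩
  · intro i hi
    rw [Nat.testBit_xor, testBit_one_shl] at hi
    by_cases e : ci c = i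
    · subst e; rw [ha] at hi; simp at hi
    · have hi' : Al.testBit i = true := by simpa [e] using hi
      exact h.al i hi'
  · intro e d hd
    by_cases hw : InW e d c
    · obtain ⟨j, hj, e1⟩ := hw
      left; exact ⟨j, hj, by rw [e1]; exact hcx⟩
    · rcases h.win e d hd with ⟨j, hj5, hb⟩ | hq | hq
      · left; exact ⟨j, hj5, Finset.mem_insert_of_mem hb⟩
      · right; left; exact hq
      · right; right; rwa [dg_clr_of_not hd hc hw]

/-- a white stone, general form -/
theorem Rel.white (h : Rel E B Al P Bc Wc) {y : Cell} (hy1 : y ∉ Bc) (hy2 : y ∉ pcl E) {Al' P' : ℕ}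
    (hal : ∀ i, Al'.testBit i = true → Al.testBit i = true)
    (hal' : Inner y → Al'.testBit (ci y) = false)
    (hP : ∀ e d, d < 4 → dg P (pos e d) + (cnt (insert y Wc ∪ (pcl E).toFinset) e d -
      cnt (Wc ∪ (pcl E).toFinset) e d) ≤ dg P' (pos e d)) :
    Rel E B Al' P' Bc (insert y Wc) := by
  refine ⟨?_, h.nd, ?_, h.blk, ?_, ?_⟩
  · intro x hx
    rw [Finset.mem_insert, not_or]
    exact ⟨fun e => hy1 (e ▸ hx), h.disj x hx⟩
  · intro x hx
    refine ⟨(h.free x hx).1, ?_⟩
    rw [Finset.mem_insert, not_or]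
    exact ⟨fun e => hy2 (e ▸ hx), (h.free x hx).2⟩
  · intro i hi
    obtain ⟨x, x1, x2, x4, x5⟩ := h.al i (hal i hi)
    refine ⟨x, x1, x2, ?_, x5⟩
    rw [Finset.mem_insert, not_or]
    refine ⟨?_, x4⟩
    rintro rfl
    rw [← x2, hal' x1] at hi
    exact Bool.noConfusion hi
  · intro e d hd
    rcases h.win e d hd with hq | hq | hq
    · left; exact hq
    · right; left; exact hq
    · right; right
      have := hP e d hd
      omega

theorem cnt_union_insert_le (y e : Cell) (d : ℕ) (S T : Finset Cell) :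
    cnt (insert y S ∪ T) e d ≤ cnt (S ∪ T) e d + 1 := by
  rw [Finset.insert_union]
  exact cnt_insert_le _ _ _ _

open Classical in
theorem cnt_union_insert_le' (y e : Cell) (d : ℕ) (S T : Finset Cell) :
    cnt (insert y S ∪ T) e d ≤ cnt (S ∪ T) e d + if InW e d y then 1 else 0 := by
  rw [Finset.insert_union]
  exact cnt_insert_le' _ _ _ _

/-- a white stone on a given available cell -/
theorem Rel.reply (h : Rel E B Al P Bc Wc) (hP : Le 7 P) {c : Cell} (hc : Inner c) (c1 : c ∉ Bc)
    (ha : Al.testBit (ci c) = true) :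
    Rel E B (Al ^^^ 1 <<< ci c) (P + cPAT <<< (4 * ci c)) Bc (insert c Wc) := by
  classical
  obtain ⟨c2, c3⟩ := h.mem_al hc ha
  refine h.white c1 c3 ?_ ?_ ?_
  · intro i hi
    rw [Nat.testBit_xor, testBit_one_shl] at hi
    by_cases e : ci c = i
    · subst e; exact ha
    · simpa [e] using hi
  · intro _
    rw [Nat.testBit_xor, testBit_one_shl, ha]
    simp
  · intro e d hd
    have h1 := cnt_union_insert_le' c e d Wc (pcl E).toFinset
    rw [dg_add, dg_pat hd hc]
    · omega
    · intro m hm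
      have := hP m (hm.trans_lt (pos_lt e hd))
      have := dg_pat_le (ci c) m
      omega

/-- a white stone anywhere except on given cells -/
theorem Rel.default (h : Rel E B Al P Bc Wc) (hP : Le 7 P) {y : Cell} (hy1 : y ∉ Bc)
    (hy2 : y ∉ pcl E) {L : ℕ} (hL : Inner y → L.testBit (ci y) = false) :
    Rel E B (Al &&& L) (P + cONE) Bc (insert y Wc) := by
  refine h.white hy1 hy2 ?_ ?_ ?_
  · intro i hi
    rw [Nat.testBit_and, Bool.and_eq_true] at hi
    exact hi.1
  · intro hy
    rw [Nat.testBit_and, hL hy, Bool.and_false]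
  · intro e d hd
    have h1 := cnt_union_insert_le y e d Wc (pcl E).toFinset
    rw [dg_add, dg_cONE (pos_lt e hd)]
    · omega
    · intro m hm
      have hm' := hm.trans_lt (pos_lt e hd)
      have := hP m hm'
      have := dg_cONE hm'
      omega

/-- a white stone on one of the cells of a group -/
theorem Rel.group (h : Rel E B Al P Bc Wc) (hP : Le 7 P) {y : Cell} (hy : Inner y) (c1 : y ∉ Bc)
    (ha : Al.testBit (ci y) = true) {Alg WM : ℕ} (hW : Le 1 WM)
    (hsub : ∀ i, Alg.testBit i = true → Al.testBit i = true) (hn : Alg.testBit (ci y) = false)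
    (hh : ∀ e d, d < 4 → InW e d y → 1 ≤ dg WM (pos e d)) :
    Rel E B Alg (P + WM) Bc (insert y Wc) := by
  classical
  obtain ⟨c2, c3⟩ := h.mem_al hy ha
  refine h.white c1 c3 hsub (fun _ => hn) ?_
  intro e d hd
  have h1 := cnt_union_insert_le' y e d Wc (pcl E).toFinset
  have h2 := hh e d hd
  rw [dg_add]
  · split_ifs at h1 with hw
    · have := h2 hw
      omega
    · omega
  · intro m hm
    have hm' := hm.trans_lt (pos_lt e hd)
    have := hP m hm'
    have := hW m hm'
    omega

/-- weakening -/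
theorem Rel.mono (h : Rel E B Al P Bc Wc) {B' Al' P' : ℕ}
    (hB : ∀ i, B'.testBit i = true → B.testBit i = true)
    (hA : ∀ i, Al'.testBit i = true → Al.testBit i = true)
    (hP : ∀ n, n < 4096 → dg P n ≤ dg P' n) : Rel E B' Al' P' Bc Wc := by
  refine ⟨h.disj, h.nd, h.free, fun i hi => h.blk i (hB i hi), fun i hi => h.al i (hA i hi), ?_⟩
  intro e d hd
  rcases h.win e d hd with hq | hq | hq
  · left; exact hq
  · right; left; exact hq
  · right; right
    exact hq.trans (hP _ (pos_lt e hd))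

/-- the answer inside a pair -/
theorem Rel.answer {s t : List (Cell × Cell)} {p q : Cell}
    (h : Rel (s ++ (p, q) :: t) B Al P Bc Wc) :
    Rel (s ++ t) B Al P (insert q Bc) (insert p Wc) ∧
    Rel (s ++ t) B Al P (insert p Bc) (insert q Wc) := by
  have hmem : ∀ c, c ∈ pcl (s ++ (p, q) :: t) ↔ c = p ∨ c = q ∨ c ∈ pcl (s ++ t) := by
    intro c
    simp only [pcl, List.flatMap_append, List.flatMap_cons, List.mem_append, List.mem_cons]
    simp only [List.not_mem_nil, or_false]
    tauto
  have hnd := h.nd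
  have hperm : (pcl (s ++ (p, q) :: t)).Perm (p :: q :: pcl (s ++ t)) := by
    simp only [pcl, List.flatMap_append, List.flatMap_cons]
    have := (List.perm_append_comm (l₁ := List.flatMap (fun q : Cell × Cell => [q.1, q.2]) s) (l₂ := [p, q])).append_right
      (List.flatMap (fun q : Cell × Cell => [q.1, q.2]) t)
    simpa using this
  rw [hperm.nodup_iff, List.nodup_cons, List.nodup_cons] at hnd
  obtain ⟨n1, n2, n3⟩ := hnd
  rw [List.mem_cons, not_or] at n1
  have fp := h.free p ((hmem p).2 (Or.inl rfl))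
  have fq := h.free q ((hmem q).2 (Or.inr (Or.inl rfl)))
  have key : ∀ a b : Cell, (a = p ∧ b = q) ∨ (a = q ∧ b = p) →
      Rel (s ++ t) B Al P (insert b Bc) (insert a Wc) := by
    intro a b hab
    have hab' : a ≠ b := by
      rcases hab with ⟨rfl, rfl⟩ | ⟨rfl, rfl⟩
      · exact n1.1
      · exact fun e => n1.1 e.symm
    have ha : a ∉ Bc ∧ a ∉ Wc := by rcases hab with ⟨rfl, rfl⟩ | ⟨rfl, rfl⟩ <;> assumption
    have hb : b ∉ Bc ∧ b ∉ Wc := by rcases hab with ⟨rfl, rfl⟩ | ⟨rfl, rfl⟩ <;> assumption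
    have ha' : a ∉ pcl (s ++ t) := by
      rcases hab with ⟨rfl, rfl⟩ | ⟨rfl, rfl⟩
      · exact n1.2
      · exact n2
    have hb' : b ∉ pcl (s ++ t) := by
      rcases hab with ⟨rfl, rfl⟩ | ⟨rfl, rfl⟩
      · exact n2
      · exact n1.2
    have ham : a ∈ pcl (s ++ (p, q) :: t) := by
      rw [hmem]; rcases hab with ⟨rfl, rfl⟩ | ⟨rfl, rfl⟩ <;> simp
    have hbm : b ∈ pcl (s ++ (p, q) :: t) := by
      rw [hmem]; rcases hab with ⟨rfl, rfl⟩ | ⟨rfl, rfl⟩ <;> simp
    refine ⟨?_, n3, ?_, ?_, ?_, ?_⟩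
    · intro x hx
      rw [Finset.mem_insert] at hx
      rw [Finset.mem_insert, not_or]
      rcases hx with rfl | hx
      · exact ⟨fun e => hab' e.symm, hb.2⟩
      · exact ⟨fun e => ha.1 (e ▸ hx), h.disj x hx⟩
    · intro x hx
      have hx' := h.free x ((hmem x).2 (Or.inr (Or.inr hx)))
      rw [Finset.mem_insert, not_or, Finset.mem_insert, not_or]
      exact ⟨⟨fun e => hb' (e ▸ hx), hx'.1⟩, ⟨fun e => ha' (e ▸ hx), hx'.2⟩⟩
    · intro i hi
      obtain ⟨x, x1, x2, x3⟩ := h.blk i hi
      exact ⟨x, x1, x2, Finset.mem_insert_of_mem x3⟩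
    · intro i hi
      obtain ⟨x, x1, x2, x4, x5⟩ := h.al i hi
      refine ⟨x, x1, x2, ?_, ?_⟩
      · rw [Finset.mem_insert, not_or]
        exact ⟨fun e => x5 (e ▸ ham), x4⟩
      · exact fun hx => x5 ((hmem x).2 (Or.inr (Or.inr hx)))
    · intro e d hd
      by_cases hbw : InW e d b
      · obtain ⟨j, hj, e1⟩ := hbw
        left; exact ⟨j, hj, by rw [e1]; exact Finset.mem_insert_self _ _⟩
      rcases h.win e d hd with ⟨j, hj5, hbb⟩ | ⟨r, hr, h1, h2⟩ | hq
      · left; exact ⟨j, hj5, Finset.mem_insert_of_mem hbb⟩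
      · right; left
        rw [List.mem_append, List.mem_cons] at hr
        rcases hr with hr | rfl | hr
        · exact ⟨r, List.mem_append_left _ hr, h1, h2⟩
        · exfalso
          rcases hab with ⟨rfl, rfl⟩ | ⟨rfl, rfl⟩
          · exact hbw h2
          · exact hbw h1
        · exact ⟨r, List.mem_append_right _ hr, h1, h2⟩
      · right; right
        refine le_trans (Nat.add_le_add_right (cnt_mono e d ?_) 4) hq
        intro j _ hj
        simp only [Finset.mem_union, Finset.mem_insert, List.mem_toFinset, hmem] at hj ⊢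
        rcases hj with (rfl | hj) | hj
        · right
          rcases hab with ⟨rfl, rfl⟩ | ⟨rfl, rfl⟩
          · left; rfl
          · right; left; rfl
        · left; exact hj
        · right; right; right; exact hj
  exact ⟨key p q (Or.inl ⟨rfl, rfl⟩), key q p (Or.inr ⟨rfl, rfl⟩)⟩

/-- reserve a new pair of available cells -/
theorem Rel.pair (h : Rel E B Al P Bc Wc) {p q : Cell} (hp : Inner p) (hq : Inner q) (hne : p ≠ q)
    (hap : Al.testBit (ci p) = true) (haq : Al.testBit (ci q) = true) {Al' P' : ℕ}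
    (hA : ∀ i, Al'.testBit i = true → Al.testBit i = true)
    (hA1 : Al'.testBit (ci p) = false) (hA2 : Al'.testBit (ci q) = false)
    (hP : ∀ e d, d < 4 → ¬ (InW e d p ∧ InW e d q) →
      dg P (pos e d) + (cnt (insert p (insert q (Wc ∪ (pcl E).toFinset))) e d -
        cnt (Wc ∪ (pcl E).toFinset) e d) ≤ dg P' (pos e d)) :
    ∃ E', E'.length ≤ E.length + 1 ∧ Rel E' B Al' P' Bc Wc := by
  obtain ⟨p2, p3⟩ := h.mem_al hp hap
  obtain ⟨q2, q3⟩ := h.mem_al hq haq
  by_cases hbb : p ∈ Bc ∨ q ∈ Bc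
  · refine ⟨E, by omega, h.disj, h.nd, h.free, h.blk, fun i hi => h.al i (hA i hi), ?_⟩
    intro e d hd
    rcases h.win e d hd with hx | hx | hx
    · left; exact hx
    · right; left; exact hx
    · by_cases hb : InW e d p ∧ InW e d q
      · left
        obtain ⟨⟨j, hj, e1⟩, ⟨k, hk, e2⟩⟩ := hb
        rcases hbb with h1 | h1
        · exact ⟨j, hj, by rw [e1]; exact h1⟩
        · exact ⟨k, hk, by rw [e2]; exact h1⟩
      · right; right
        have := hP e d hd hb
        omega
  push Not at hbb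
  obtain ⟨p1, q1⟩ := hbb
  have hcons : pcl ((p, q) :: E) = p :: q :: pcl E := by simp [pcl]
  refine ⟨(p, q) :: E, by simp, h.disj, ?_, ?_, h.blk, ?_, ?_⟩
  · rw [hcons, List.nodup_cons, List.nodup_cons, List.mem_cons, not_or]
    exact ⟨⟨hne, p3⟩, q3, h.nd⟩
  · intro c hc
    rw [hcons, List.mem_cons, List.mem_cons] at hc
    rcases hc with rfl | rfl | hc
    · exact ⟨p1, p2⟩
    · exact ⟨q1, q2⟩
    · exact h.free c hc
  · intro i hi
    obtain ⟨x, x1, x2, x4, x5⟩ := h.al i (hA i hi)
    refine ⟨x, x1, x2, x4, ?_⟩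
    rw [hcons, List.mem_cons, List.mem_cons, not_or, not_or]
    refine ⟨?_, ?_, x5⟩
    · rintro rfl; rw [x2] at hA1; rw [hA1] at hi; exact Bool.noConfusion hi
    · rintro rfl; rw [x2] at hA2; rw [hA2] at hi; exact Bool.noConfusion hi
  · intro e d hd
    rcases h.win e d hd with hx | ⟨r, hr, h1⟩ | hx
    · left; exact hx
    · right; left; exact ⟨r, List.mem_cons_of_mem _ hr, h1⟩
    · by_cases hb : InW e d p ∧ InW e d q
      · right; left
        exact ⟨(p, q), List.mem_cons_self, hb⟩
      · right; right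
        have := hP e d hd hb
        have e1 : Wc ∪ (pcl ((p, q) :: E)).toFinset = insert p (insert q (Wc ∪ (pcl E).toFinset)) := by
          rw [hcons]
          ext x
          simp only [Finset.mem_union, List.toFinset_cons, Finset.mem_insert]
          tauto
        rw [e1]
        have := cnt_mono (S := Wc ∪ (pcl E).toFinset) (T := insert p (insert q (Wc ∪ (pcl E).toFinset))) e d
          (fun j _ hj => Finset.mem_insert_of_mem (Finset.mem_insert_of_mem hj))
        omega

/-- a digit may be lowered to the number of unavailable cells of the window -/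
theorem Rel.cap (h : Rel E B Al P Bc Wc) {P' k : ℕ} (n : ℕ)
    (hn : ∀ e d, d < 4 → pos e d = n →
      ((Finset.range 5).filter fun j => ¬ (Inner (wc e d j) ∧ Al.testBit (ci (wc e d j)) = true)).card ≤ k)
    (hP : ∀ m, m < 4096 → m ≠ n → dg P m ≤ dg P' m) (hP' : min (dg P n) (k + 4) ≤ dg P' n) :
    Rel E B Al P' Bc Wc := by
  refine ⟨h.disj, h.nd, h.free, h.blk, h.al, ?_⟩
  intro e d hd
  rcases h.win e d hd with hx | hx | hx
  · left; exact hx
  · right; left; exact hx
  · right; right
    by_cases he : pos e d = n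
    · have h1 : cnt (Wc ∪ (pcl E).toFinset) e d ≤ k := by
        refine le_trans ?_ (hn e d hd he)
        unfold cnt
        apply Finset.card_le_card
        intro j hj
        simp only [Finset.mem_filter, Finset.mem_range] at hj ⊢
        refine ⟨hj.1, ?_⟩
        rintro ⟨h2, h3⟩
        obtain ⟨x4, x5⟩ := h.mem_al h2 h3
        have := hj.2
        rw [Finset.mem_union, List.mem_toFinset] at this
        exact this.elim x4 x5
      rw [he] at hx ⊢
      omega
    · exact hx.trans (hP _ (pos_lt e hd) he)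

end Pool.Agent.H61.Gom
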