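import Pool.Agent.H61.Gom.Pack

/-!
Soundness of the checking machine.
-/

set_option autoImplicit false
set_option linter.dupNamespace false

namespace Pool.Agent.H61.Gom

/-! ### fields of the instructions -/

theorem fld4 (x : ℕ) : ∃ s, s < 1024 ∧ Nat.land x 4092 = 4 * s := by
  refine ⟨(x >>> 2) &&& 1023, Nat.lt_of_le_of_lt Nat.and_le_right (by norm_num), ?_⟩
  have e : 4 * ((x >>> 2) &&& 1023) = ((x >>> 2) &&& 1023) <<< 2 := by
    rw [Nat.shiftLeft_eq]; ring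
  rw [e]
  show x &&& 4092 = _
  have e2 : (4092 : ℕ) = 1023 <<< 2 := rfl
  rw [e2]
  apply Nat.eq_of_testBit_eq
  intro i
  rw [Nat.testBit_and, Nat.testBit_shiftLeft, Nat.testBit_shiftLeft, Nat.testBit_and,
    Nat.testBit_shiftRight]
  by_cases h : i ≥ 2
  · rw [show 2 + (i - 2) = i by omega]
    cases x.testBit i <;> simp
  · simp [h]

theorem fldq (x : ℕ) : ∃ q, q < 16 ∧ Nat.land x 15360 = 1024 * q := by
  refine ⟨(x >>> 10) &&& 15, Nat.lt_of_le_of_lt Nat.and_le_right (by norm_num), ?_⟩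
  have e : 1024 * ((x >>> 10) &&& 15) = ((x >>> 10) &&& 15) <<< 10 := by
    rw [Nat.shiftLeft_eq]; ring
  rw [e]
  show x &&& 15360 = _
  have e2 : (15360 : ℕ) = 15 <<< 10 := rfl
  rw [e2]
  apply Nat.eq_of_testBit_eq
  intro i
  rw [Nat.testBit_and, Nat.testBit_shiftLeft, Nat.testBit_shiftLeft, Nat.testBit_and,
    Nat.testBit_shiftRight]
  by_cases h : i ≥ 10
  · rw [show 10 + (i - 10) = i by omega]
    cases x.testBit i <;> simp
  · simp [h]

theorem fldd (x : ℕ) : ∃ d, d < 4 ∧ Nat.land x 3072 = 1024 * d := by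
  refine ⟨(x >>> 10) &&& 3, Nat.lt_of_le_of_lt Nat.and_le_right (by norm_num), ?_⟩
  have e : 1024 * ((x >>> 10) &&& 3) = ((x >>> 10) &&& 3) <<< 10 := by
    rw [Nat.shiftLeft_eq]; ring
  rw [e]
  show x &&& 3072 = _
  have e2 : (3072 : ℕ) = 3 <<< 10 := rfl
  rw [e2]
  apply Nat.eq_of_testBit_eq
  intro i
  rw [Nat.testBit_and, Nat.testBit_shiftLeft, Nat.testBit_shiftLeft, Nat.testBit_and,
    Nat.testBit_shiftRight]
  by_cases h : i ≥ 10
  · rw [show 10 + (i - 10) = i by omega]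
    cases x.testBit i <;> simp
  · simp [h]

/-! ### the table -/

/-- the state number `i` -/
noncomputable def look (t : Tr) : ℕ → ℕ × ℕ :=
  @Tr.rec (fun _ => ℕ → ℕ × ℕ) (fun J P _ => (J, P))
    (fun _ _ _ _ ia ib ic id i =>
      (@Nat.rec (fun _ => ℕ → ℕ × ℕ) ia (fun n1 _ => @Nat.rec (fun _ => ℕ → ℕ × ℕ) ib
        (fun n2 _ => @Nat.rec (fun _ => ℕ → ℕ × ℕ) ic (fun _ _ => id) n2) n1) (Nat.land i 3))
        (Nat.shiftRight i 2)) t

theorem get_eq (t : Tr) (kont : ℕ → ℕ → Bool) : ∀ i, get t i kont = kont (look t i).1 (look t i).2 := by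
  induction t with
  | lf J P => intro i; rfl
  | nd a b c d ha hb hc hd =>
    intro i
    show (@Nat.rec (fun _ => ℕ → (ℕ → ℕ → Bool) → Bool) (get a) (fun n1 _ =>
      @Nat.rec (fun _ => ℕ → (ℕ → ℕ → Bool) → Bool) (get b) (fun n2 _ =>
      @Nat.rec (fun _ => ℕ → (ℕ → ℕ → Bool) → Bool) (get c) (fun _ _ => get d) n2) n1)
      (Nat.land i 3)) (Nat.shiftRight i 2) kont = kont
      ((@Nat.rec (fun _ => ℕ → ℕ × ℕ) (look a) (fun n1 _ => @Nat.rec (fun _ => ℕ → ℕ × ℕ) (look b)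
        (fun n2 _ => @Nat.rec (fun _ => ℕ → ℕ × ℕ) (look c) (fun _ _ => look d) n2) n1)
        (Nat.land i 3)) (Nat.shiftRight i 2)).1
      ((@Nat.rec (fun _ => ℕ → ℕ × ℕ) (look a) (fun n1 _ => @Nat.rec (fun _ => ℕ → ℕ × ℕ) (look b)
        (fun n2 _ => @Nat.rec (fun _ => ℕ → ℕ × ℕ) (look c) (fun _ _ => look d) n2) n1)
        (Nat.land i 3)) (Nat.shiftRight i 2)).2
    generalize Nat.land i 3 = m
    rcases m with _ | _ | _ | m
    · exact ha _
    · exact hb _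
    · exact hc _
    · exact hd _

/-- the state number `k` is won -/
def Wk (tbl : Tr) (k : ℕ) : Prop := WinJ (look tbl k).1 (look tbl k).2

def Rest (tbl : Tr) (b k : ℕ) : Prop := Wk tbl k → ∀ j, k < j → j < b → Wk tbl j

def StkOk : Stk → Prop
  | Stk.nil => True
  | Stk.cons _ P tl => Le 8 P ∧ StkOk tl

def Won : Stk → Prop
  | Stk.nil => True
  | Stk.cons J P tl => WinJ J P ∧ Won tl

/-- what is known of the rest of the run -/
def OkK (tbl : Tr) (b : ℕ) (ih : K3) : Prop :=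
  ∀ k cur J P stk, ih k cur J P stk = true → (∀ i, i < k → Wk tbl i) → Le 8 P → StkOk stk →
    WinJ J P ∧ Won stk ∧ Rest tbl b k

def OkT (f : T3) : Prop := ∀ tbl b ih, OkK tbl b ih → OkK tbl b (f tbl b ih)

theorem brec' (c r : Bool) : @Bool.rec (fun _ => Bool) Bool.false r c = (c && r) := by
  cases c <;> rfl

theorem and_of {c r : Bool} (h : @Bool.rec (fun _ => Bool) Bool.false r c = true) :
    c = true ∧ r = true := by
  cases c
  · exact Bool.noConfusion (show (false : Bool) = true from h)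
  · exact ⟨rfl, h⟩

theorem eq_of {a b : ℕ} (h : Nat.beq a b = true) : a = b := Nat.eq_of_beq_eq_true h

theorem le8_bits : ∀ a : ℕ, a < 16 → (a.testBit 3 = true → a.testBit 2 = false ∧
    a.testBit 1 = false ∧ a.testBit 0 = false) → a ≤ 8 := by decide

theorem le8_of_beq {P : ℕ} (h : Nat.land (Nat.land P cEIGHT)
    (Nat.lor (Nat.shiftLeft P 1) (Nat.lor (Nat.shiftLeft P 2) (Nat.shiftLeft P 3))) = 0) :
    Le 8 P := by
  intro n hn
  apply le8_bits _ (dg_lt P n)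
  intro h3
  rw [testBit_dg _ _ _ (by norm_num)] at h3
  have h' : (P &&& cEIGHT) &&& ((P <<< 1) ||| ((P <<< 2) ||| (P <<< 3))) = 0 := h
  have hb : ((P &&& cEIGHT) &&& ((P <<< 1) ||| ((P <<< 2) ||| (P <<< 3)))).testBit (4 * n + 3) =
      false := by rw [h', Nat.zero_testBit]
  have hE : cEIGHT.testBit (4 * n + 3) = true := by
    rw [← testBit_dg _ _ _ (by norm_num), dg_cEIGHT hn]; rfl
  rw [Nat.testBit_and, Nat.testBit_and, Nat.testBit_or, Nat.testBit_or, Nat.testBit_shiftLeft,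
    Nat.testBit_shiftLeft, Nat.testBit_shiftLeft, h3, hE] at hb
  have e1 : 4 * n + 3 - 1 = 4 * n + 2 := by omega
  have e2 : 4 * n + 3 - 2 = 4 * n + 1 := by omega
  have e3 : 4 * n + 3 - 3 = 4 * n + 0 := by omega
  rw [e1, e2, e3, ← testBit_dg _ _ 2 (by norm_num), ← testBit_dg _ _ 1 (by norm_num),
    ← testBit_dg _ _ 0 (by norm_num)] at hb
  simpa using hb

theorem load_ok {tbl : Tr} {b : ℕ} {ih : K3} (hi : OkK tbl b ih) {k cur : ℕ}
    (h : load tbl ih k cur = true) (hk : ∀ i, i < k → Wk tbl i) : Wk tbl k ∧ Rest tbl b k := by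
  unfold load at h
  rw [get_eq, brec', Bool.and_eq_true, beq_iff] at h
  obtain ⟨h1, h2⟩ := h
  obtain ⟨g1, -, g3⟩ := hi _ _ _ _ _ h2 hk (le8_of_beq h1) trivial
  exact ⟨g1, g3⟩

theorem pop_ok {tbl : Tr} {b : ℕ} {ih : K3} (hi : OkK tbl b ih) {k cur : ℕ} {stk : Stk}
    (h : pop3 tbl b ih k cur stk = true) (hk : ∀ i, i < k → Wk tbl i) (hs : StkOk stk) :
    Won stk ∧ Rest tbl b k := by
  cases stk with
  | nil =>
    refine ⟨trivial, ?_⟩
    have h' : @Bool.rec (fun _ => Bool) (load tbl ih (k + 1) cur) Bool.true (Nat.beq (k + 1) b) =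
      true := h
    intro hw j hj hjb
    cases hb : Nat.beq (k + 1) b with
    | true =>
      rw [beq_iff] at hb
      omega
    | false =>
      rw [hb] at h'
      obtain ⟨g1, g2⟩ := load_ok hi h' (fun i hi' => by
        rcases Nat.lt_succ_iff_lt_or_eq.1 hi' with h | h
        · exact hk i h
        · rw [h]; exact hw)
      rcases Nat.lt_or_ge (k + 1) j with h1 | h1
      · exact g2 g1 j h1 hjb
      · have : j = k + 1 := by omega
        rw [this]; exact g1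
  | cons J P tl =>
    have h' : ih k cur J P tl = true := h
    obtain ⟨g1, g2, g3⟩ := hi _ _ _ _ _ h' hk hs.1 hs.2
    exact ⟨⟨g1, g2⟩, g3⟩


/-! ### moves with a threat -/

theorem thr_vac {J P c s q : ℕ} (hq : q < 16) (hc : c < 1024)
    (hV : ∀ i, (vq q <<< (4 * s)).testBit i = true → (J ^^^ 3 <<< (4 * c)).testBit i = true)
    (hv : ¬ s + 5 * sv (q / 4) < 1024) : WinJ J P := by
  obtain ⟨-, -, -, h⟩ := S_of hq hV
  rw [Nat.testBit_xor, tb3, decide_eq_false (show ¬ 4 * (s + 5 * sv (q / 4)) + 1 = 4 * c by omega),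
    decide_eq_false (show ¬ 4 * (s + 5 * sv (q / 4)) + 1 = 4 * c + 1 by omega)] at h
  refine WinOR.vac (i := s + 5 * sv (q / 4)) ?_ (by omega)
  rw [ext_bit]
  simpa using h

theorem ext_L3 (s q : ℕ) : ext (2 <<< (4 * s) ||| (2 <<< (4 * (s + (q % 4 + 1) * sv (q / 4))) |||
      2 <<< (4 * (s + 5 * sv (q / 4))))) 1 = L3 s q := by
  rw [ext_or, ext_or, ext_one, ext_one, ext_one]; rfl

theorem grp3 (a b c : ℕ) : Grp (2 <<< (4 * a) ||| (2 <<< (4 * b) ||| 2 <<< (4 * c)))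
    (cPAT <<< (4 * a) ||| (cPAT <<< (4 * b) ||| cPAT <<< (4 * c))) :=
  (Grp.one a).lor ((Grp.one b).lor (Grp.one c))

/-- the data of a move with a threat -/
structure Thr (J P c s q : ℕ) : Prop where
  hc : c < 1024
  hq : q < 16
  hJ : J.testBit (4 * c + 1) = true
  hV : ∀ i, (vq q <<< (4 * s)).testBit i = true → (J ^^^ 3 <<< (4 * c)).testBit i = true
  h6 : Le 6 (kil P (4 * c))
  h7 : Le 7 (kil P (4 * c) + cONE)

/-- the tests of the machine -/
structure Tst (J P1 J1 V t0 : ℕ) : Prop where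
  h1 : Nat.land J (Nat.shiftLeft 2 t0) = Nat.shiftLeft 2 t0
  h2 : Nat.land J1 V = V
  h3 : Nat.land (Nat.add P1 cONE) cEIGHT = 0

theorem Tst.thr {J P c s q : ℕ} (h : Tst J (kil P (4 * c)) (Nat.xor J (Nat.shiftLeft 3 (4 * c)))
    (Nat.shiftLeft (vq q) (4 * s)) (4 * c)) (h8 : Le 8 P) (hc : c < 1024) (hq : q < 16) :
    Thr J P c s q := by
  have h7 : Le 7 (kil P (4 * c) + cONE) := le7_of_land h.h3
  refine ⟨hc, hq, sub_of_land' h.h1 _ ?_, fun i hi => sub_of_land' h.h2 i hi,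
    le6 (le_kil hc h8) h7, h7⟩
  show (2 <<< (4 * c)).testBit _ = true
  rw [tb2]; simp

theorem Thr.and {J P c s q : ℕ} (h : Thr J P c s q) :
    AndJ (J ^^^ 3 <<< (4 * c)) (kil P (4 * c)) (L3 s q) :=
  and_thr h.hq h.hV (h.h6.mono (by norm_num)) h.h7

theorem Thr.le {J P c s q W : ℕ} (h : Thr J P c s q) (hW : Le 1 W) :
    Le 8 (Nat.add (kil P (4 * c)) W) :=
  (le_add (k := 7) (by norm_num) (h.h6.mono (by norm_num)) hW : Le (7 + 1) _)

/-- the three cells as a group -/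
theorem Thr.group {J P c s q : ℕ} (h : Thr J P c s q) (hv : s + 5 * sv (q / 4) < 1024)
    (k1 : WinJ ((J ^^^ 3 <<< (4 * c)) ^^^ ((vq q <<< (4 * s)) &&& k2)) (kil P (4 * c) +
      (cPAT <<< (4 * s) ||| (cPAT <<< (4 * (s + (q % 4 + 1) * sv (q / 4))) |||
        cPAT <<< (4 * (s + 5 * sv (q / 4))))))) : WinJ J P := by
  rw [v_k2 h.hq hv] at k1
  refine winJ_M h.hc h.hJ (and_grp (h.h6.mono (by norm_num)) (grp3 _ _ _) ?_ k1 ?_)
  · intro i hi
    rw [← v_k2 h.hq hv, Nat.testBit_and, Bool.and_eq_true] at hi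
    exact h.hV i hi.1
  · rw [ext_L3, Nat.zero_or]; exact h.and

/-! ### the instructions -/

theorem okS : OkT stepS := by
  intro tbl b ih hi k cur J P stk h hk h8 hs
  unfold stepS at h
  obtain ⟨h1, h⟩ := and_of h
  obtain ⟨h2, h⟩ := and_of h
  obtain ⟨g2, g3⟩ := pop_ok hi h hk hs
  refine ⟨?_, g2, g3⟩
  obtain ⟨s, hs1, hs2⟩ := fld4 (Nat.shiftRight cur 2)
  obtain ⟨q, hq1, hq2⟩ := fldq (Nat.shiftRight cur 4)
  have h1' : Nat.land J (Nat.shiftLeft (Nat.land (Nat.shiftRight kE (Nat.land (Nat.shiftRight cur 4)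
    15360)) cMV) (Nat.land (Nat.shiftRight cur 2) 4092)) = _ := eq_of h1
  rw [hs2, hq2] at h1'
  exact winJ_S (s := s) hq1 (fun i hi => sub_of_land' h1' i hi) (le7_of_land (eq_of h2))

theorem stepDb_elim {tbl : Tr} {b : ℕ} {ih : K3} {k cur J P1 J1 V V' : ℕ} {stk : Stk} {t0 : ℕ}
    (h : stepDb tbl b ih k cur J P1 J1 V V' stk t0 = true) : Tst J P1 J1 V t0 ∧
      Nat.land (Nat.xor J1 (Nat.land V k2)) V' = V' ∧ pop3 tbl b ih k cur stk = true := by
  unfold stepDb at h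
  obtain ⟨h1, h⟩ := and_of h
  obtain ⟨h2, h⟩ := and_of h
  obtain ⟨h3, h⟩ := and_of h
  obtain ⟨h4, h⟩ := and_of h
  exact ⟨⟨eq_of h1, eq_of h2, eq_of h3⟩, eq_of h4, h⟩

theorem okD : OkT stepD := by
  intro tbl b ih hi k cur J P stk h hk h8 hs
  have h' : stepDb tbl b ih k (Nat.shiftRight cur 42) J (kil P (Nat.land (Nat.shiftRight cur 16) 4092))
    (Nat.xor J (Nat.shiftLeft 3 (Nat.land (Nat.shiftRight cur 16) 4092)))
    (Nat.shiftLeft (Nat.land (Nat.shiftRight kE (Nat.land (Nat.shiftRight cur 4) 15360)) cMV)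
      (Nat.land (Nat.shiftRight cur 2) 4092))
    (Nat.shiftLeft (Nat.land (Nat.shiftRight kE (Nat.land (Nat.shiftRight cur 28) 15360)) cMV)
      (Nat.land (Nat.shiftRight cur 26) 4092)) stk (Nat.land (Nat.shiftRight cur 16) 4092) = true := h
  obtain ⟨s, hs1, hs2⟩ := fld4 (Nat.shiftRight cur 2)
  obtain ⟨q, hq1, hq2⟩ := fldq (Nat.shiftRight cur 4)
  obtain ⟨c, hc1, hc2⟩ := fld4 (Nat.shiftRight cur 16)
  obtain ⟨s', hs1', hs2'⟩ := fld4 (Nat.shiftRight cur 26)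
  obtain ⟨q', hq1', hq2'⟩ := fldq (Nat.shiftRight cur 28)
  rw [hs2, hq2, hc2, hs2', hq2'] at h'
  obtain ⟨ht, h4, h5⟩ := stepDb_elim h'
  obtain ⟨g2, g3⟩ := pop_ok hi h5 hk hs
  refine ⟨?_, g2, g3⟩
  have ht : Thr J P c s q := ht.thr h8 hc1 hq1
  by_cases hv : s + 5 * sv (q / 4) < 1024
  · refine ht.group hv ?_
    exact winJ_S (s := s') hq1' (fun i hi => sub_of_land' h4 i hi)
      (le_add (by norm_num) ht.h6 (grp3 _ _ _).w1)
  · exact thr_vac hq1 hc1 ht.hV hv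

theorem e4 (s q : ℕ) : Nat.add (4 * s) (4 * ((q % 4 + 1) * sv (q / 4))) =
    4 * (s + (q % 4 + 1) * sv (q / 4)) := (Nat.mul_add _ _ _).symm

theorem e5 (s q : ℕ) : Nat.add (4 * s) (4 * (5 * sv (q / 4))) = 4 * (s + 5 * sv (q / 4)) :=
  (Nat.mul_add _ _ _).symm

theorem stepGb_elim {tbl : Tr} {b : ℕ} {ih : K3} {k cur J P1 J1 V : ℕ} {stk : Stk} {t0 ts tc te : ℕ}
    (h : stepGb tbl b ih k cur J P1 J1 V stk t0 ts tc te = true) : Tst J P1 J1 V t0 ∧
      ih k cur (Nat.xor J1 (Nat.land V k2)) (Nat.add P1 (Nat.lor (Nat.shiftLeft cPAT ts)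
        (Nat.lor (Nat.shiftLeft cPAT tc) (Nat.shiftLeft cPAT te)))) stk = true := by
  unfold stepGb at h
  obtain ⟨h1, h⟩ := and_of h
  obtain ⟨h2, h⟩ := and_of h
  obtain ⟨h3, h⟩ := and_of h
  exact ⟨⟨eq_of h1, eq_of h2, eq_of h3⟩, h⟩

theorem okG : OkT stepG := by
  intro tbl b ih hi k cur J P stk h hk h8 hs
  have h' : stepGb tbl b ih k (Nat.shiftRight cur 28) J (kil P (Nat.land (Nat.shiftRight cur 16) 4092))
    (Nat.xor J (Nat.shiftLeft 3 (Nat.land (Nat.shiftRight cur 16) 4092)))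
    (Nat.shiftLeft (Nat.land (Nat.shiftRight kE (Nat.land (Nat.shiftRight cur 4) 15360)) cMV)
      (Nat.land (Nat.shiftRight cur 2) 4092)) stk
    (Nat.land (Nat.shiftRight cur 16) 4092) (Nat.land (Nat.shiftRight cur 2) 4092)
    (Nat.add (Nat.land (Nat.shiftRight cur 2) 4092) (Nat.land (Nat.shiftRight (Nat.shiftRight kE
      (Nat.land (Nat.shiftRight cur 4) 15360)) 672) 4095))
    (Nat.add (Nat.land (Nat.shiftRight cur 2) 4092) (Nat.land (Nat.shiftRight (Nat.shiftRight kE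
      (Nat.land (Nat.shiftRight cur 4) 15360)) 684) 4095)) = true := h
  obtain ⟨s, hs1, hs2⟩ := fld4 (Nat.shiftRight cur 2)
  obtain ⟨q, hq1, hq2⟩ := fldq (Nat.shiftRight cur 4)
  obtain ⟨c, hc1, hc2⟩ := fld4 (Nat.shiftRight cur 16)
  rw [hs2, hq2, hc2, vq4 q hq1, vq5 q hq1, e4, e5] at h'
  obtain ⟨ht, h5⟩ := stepGb_elim h'
  have ht : Thr J P c s q := ht.thr h8 hc1 hq1
  obtain ⟨k1, k2, k3⟩ := hi _ _ _ _ _ h5 hk (ht.le (grp3 _ _ _).w1) hs
  refine ⟨?_, k2, k3⟩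
  by_cases hv : s + 5 * sv (q / 4) < 1024
  · exact ht.group hv k1
  · exact thr_vac hq1 hc1 ht.hV hv

/-- the three cells are available -/
theorem Thr.cells {J P c s q : ℕ} (h : Thr J P c s q) :
    (∀ i, (2 <<< (4 * s)).testBit i = true → (J ^^^ 3 <<< (4 * c)).testBit i = true) ∧
    (∀ i, (2 <<< (4 * (s + (q % 4 + 1) * sv (q / 4)))).testBit i = true →
      (J ^^^ 3 <<< (4 * c)).testBit i = true) ∧
    (∀ i, (2 <<< (4 * (s + 5 * sv (q / 4)))).testBit i = true →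
      (J ^^^ 3 <<< (4 * c)).testBit i = true) := by
  obtain ⟨-, h1, h2, h3⟩ := S_of h.hq h.hV
  refine ⟨?_, ?_, ?_⟩ <;> intro i hi <;> rw [tb2, decide_eq_true_eq] at hi <;> rw [hi] <;> assumption

/-- three groups that cover the three cells -/
theorem Thr.two {J P c s q a1 a2 a3 : ℕ} (h : Thr J P c s q)
    (b1 : ∀ i, (2 <<< (4 * a1)).testBit i = true → (J ^^^ 3 <<< (4 * c)).testBit i = true)
    (b2 : ∀ i, (2 <<< (4 * a2)).testBit i = true → (J ^^^ 3 <<< (4 * c)).testBit i = true)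
    (b3 : ∀ i, (2 <<< (4 * a3)).testBit i = true → (J ^^^ 3 <<< (4 * c)).testBit i = true)
    (hc : ∀ i, (L3 s q).testBit i = true → i = a1 ∨ i = a2 ∨ i = a3)
    (k1 : WinJ ((J ^^^ 3 <<< (4 * c)) ^^^ 2 <<< (4 * a1)) (kil P (4 * c) + cPAT <<< (4 * a1)))
    (k2 : WinJ ((J ^^^ 3 <<< (4 * c)) ^^^ (2 <<< (4 * a2) ||| 2 <<< (4 * a3)))
      (kil P (4 * c) + (cPAT <<< (4 * a2) ||| cPAT <<< (4 * a3)))) : WinJ J P := by
  have h7 : Le 7 (kil P (4 * c)) := h.h6.mono (by norm_num)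
  refine winJ_M h.hc h.hJ (and_grp h7 (Grp.one a1) b1 k1 (and_grp h7
    ((Grp.one a2).lor (Grp.one a3)) ?_ k2 ?_))
  · intro i hi
    rw [Nat.testBit_or, Bool.or_eq_true] at hi
    exact hi.elim (b2 i) (b3 i)
  · refine WinAND.mono h.and (fun i hi => hi) (fun i hi => hi) (fun n _ => le_rfl) ?_
    intro i hi
    rw [ext_or, ext_one, ext_one, ext_one, Nat.zero_or, Nat.testBit_or, Nat.testBit_or,
      testBit_one_shl, testBit_one_shl, testBit_one_shl]
    rcases hc i hi with rfl | rfl | rfl <;> simp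

theorem Thr.three {J P c s q a1 a2 a3 : ℕ} (h : Thr J P c s q)
    (b1 : ∀ i, (2 <<< (4 * a1)).testBit i = true → (J ^^^ 3 <<< (4 * c)).testBit i = true)
    (b2 : ∀ i, (2 <<< (4 * a2)).testBit i = true → (J ^^^ 3 <<< (4 * c)).testBit i = true)
    (b3 : ∀ i, (2 <<< (4 * a3)).testBit i = true → (J ^^^ 3 <<< (4 * c)).testBit i = true)
    (hc : ∀ i, (L3 s q).testBit i = true → i = a1 ∨ i = a2 ∨ i = a3)
    (k1 : WinJ ((J ^^^ 3 <<< (4 * c)) ^^^ 2 <<< (4 * a1)) (kil P (4 * c) + cPAT <<< (4 * a1)))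
    (k2 : WinJ ((J ^^^ 3 <<< (4 * c)) ^^^ 2 <<< (4 * a2)) (kil P (4 * c) + cPAT <<< (4 * a2)))
    (k3 : WinJ ((J ^^^ 3 <<< (4 * c)) ^^^ 2 <<< (4 * a3)) (kil P (4 * c) + cPAT <<< (4 * a3))) :
    WinJ J P := by
  have h7 : Le 7 (kil P (4 * c)) := h.h6.mono (by norm_num)
  refine winJ_M h.hc h.hJ (and_grp h7 (Grp.one a1) b1 k1 (and_grp h7 (Grp.one a2) b2 k2
    (and_grp h7 (Grp.one a3) b3 k3 ?_)))
  refine WinAND.mono h.and (fun i hi => hi) (fun i hi => hi) (fun n _ => le_rfl) ?_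
  intro i hi
  rw [ext_one, ext_one, ext_one, Nat.zero_or, Nat.testBit_or, Nat.testBit_or,
    testBit_one_shl, testBit_one_shl, testBit_one_shl]
  rcases hc i hi with rfl | rfl | rfl <;> simp

theorem L3_bit {s q i : ℕ} (h : (L3 s q).testBit i = true) : i = s ∨
    i = s + (q % 4 + 1) * sv (q / 4) ∨ i = s + 5 * sv (q / 4) := by
  rw [L3, Nat.testBit_or, Nat.testBit_or, testBit_one_shl, testBit_one_shl, testBit_one_shl] at h
  simp only [Bool.or_eq_true, decide_eq_true_eq] at h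
  omega

theorem stepTb_elim {tbl : Tr} {b : ℕ} {ih : K3} {k cur J P1 J1 V : ℕ} {stk : Stk} {t0 ts tc te : ℕ}
    (h : stepTb tbl b ih k cur J P1 J1 V stk t0 ts tc te = true) : Tst J P1 J1 V t0 ∧
      ih k cur (Nat.xor J1 (Nat.shiftLeft 2 tc)) (Nat.add P1 (Nat.shiftLeft cPAT tc))
        (Stk.cons (Nat.xor J1 (Nat.shiftLeft 2 ts)) (Nat.add P1 (Nat.shiftLeft cPAT ts))
        (Stk.cons (Nat.xor J1 (Nat.shiftLeft 2 te)) (Nat.add P1 (Nat.shiftLeft cPAT te)) stk)) =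
          true := by
  unfold stepTb at h
  obtain ⟨h1, h⟩ := and_of h
  obtain ⟨h2, h⟩ := and_of h
  obtain ⟨h3, h⟩ := and_of h
  exact ⟨⟨eq_of h1, eq_of h2, eq_of h3⟩, h⟩

theorem okTT : OkT stepT := by
  intro tbl b ih hi k cur J P stk h hk h8 hs
  have h' : stepTb tbl b ih k (Nat.shiftRight cur 28) J (kil P (Nat.land (Nat.shiftRight cur 16) 4092))
    (Nat.xor J (Nat.shiftLeft 3 (Nat.land (Nat.shiftRight cur 16) 4092)))
    (Nat.shiftLeft (Nat.land (Nat.shiftRight kE (Nat.land (Nat.shiftRight cur 4) 15360)) cMV)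
      (Nat.land (Nat.shiftRight cur 2) 4092)) stk
    (Nat.land (Nat.shiftRight cur 16) 4092) (Nat.land (Nat.shiftRight cur 2) 4092)
    (Nat.add (Nat.land (Nat.shiftRight cur 2) 4092) (Nat.land (Nat.shiftRight (Nat.shiftRight kE
      (Nat.land (Nat.shiftRight cur 4) 15360)) 672) 4095))
    (Nat.add (Nat.land (Nat.shiftRight cur 2) 4092) (Nat.land (Nat.shiftRight (Nat.shiftRight kE
      (Nat.land (Nat.shiftRight cur 4) 15360)) 684) 4095)) = true := h
  obtain ⟨s, hs1, hs2⟩ := fld4 (Nat.shiftRight cur 2)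
  obtain ⟨q, hq1, hq2⟩ := fldq (Nat.shiftRight cur 4)
  obtain ⟨c, hc1, hc2⟩ := fld4 (Nat.shiftRight cur 16)
  rw [hs2, hq2, hc2, vq4 q hq1, vq5 q hq1, e4, e5] at h'
  obtain ⟨ht, h5⟩ := stepTb_elim h'
  have ht : Thr J P c s q := ht.thr h8 hc1 hq1
  obtain ⟨k1, ⟨k2, k3, k4⟩, k5⟩ := hi _ _ _ _ _ h5 hk (ht.le (Grp.one _).w1)
    ⟨ht.le (Grp.one _).w1, ht.le (Grp.one _).w1, hs⟩
  obtain ⟨c1, c2, c3⟩ := ht.cells
  refine ⟨?_, k4, k5⟩
  exact ht.three c2 c1 c3 (fun i hi => by have := L3_bit hi; omega) k1 k2 k3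

theorem stepPb_elim {tbl : Tr} {b : ℕ} {ih : K3} {k cur J P1 J1 V : ℕ} {stk : Stk}
    {p t0 ts tc te : ℕ} (h : stepPb tbl b ih k cur J P1 J1 V stk p t0 ts tc te = true) :
    Tst J P1 J1 V t0 ∧ (stepQ tbl b ih k cur J1 P1 stk tc ts te = true ∨
      stepQ tbl b ih k cur J1 P1 stk ts tc te = true ∨
      stepQ tbl b ih k cur J1 P1 stk te tc ts = true) := by
  unfold stepPb at h
  obtain ⟨h1, h⟩ := and_of h
  obtain ⟨h2, h⟩ := and_of h
  obtain ⟨h3, h⟩ := and_of h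
  refine ⟨⟨eq_of h1, eq_of h2, eq_of h3⟩, ?_⟩
  rcases p with _ | _ | p
  · exact Or.inl h
  · exact Or.inr (Or.inl h)
  · exact Or.inr (Or.inr h)

theorem stepQ_ok {tbl : Tr} {b : ℕ} {ih : K3} (hi : OkK tbl b ih) {k cur J P c s q : ℕ} {stk : Stk}
    {a1 a2 a3 : ℕ} (ht : Thr J P c s q)
    (h : stepQ tbl b ih k cur (Nat.xor J (Nat.shiftLeft 3 (4 * c))) (kil P (4 * c)) stk (4 * a1)
      (4 * a2) (4 * a3) = true) (hk : ∀ i, i < k → Wk tbl i) (hs : StkOk stk)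
    (b1 : ∀ i, (2 <<< (4 * a1)).testBit i = true → (J ^^^ 3 <<< (4 * c)).testBit i = true)
    (b2 : ∀ i, (2 <<< (4 * a2)).testBit i = true → (J ^^^ 3 <<< (4 * c)).testBit i = true)
    (b3 : ∀ i, (2 <<< (4 * a3)).testBit i = true → (J ^^^ 3 <<< (4 * c)).testBit i = true)
    (hc : ∀ i, (L3 s q).testBit i = true → i = a1 ∨ i = a2 ∨ i = a3) :
    WinJ J P ∧ Won stk ∧ Rest tbl b k := by
  unfold stepQ at h
  obtain ⟨k1, ⟨k2, k4⟩, k5⟩ := hi _ _ _ _ _ h hk (ht.le (Grp.one _).w1)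
    ⟨ht.le ((Grp.one _).lor (Grp.one _)).w1, hs⟩
  exact ⟨ht.two b1 b2 b3 hc k1 k2, k4, k5⟩

theorem okP : OkT stepP := by
  intro tbl b ih hi k cur J P stk h hk h8 hs
  have h' : stepPb tbl b ih k (Nat.shiftRight cur 30) J (kil P (Nat.land (Nat.shiftRight cur 16) 4092))
    (Nat.xor J (Nat.shiftLeft 3 (Nat.land (Nat.shiftRight cur 16) 4092)))
    (Nat.shiftLeft (Nat.land (Nat.shiftRight kE (Nat.land (Nat.shiftRight cur 4) 15360)) cMV)
      (Nat.land (Nat.shiftRight cur 2) 4092)) stk (Nat.land (Nat.shiftRight cur 28) 3)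
    (Nat.land (Nat.shiftRight cur 16) 4092) (Nat.land (Nat.shiftRight cur 2) 4092)
    (Nat.add (Nat.land (Nat.shiftRight cur 2) 4092) (Nat.land (Nat.shiftRight (Nat.shiftRight kE
      (Nat.land (Nat.shiftRight cur 4) 15360)) 672) 4095))
    (Nat.add (Nat.land (Nat.shiftRight cur 2) 4092) (Nat.land (Nat.shiftRight (Nat.shiftRight kE
      (Nat.land (Nat.shiftRight cur 4) 15360)) 684) 4095)) = true := h
  obtain ⟨s, hs1, hs2⟩ := fld4 (Nat.shiftRight cur 2)
  obtain ⟨q, hq1, hq2⟩ := fldq (Nat.shiftRight cur 4)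
  obtain ⟨c, hc1, hc2⟩ := fld4 (Nat.shiftRight cur 16)
  rw [hs2, hq2, hc2, vq4 q hq1, vq5 q hq1, e4, e5] at h'
  obtain ⟨ht, h5⟩ := stepPb_elim h'
  have ht : Thr J P c s q := ht.thr h8 hc1 hq1
  obtain ⟨c1, c2, c3⟩ := ht.cells
  rcases h5 with h5 | h5 | h5
  · exact stepQ_ok hi ht h5 hk hs c2 c1 c3 (fun i hi => by have := L3_bit hi; omega)
  · exact stepQ_ok hi ht h5 hk hs c1 c2 c3 (fun i hi => by have := L3_bit hi; omega)
  · exact stepQ_ok hi ht h5 hk hs c3 c2 c1 (fun i hi => by have := L3_bit hi; omega)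

theorem dg_add_kil {P c W n : ℕ} (hc : c < 1024) (hn : n < 4096) (h7 : Le 7 (kil P (4 * c)))
    (hw : Le 1 W) : dg (clr P c + W) n = dg (kil P (4 * c) + W) n := by
  rw [dg_add, dg_add, dg_kil hc hn]
  · intro m hm
    have := h7 m (by omega)
    have := hw m (by omega)
    omega
  · intro m hm
    have := h7 m (by omega)
    rw [dg_kil hc (by omega)] at this
    have := hw m (by omega)
    omega

theorem tb1 (c i : ℕ) : (1 <<< (4 * c) : ℕ).testBit (4 * i) = decide (c = i) := by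
  rw [testBit_one_shl]
  exact decide_eq_decide.2 (by omega)

theorem stepFb_elim {tbl : Tr} {b : ℕ} {ih : K3} {k cur J P1 : ℕ} {stk : Stk} {tc te x m : ℕ}
    (h : stepFb tbl b ih k cur J P1 stk tc te x m = true) :
    Nat.land J (Nat.shiftLeft x 1) = Nat.shiftLeft x 1 ∧ Nat.land (Nat.lor J x) m = m ∧
      Nat.land P1 cEIGHT = 0 ∧ ih k cur (Nat.xor (Nat.xor J (Nat.shiftLeft 3 tc)) (Nat.shiftLeft 2 te))
        (Nat.add P1 (Nat.shiftLeft cPAT te)) stk = true := by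
  unfold stepFb at h
  obtain ⟨h1, h⟩ := and_of h
  obtain ⟨h2, h⟩ := and_of h
  obtain ⟨h3, h⟩ := and_of h
  exact ⟨eq_of h1, eq_of h2, eq_of h3, h⟩

theorem okF : OkT stepF := by
  intro tbl b ih hi k cur J P stk h hk h8 hs
  have h' : stepFb tbl b ih k (Nat.shiftRight cur 36) J (kil P (Nat.land (Nat.shiftRight cur 2) 4092))
    stk (Nat.land (Nat.shiftRight cur 2) 4092) (Nat.land (Nat.shiftRight cur 12) 4092)
    (Nat.lor (Nat.shiftLeft 1 (Nat.land (Nat.shiftRight cur 2) 4092))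
      (Nat.shiftLeft 1 (Nat.land (Nat.shiftRight cur 12) 4092)))
    (Nat.shiftLeft (Nat.land (Nat.shiftRight kF (Nat.land (Nat.shiftRight cur 24) 3072)) cMF)
      (Nat.land (Nat.shiftRight cur 22) 4092)) = true := h
  obtain ⟨c, hc1, hc2⟩ := fld4 (Nat.shiftRight cur 2)
  obtain ⟨e, he1, he2⟩ := fld4 (Nat.shiftRight cur 12)
  obtain ⟨s, hs1, hs2⟩ := fld4 (Nat.shiftRight cur 22)
  obtain ⟨d, hd1, hd2⟩ := fldd (Nat.shiftRight cur 24)
  rw [hc2, he2, hs2, hd2] at h'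
  obtain ⟨h1, h2, h3, h5⟩ := stepFb_elim h'
  have h7 : Le 7 (kil P (4 * c)) := le7_of_land h3
  obtain ⟨k1, k2, k3⟩ := hi _ _ _ _ _ h5 hk (le_add (k := 7) (by norm_num) h7 (Grp.one e).w1) hs
  refine ⟨?_, k2, k3⟩
  have x1 : (1 <<< (4 * c) ||| 1 <<< (4 * e)) <<< 1 = (2 <<< (4 * c) ||| 2 <<< (4 * e) : ℕ) := by
    apply Nat.eq_of_testBit_eq
    intro i
    rw [Nat.testBit_shiftLeft, Nat.testBit_or, Nat.testBit_or, testBit_one_shl, testBit_one_shl,
      tb2, tb2]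
    rcases Nat.eq_zero_or_pos i with rfl | hi
    · simp
    · rw [decide_eq_true (show i ≥ 1 from hi), Bool.true_and]
      congr 1 <;> exact decide_eq_decide.2 (by omega)
  have hsub : ∀ i, (2 <<< (4 * c) ||| 2 <<< (4 * e) : ℕ).testBit i = true → J.testBit i = true := by
    intro i hi
    rw [← x1] at hi
    exact sub_of_land' h1 i hi
  have b1 : (ext J 1).testBit c = true := by
    rw [ext_bit]; apply hsub; rw [Nat.testBit_or, tb2]; simp
  have b2 : (ext J 1).testBit e = true := by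
    rw [ext_bit]; apply hsub; rw [Nat.testBit_or, tb2, tb2]; simp
  have hf : FiveB (ext J 0 ||| (1 <<< c ||| 1 <<< e)) d s := by
    refine five_of (X := J ||| (1 <<< (4 * c) ||| 1 <<< (4 * e))) hd1
      (fun i hi => sub_of_land' h2 i hi) ?_
    intro i hi
    rw [Nat.testBit_or, Nat.testBit_or, tb1, tb1] at hi
    rw [Nat.testBit_or, Nat.testBit_or, testBit_one_shl, testBit_one_shl, ext_bit]
    exact hi
  by_cases hce : c = e
  · subst hce
    refine win_5 h8 b1 hd1 (s := s) ?_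
    intro j hj
    have := hf j hj
    simpa [Nat.testBit_or] using this
  · refine win_F h8 b1 b2 hd1 (le_clr_of_kil hc1 h7) hf (WinOR.mono k1 ?_ ?_ ?_)
    · intro i hi
      rw [ext_bit] at hi
      have e0 : (Nat.xor (Nat.xor J (Nat.shiftLeft 3 (4 * c))) (Nat.shiftLeft 2 (4 * e))).testBit
        (4 * i + 0) = ((J ^^^ 3 <<< (4 * c)) ^^^ 2 <<< (4 * e)).testBit (4 * i + 0) := rfl
      rw [e0, Nat.testBit_xor, Nat.testBit_xor, tb2, tb3,
        decide_eq_false (show ¬ 4 * i + 0 = 4 * e + 1 by omega),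
        decide_eq_false (show ¬ 4 * i + 0 = 4 * c + 1 by omega)] at hi
      rw [Nat.testBit_or, testBit_one_shl, ext_bit]
      by_cases hci : c = i
      · simp [hci]
      · rw [decide_eq_false (show ¬ 4 * i + 0 = 4 * c by omega)] at hi
        simpa [hci] using hi
    · intro i hi
      rw [ext_bit] at hi
      have e0 : (Nat.xor (Nat.xor J (Nat.shiftLeft 3 (4 * c))) (Nat.shiftLeft 2 (4 * e))).testBit
        (4 * i + 1) = ((J ^^^ 3 <<< (4 * c)) ^^^ 2 <<< (4 * e)).testBit (4 * i + 1) := rfl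
      rw [e0, Nat.testBit_xor, Nat.testBit_xor, tb2, tb3,
        decide_eq_false (show ¬ 4 * i + 1 = 4 * c by omega), Bool.false_or] at hi
      rw [Nat.testBit_xor, Nat.testBit_or, testBit_one_shl, testBit_one_shl, ext_bit]
      by_cases hci : c = i
      · subst hci
        rw [decide_eq_false (show ¬ 4 * c + 1 = 4 * e + 1 by omega)] at hi
        rw [decide_eq_false (show ¬ e = c from fun h => hce h.symm)]
        simpa using hi
      · rw [decide_eq_false (show ¬ 4 * i + 1 = 4 * c + 1 by omega)] at hi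
        rw [decide_eq_false hci]
        by_cases hei : e = i
        · subst hei; simpa using hi
        · rw [decide_eq_false (show ¬ 4 * i + 1 = 4 * e + 1 by omega)] at hi
          rw [decide_eq_false hei]
          simpa using hi
    · intro n hn
      exact (dg_add_kil hc1 hn h7 (Grp.one e).w1).le

theorem stepZb_elim {tbl : Tr} {b : ℕ} {ih : K3} {k cur J P : ℕ} {stk : Stk} {tc t1 t2 m1 m2 : ℕ}
    (h : stepZb tbl b ih k cur J P stk tc t1 t2 m1 m2 = true) :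
    Nat.land J (Nat.lor (Nat.shiftLeft 2 tc) (Nat.lor (Nat.shiftLeft 2 t1) (Nat.shiftLeft 2 t2))) =
      Nat.lor (Nat.shiftLeft 2 tc) (Nat.lor (Nat.shiftLeft 2 t1) (Nat.shiftLeft 2 t2)) ∧
    Nat.land (Nat.lor J (Nat.lor (Nat.shiftLeft 1 tc) (Nat.shiftLeft 1 t1))) m1 = m1 ∧
    Nat.land (Nat.lor J (Nat.lor (Nat.shiftLeft 1 tc) (Nat.shiftLeft 1 t2))) m2 = m2 ∧
    Nat.land (kil P tc) cEIGHT = 0 ∧ t1 < t2 ∧ pop3 tbl b ih k cur stk = true := by
  unfold stepZb at h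
  obtain ⟨h1, h⟩ := and_of h
  obtain ⟨h2, h⟩ := and_of h
  obtain ⟨h3, h⟩ := and_of h
  obtain ⟨h4, h⟩ := and_of h
  obtain ⟨h5, h⟩ := and_of h
  exact ⟨eq_of h1, eq_of h2, eq_of h3, eq_of h4, Nat.le_of_ble_eq_true h5, h⟩

theorem okZ : OkT stepZ := by
  intro tbl b ih hi k cur J P stk h hk h8 hs
  have h' : stepZb tbl b ih k (Nat.shiftRight cur 58) J P stk
    (Nat.land (Nat.shiftRight cur 2) 4092) (Nat.land (Nat.shiftRight cur 12) 4092)
    (Nat.land (Nat.shiftRight cur 22) 4092)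
    (Nat.shiftLeft (Nat.land (Nat.shiftRight kF (Nat.land (Nat.shiftRight cur 34) 3072)) cMF)
      (Nat.land (Nat.shiftRight cur 32) 4092))
    (Nat.shiftLeft (Nat.land (Nat.shiftRight kF (Nat.land (Nat.shiftRight cur 46) 3072)) cMF)
      (Nat.land (Nat.shiftRight cur 44) 4092)) = true := h
  obtain ⟨c, hc1, hc2⟩ := fld4 (Nat.shiftRight cur 2)
  obtain ⟨e, he1, he2⟩ := fld4 (Nat.shiftRight cur 12)
  obtain ⟨f, hf1, hf2⟩ := fld4 (Nat.shiftRight cur 22)
  obtain ⟨s, hs1, hs2⟩ := fld4 (Nat.shiftRight cur 32)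
  obtain ⟨d, hd1, hd2⟩ := fldd (Nat.shiftRight cur 34)
  obtain ⟨s', hs1', hs2'⟩ := fld4 (Nat.shiftRight cur 44)
  obtain ⟨d', hd1', hd2'⟩ := fldd (Nat.shiftRight cur 46)
  rw [hc2, he2, hf2, hs2, hd2, hs2', hd2'] at h'
  obtain ⟨h1, h2, h3, h4, h5, h6⟩ := stepZb_elim h'
  obtain ⟨g2, g3⟩ := pop_ok hi h6 hk hs
  refine ⟨?_, g2, g3⟩
  have hsub : ∀ i, (2 <<< (4 * c) ||| (2 <<< (4 * e) ||| 2 <<< (4 * f)) : ℕ).testBit i = true →
    J.testBit i = true := fun i hi => sub_of_land' h1 i hi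
  have b0 : (ext J 1).testBit c = true := by
    rw [ext_bit]; apply hsub; rw [Nat.testBit_or, tb2]; simp
  have b1 : (ext J 1).testBit e = true := by
    rw [ext_bit]; apply hsub; rw [Nat.testBit_or, Nat.testBit_or, tb2, tb2, tb2]; simp
  have b2 : (ext J 1).testBit f = true := by
    rw [ext_bit]; apply hsub; rw [Nat.testBit_or, Nat.testBit_or, tb2, tb2, tb2]; simp
  have five : ∀ z d s, d < 4 → (∀ i, (fq d <<< (4 * s)).testBit i = true →
      (J ||| (1 <<< (4 * c) ||| 1 <<< (4 * z))).testBit i = true) →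
      FiveB (ext J 0 ||| (1 <<< c ||| 1 <<< z)) d s := by
    intro z d s hd hh
    refine five_of hd hh ?_
    intro i hi
    rw [Nat.testBit_or, Nat.testBit_or, tb1, tb1] at hi
    rw [Nat.testBit_or, Nat.testBit_or, testBit_one_shl, testBit_one_shl, ext_bit]
    exact hi
  exact win_Z b0 b1 b2 hd1 hd1' (le_clr_of_kil hc1 (le7_of_land h4))
    (five _ _ _ hd1 fun i hi => sub_of_land' h2 i hi)
    (five _ _ _ hd1' fun i hi => sub_of_land' h3 i hi) (by omega)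

theorem stepCb_elim {tbl : Tr} {b : ℕ} {ih : K3} {k cur J P : ℕ} {stk : Stk} {e v c p : ℕ}
    (h : stepCb tbl b ih k cur J P stk e v c p = true) :
    5 ≤ c + (Nat.land (Nat.shiftRight J e) 1 + (Nat.land (Nat.shiftRight J (Nat.sub e v)) 1 +
      (Nat.land (Nat.shiftRight J (Nat.sub e (Nat.mul 2 v))) 1 +
      (Nat.land (Nat.shiftRight J (Nat.sub e (Nat.mul 3 v))) 1 +
      Nat.land (Nat.shiftRight J (Nat.sub e (Nat.mul 4 v))) 1)))) ∧
    ih k cur J (Nat.sub P (Nat.shiftLeft (Nat.sub (Nat.land (Nat.shiftRight P p) 15) (Nat.add c 4))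
      p)) stk = true := by
  unfold stepCb at h
  obtain ⟨h1, h⟩ := and_of h
  exact ⟨Nat.le_of_ble_eq_true h1, h⟩

theorem land_shl2 (y m : ℕ) : y &&& (m <<< 2) = 4 * ((y >>> 2) &&& m) := by
  have e : 4 * ((y >>> 2) &&& m) = ((y >>> 2) &&& m) <<< 2 := by
    rw [Nat.shiftLeft_eq]; ring
  rw [e]
  apply Nat.eq_of_testBit_eq
  intro i
  rw [Nat.testBit_and, Nat.testBit_shiftLeft, Nat.testBit_shiftLeft, Nat.testBit_and,
    Nat.testBit_shiftRight]
  by_cases h : i ≥ 2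
  · rw [show 2 + (i - 2) = i by omega]
    cases y.testBit i <;> simp
  · simp [h]

theorem fldC (cur : ℕ) : ∃ e d, e < 1024 ∧ d < 4 ∧ Nat.land (Nat.shiftRight cur 2) 4092 = 4 * e ∧
    Nat.land (Nat.shiftRight cur 14) 3 = d ∧
    Nat.land (Nat.shiftRight cur 2) 16380 = 4 * (1024 * d + e) := by
  have a1 : (cur >>> 4) &&& 1023 = (cur >>> 4) % 1024 := Nat.and_two_pow_sub_one_eq_mod _ 10
  have a2 : (cur >>> 4) &&& 4095 = (cur >>> 4) % 4096 := Nat.and_two_pow_sub_one_eq_mod _ 12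
  have a3 : (cur >>> 14) &&& 3 = (cur >>> 14) % 4 := Nat.and_two_pow_sub_one_eq_mod _ 2
  have a4 : cur >>> 14 = (cur >>> 4) / 1024 := by
    have : (14 : ℕ) = 4 + 10 := rfl
    rw [this, Nat.shiftRight_add, Nat.shiftRight_eq_div_pow _ 10]
  have a5 : (cur >>> 2) >>> 2 = cur >>> 4 := by rw [← Nat.shiftRight_add]
  refine ⟨(cur >>> 4) &&& 1023, (cur >>> 14) &&& 3, ?_, ?_, ?_, rfl, ?_⟩
  · rw [a1]; exact Nat.mod_lt _ (by norm_num)
  · rw [a3]; exact Nat.mod_lt _ (by norm_num)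
  · have := land_shl2 (cur >>> 2) 1023
    rw [a5] at this
    exact this
  · have := land_shl2 (cur >>> 2) 4095
    rw [a5] at this
    rw [a1, a3, a4]
    rw [a2] at this
    refine Eq.trans this ?_
    generalize cur >>> 4 = z
    omega

/-- the steps of the indices, four times -/
def selv (d : ℕ) : ℕ :=
  @Nat.rec (fun _ => ℕ) 4 (fun n1 _ => @Nat.rec (fun _ => ℕ) 128 (fun n2 _ =>
    @Nat.rec (fun _ => ℕ) 132 (fun _ _ => 124) n2) n1) d

theorem selv_eq {d : ℕ} (hd : d < 4) : selv d = 4 * sv d := by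
  rcases dir_cases hd with rfl | rfl | rfl | rfl <;> rfl

theorem land_one_le (x : ℕ) : Nat.land x 1 ≤ 1 := by
  show x &&& 1 ≤ 1
  exact Nat.and_le_right

theorem land15 (P n : ℕ) : Nat.land (Nat.shiftRight P (4 * n)) 15 = dg P n := by
  show (P >>> (4 * n)) &&& 15 = _
  rw [Nat.shiftRight_eq_div_pow, ← pow16]
  unfold dg
  exact Nat.and_two_pow_sub_one_eq_mod (P / 16 ^ n) 4

theorem okC : OkT stepC := by
  intro tbl b ih hi k cur J P stk h hk h8 hs
  have h' : stepCb tbl b ih k (Nat.shiftRight cur 19) J P stk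
    (Nat.land (Nat.shiftRight cur 2) 4092 + 1) (selv (Nat.land (Nat.shiftRight cur 14) 3))
    (Nat.land (Nat.shiftRight cur 16) 7) (Nat.land (Nat.shiftRight cur 2) 16380) = true := h
  obtain ⟨e, d, he, hd, e1, e2, e3⟩ := fldC cur
  rw [e1, e2, e3, selv_eq hd] at h'
  generalize Nat.land (Nat.shiftRight cur 16) 7 = c at h'
  obtain ⟨h1, h2⟩ := stepCb_elim h'
  rw [land15] at h2
  set n := 1024 * d + e with hn
  have hP' : Nat.sub P (Nat.shiftLeft (Nat.sub (dg P n) (Nat.add c 4)) (4 * n)) =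
    P - (dg P n - (c + 4)) <<< (4 * n) := rfl
  rw [hP'] at h2
  have h8' : Le 8 (P - (dg P n - (c + 4)) <<< (4 * n)) := by
    intro m hm
    have := h8 m hm
    rw [dg_low]; omega
  obtain ⟨k1, k2, k3⟩ := hi _ _ _ _ _ h2 hk h8' hs
  refine ⟨?_, k2, k3⟩
  refine win_C (k := c) (e := e) (d := d)
    (b := fun j => Nat.land (Nat.shiftRight J (4 * e + 1 - j * (4 * sv d))) 1) he hd
    (fun j _ => land_one_le _) ?_ ?_ k1
  · intro j hj hb
    have hb1 := bit_iff.1 hb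
    by_cases hje : j * sv d ≤ e
    · left
      refine ⟨hje, ?_⟩
      rw [ext_bit]
      have : 4 * e + 1 - j * (4 * sv d) = 4 * (e - j * sv d) + 1 := by
        have : j * (4 * sv d) = 4 * (j * sv d) := by ring
        omega
      rwa [this] at hb1
    · right
      rw [ext_bit]
      have : 4 * e + 1 - j * (4 * sv d) = 0 := by
        have : j * (4 * sv d) = 4 * (j * sv d) := by ring
        omega
      rwa [this] at hb1
  · have t0 : 4 * e + 1 - 0 * (4 * sv d) = 4 * e + 1 := by rw [Nat.zero_mul, Nat.sub_zero]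
    have t1 : 4 * e + 1 - 1 * (4 * sv d) = 4 * e + 1 - 4 * sv d := by rw [Nat.one_mul]
    simp only [t0, t1]
    exact h1

theorem le8_aux : ∀ a : ℕ, a < 9 → ∀ b : ℕ, b < 16 → (a &&& 8) &&& b = a &&& 8 →
    a ^^^ (a &&& 8) ≤ b → a ≤ b := by decide

theorem leP8_ok {P P' : ℕ} (h8 : Le 8 P) (h : leP8 P P' (Nat.land P cEIGHT) = true) :
    ∀ n, n < 4096 → dg P n ≤ dg P' n := by
  unfold leP8 at h
  obtain ⟨h1, h2⟩ := and_of h
  intro n hn
  have h3 : (P ^^^ (P &&& cEIGHT)) &&& cEIGHT = 0 := by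
    apply Nat.eq_of_testBit_eq
    intro i
    rw [Nat.testBit_and, Nat.testBit_xor, Nat.testBit_and, Nat.zero_testBit]
    cases P.testBit i <;> cases cEIGHT.testBit i <;> rfl
  have h2' := le_of_leD h3 (eq_of h2) hn
  rw [dg_xor, dg_land, dg_cEIGHT hn] at h2'
  have e2 : P' &&& (P &&& cEIGHT) = P &&& cEIGHT := eq_of h1
  have h4 : dg (P' &&& (P &&& cEIGHT)) n = dg (P &&& cEIGHT) n := by rw [e2]
  rw [dg_land, dg_land, dg_cEIGHT hn, Nat.and_comm] at h4
  have := h8 n hn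
  exact le8_aux _ (by omega) _ (dg_lt P' n) h4 h2'

theorem okX : OkT stepX := by
  intro tbl b ih hi k cur J P stk h hk h8 hs
  unfold stepX at h
  obtain ⟨h1, h⟩ := and_of h
  obtain ⟨h2, h⟩ := and_of h
  obtain ⟨g2, g3⟩ := pop_ok hi h hk hs
  refine ⟨?_, g2, g3⟩
  rw [get_eq] at h2
  have hlt := Nat.le_of_ble_eq_true h1
  generalize Nat.land (Nat.shiftRight cur _) _ = i at *
  obtain ⟨h3, h4⟩ := and_of (show @Bool.rec (fun _ => Bool) Bool.false
    (leP8 P (look tbl i).2 (Nat.land P cEIGHT))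
    (Nat.beq (Nat.land J (look tbl i).1) (look tbl i).1) = true from h2)
  have hw : Wk tbl i := hk i hlt
  have h5 := eq_of h3
  refine WinOR.mono hw ?_ ?_ (leP8_ok h8 h4)
  · intro j hj
    rw [ext_bit] at hj ⊢
    exact sub_of_land' h5 _ hj
  · intro j hj
    rw [ext_bit] at hj ⊢
    exact sub_of_land' h5 _ hj

theorem leE_elim {J P1 both y J' P' : ℕ} (h : leE J P1 both y J' P' = true) :
    Nat.land J J' = J' ∧ Nat.land J y = y ∧ Nat.land J' y = 0 ∧
    Nat.land (Nat.xor P1 (Nat.land P1 both)) cEIGHT = 0 ∧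
    Nat.land (Nat.sub (Nat.lor P' cEIGHT) (Nat.xor P1 (Nat.land P1 both))) cEIGHT = cEIGHT := by
  unfold leE at h
  obtain ⟨h1, h⟩ := and_of h
  obtain ⟨h2, h⟩ := and_of h
  obtain ⟨h3, h⟩ := and_of h
  obtain ⟨h4, h⟩ := and_of h
  exact ⟨eq_of h1, eq_of h2, eq_of h3, eq_of h4, eq_of h⟩

theorem stepEb_elim {tbl : Tr} {b : ℕ} {ih : K3} {k cur J P : ℕ} {stk : Stk} {i tp tq : ℕ}
    (h : stepEb tbl b ih k cur J P stk i tp tq = true) :
    i < k ∧ tp < tq ∧ Nat.land P cEIGHT = 0 ∧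
    leE J (Nat.add P (Nat.add (Nat.shiftLeft cPAT tp) (Nat.shiftLeft cPAT tq)))
      (Nat.land (Nat.shiftLeft cKILL tp) (Nat.shiftLeft cKILL tq))
      (Nat.lor (Nat.shiftLeft 2 tp) (Nat.shiftLeft 2 tq)) (look tbl i).1 (look tbl i).2 = true ∧
    pop3 tbl b ih k cur stk = true := by
  unfold stepEb at h
  obtain ⟨h1, h⟩ := and_of h
  obtain ⟨h2, h⟩ := and_of h
  obtain ⟨h3, h⟩ := and_of h
  obtain ⟨h4, h⟩ := and_of h
  rw [get_eq] at h4
  exact ⟨Nat.le_of_ble_eq_true h1, Nat.le_of_ble_eq_true h2, eq_of h3, h4, h⟩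

theorem okE : OkT stepE := by
  intro tbl b ih hi k cur J P stk h hk h8 hs
  have h' : stepEb tbl b ih k (Nat.shiftRight cur 38) J P stk
    (Nat.land (Nat.shiftRight cur 4) 16383) (Nat.land (Nat.shiftRight cur 16) 4092)
    (Nat.land (Nat.shiftRight cur 26) 4092) = true := h
  obtain ⟨p, hp1, hp2⟩ := fld4 (Nat.shiftRight cur 16)
  obtain ⟨q, hq1, hq2⟩ := fld4 (Nat.shiftRight cur 26)
  rw [hp2, hq2] at h'
  obtain ⟨h1, h2, h3, h4, h5⟩ := stepEb_elim h'
  generalize Nat.land (Nat.shiftRight cur 4) 16383 = i at *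
  obtain ⟨g2, g3⟩ := pop_ok hi h5 hk hs
  refine ⟨?_, g2, g3⟩
  have hw : Wk tbl i := hk i h1
  obtain ⟨l1, l2, l3, l4, l5⟩ := leE_elim h4
  have hy : ∀ j, (2 <<< (4 * p) ||| 2 <<< (4 * q) : ℕ).testBit j = true → J.testBit j = true :=
    fun j hj => sub_of_land' l2 j hj
  have l3' : (look tbl i).1 &&& (2 <<< (4 * p) ||| 2 <<< (4 * q)) = 0 := l3
  have hn : ∀ j, (2 <<< (4 * p) ||| 2 <<< (4 * q) : ℕ).testBit j = true →
      (look tbl i).1.testBit j = false := by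
    intro j hj
    have e := congrArg (fun x => x.testBit j) l3'
    simp only [Nat.testBit_and, hj, Bool.and_true, Nat.zero_testBit] at e
    exact e
  have m1 : (2 <<< (4 * p) ||| 2 <<< (4 * q) : ℕ).testBit (4 * p + 1) = true := by
    rw [Nat.testBit_or, tb2]; simp
  have m2 : (2 <<< (4 * p) ||| 2 <<< (4 * q) : ℕ).testBit (4 * q + 1) = true := by
    rw [Nat.testBit_or, tb2, tb2]; simp
  refine win_E (p := p) (q := q) (le7_of_land h3) ?_ ?_ (by omega) ?_ ?_ ?_ ?_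
    (fun n hn => le_of_leD l4 l5 hn) hw
  · rw [ext_bit]; exact hy _ m1
  · rw [ext_bit]; exact hy _ m2
  · intro j hj
    rw [ext_bit] at hj ⊢
    exact sub_of_land' l1 _ hj
  · intro j hj
    rw [ext_bit] at hj ⊢
    exact sub_of_land' l1 _ hj
  · rw [ext_bit]; exact hn _ m1
  · rw [ext_bit]; exact hn _ m2

/-! ### moves with arbitrary groups of answers -/

/-- what is proved in the loop over the answers -/
def Cov (J1 P1 R : ℕ) : Prop := (∀ i, R.testBit i = true → J1.testBit i = true) ∧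
  AndJ J1 P1 (ext R 1)

theorem Cov.step {J1 P1 R m W : ℕ} (h7 : Le 7 P1) (hg : Grp m W)
    (hw : WinJ (J1 ^^^ m) (P1 + W)) (h : Cov J1 P1 (R ||| m)) : Cov J1 P1 R := by
  obtain ⟨h1, h2⟩ := h
  refine ⟨fun i hi => h1 i (by rw [Nat.testBit_or, hi]; rfl),
    and_grp h7 hg (fun i hi => h1 i (by rw [Nat.testBit_or, hi, Bool.or_true])) hw ?_⟩
  rwa [ext_or] at h2

theorem reps_ok {tbl : Tr} {b k J1 P1 : ℕ} {fin : ℕ → ℕ → Stk → Bool} (h7 : Le 7 P1)
    (hfin : ∀ cur R stk, fin cur R stk = true → (∀ i, R.testBit i = true → i % 4 = 1) →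
      StkOk stk → Cov J1 P1 R ∧ Won stk ∧ Rest tbl b k) :
    ∀ n cur R m W stk, reps J1 P1 fin n cur R m W stk = true →
      (∀ i, R.testBit i = true → i % 4 = 1) → Grp m W → StkOk stk →
      Cov J1 P1 R ∧ Won stk ∧ Rest tbl b k := by
  intro n
  induction n with
  | zero => intro cur R m W stk h hR hg hs; exact hfin _ _ _ h hR hs
  | succ n ih =>
    intro cur R m W stk h hR hg hs
    have push : ∀ cur' m' W', Grp m' W' →
        repE J1 P1 (reps J1 P1 fin n) cur' R stk m' W' = true →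
        Cov J1 P1 R ∧ Won stk ∧ Rest tbl b k := by
      intro cur' m' W' hg' h
      have h' : reps J1 P1 fin n cur' (R ||| m') 0 0 (Stk.cons (J1 ^^^ m') (P1 + W') stk) = true := h
      obtain ⟨g1, ⟨g2, g3⟩, g4⟩ := ih _ _ _ _ _ h' (fun i hi => by
        rw [Nat.testBit_or, Bool.or_eq_true] at hi
        exact hi.elim (hR i) (hg'.mod i)) Grp.zero ⟨le_add (by norm_num) h7 hg'.w1, hs⟩
      exact ⟨g1.step h7 hg' g2, g3, g4⟩
    have h' : rep1 J1 P1 (reps J1 P1 fin n) (Nat.shiftRight cur 12) R m W stk (Nat.land cur 3)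
      (Nat.shiftLeft 2 (Nat.land cur 4092)) (Nat.shiftLeft cPAT (Nat.land cur 4092)) = true := h
    obtain ⟨a, ha1, ha2⟩ := fld4 cur
    rw [ha2] at h'
    generalize Nat.land cur 3 = fl at h'
    unfold rep1 at h'
    rcases fl with _ | _ | fl
    · exact push _ _ _ (Grp.one a) h'
    · exact ih _ _ _ _ _ h' hR (hg.lor (Grp.one a)) hs
    · exact push _ _ _ (hg.lor (Grp.one a)) h'

theorem finM_ok {tbl : Tr} {b : ℕ} {ih : K3} (hi : OkK tbl b ih) {k J1 P1 : ℕ} (h7 : Le 7 P1)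
    (hk : ∀ i, i < k → Wk tbl i) : ∀ cur R stk, finM ih k J1 P1 cur R stk = true →
      (∀ i, R.testBit i = true → i % 4 = 1) → StkOk stk →
      Cov J1 P1 R ∧ Won stk ∧ Rest tbl b k := by
  intro cur R stk h hR hs
  unfold finM at h
  obtain ⟨h1, h⟩ := and_of h
  have h1' := eq_of h1
  have h' : ih k cur ((J1 ^^^ (J1 &&& k2)) ^^^ R) (P1 + cONE) stk = true := h
  obtain ⟨g1, g2, g3⟩ := hi _ _ _ _ _ h' hk (le_add (k := 7) (by norm_num) h7 one_le) hs
  refine ⟨⟨fun i hi => sub_of_land' h1' i hi, ?_⟩, g2, g3⟩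
  by_cases hv : ∃ i, 1024 ≤ i ∧ J1.testBit (4 * i + 1) = true
  · obtain ⟨i, i1, i2⟩ := hv
    refine WinAND.vac (i := i) ?_ i1
    rw [ext_bit]; exact i2
  · push Not at hv
    refine and_D h7 (WinOR.mono g1 ?_ ?_ (fun n _ => le_rfl))
    · intro i hi
      rw [ext_bit, Nat.testBit_xor, Nat.testBit_xor, Nat.testBit_and, k2_bit,
        decide_eq_false (show ¬ (4 * i + 0) % 4 = 1 by omega), Bool.and_false, Bool.and_false,
        Bool.xor_false] at hi
      have hm : R.testBit (4 * i + 0) = false := by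
        by_contra hm
        have := hR _ (by simpa using hm)
        omega
      rw [hm, Bool.xor_false] at hi
      rw [ext_bit]; exact hi
    · intro i hi
      rw [ext_bit, Nat.testBit_xor, Nat.testBit_xor, Nat.testBit_and, k2_bit,
        decide_eq_true (show (4 * i + 1) % 4 = 1 by omega), Bool.and_true] at hi
      rw [Nat.testBit_and, ext_bit, ext_bit]
      rcases lt_or_ge i 1024 with h5 | h5
      · rw [decide_eq_true (show 4 * i + 1 < 4096 by omega), Bool.and_true, Bool.xor_self,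
          Bool.false_xor] at hi
        rw [hi, sub_of_land' h1' _ hi]; rfl
      · rw [decide_eq_false (show ¬ 4 * i + 1 < 4096 by omega), Bool.and_false, Bool.xor_false] at hi
        have h6 : J1.testBit (4 * i + 1) = false := by simpa using hv i h5
        rw [h6, Bool.false_xor] at hi
        have := sub_of_land' h1' _ hi
        rw [h6] at this
        exact Bool.noConfusion this

theorem okM : OkT stepM := by
  intro tbl b ih hi k cur J P stk h hk h8 hs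
  have h' : stepMb tbl b ih k (Nat.shiftRight cur 22) J
    (Nat.xor J (Nat.shiftLeft 3 (Nat.land (Nat.shiftRight cur 2) 4092)))
    (kil P (Nat.land (Nat.shiftRight cur 2) 4092)) stk (Nat.land (Nat.shiftRight cur 14) 255)
    (Nat.land (Nat.shiftRight cur 2) 4092) = true := h
  obtain ⟨c, hc1, hc2⟩ := fld4 (Nat.shiftRight cur 2)
  rw [hc2] at h'
  unfold stepMb at h'
  obtain ⟨h1, h'⟩ := and_of h'
  obtain ⟨h2, h'⟩ := and_of h'
  have h1' := eq_of h1
  have h7 : Le 7 (kil P (4 * c)) := le7_of_land (eq_of h2)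
  obtain ⟨⟨g1, g2⟩, g3, g4⟩ := reps_ok h7 (finM_ok hi h7 hk) _ _ _ _ _ _ h' (fun i hi => by
    have : (0 : ℕ).testBit i = true := hi
    rw [Nat.zero_testBit] at this
    exact Bool.noConfusion this) Grp.zero hs
  refine ⟨winJ_M hc1 (sub_of_land' h1' _ ?_) (WinAND.mono g2 (fun i hi => hi) (fun i hi => hi)
    (fun n _ => le_rfl) ?_), g3, g4⟩
  · show (2 <<< (4 * c)).testBit _ = true
    rw [tb2]; simp
  · intro i hi
    rw [ext_bit] at hi
    have : (0 : ℕ).testBit (4 * i + 1) = true := hi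
    rw [Nat.zero_testBit] at this
    exact Bool.noConfusion this

/-! ### the run -/

theorem okOp (tbl : Tr) (b : ℕ) (op : Op) (ih : K3) (hi : OkK tbl b ih) :
    OkK tbl b (@Op.rec (fun _ => K3 → K3) (stepS tbl b) (stepD tbl b) (stepF tbl b) (stepC tbl b)
      (stepG tbl b) (stepM tbl b) (stepX tbl b) (stepP tbl b) (stepE tbl b) (stepZ tbl b)
      (stepT tbl b) op ih) := by
  cases op
  · exact okS _ _ _ hi
  · exact okD _ _ _ hi
  · exact okF _ _ _ hi
  · exact okC _ _ _ hi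
  · exact okG _ _ _ hi
  · exact okM _ _ _ hi
  · exact okX _ _ _ hi
  · exact okP _ _ _ hi
  · exact okE _ _ _ hi
  · exact okZ _ _ _ hi
  · exact okTT _ _ _ hi

theorem ok_run (tbl : Tr) (b : ℕ) : ∀ fuel, OkK tbl b (run3 tbl b fuel)
  | 0 => fun _ _ _ _ _ h => Bool.noConfusion (show (false : Bool) = true from h)
  | fuel + 1 => by
    intro k cur J P stk h
    exact okOp tbl b (dec (Nat.land cur 15)) _ (ok_run tbl b fuel) k cur J P stk h

theorem chk_ok {tbl : Tr} {a b cur : ℕ} (h : chk tbl a b cur = true)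
    (ha : ∀ i, i < a → Wk tbl i) : ∀ i, i < b → Wk tbl i := by
  obtain ⟨h1, h2⟩ := load_ok (ok_run tbl b _) h ha
  intro i hi
  rcases lt_trichotomy i a with h3 | h3 | h3
  · exact ha i h3
  · rw [h3]; exact h1
  · exact h2 h1 i h3 hi

theorem Ok.win {tbl : Tr} {a b : ℕ} (h : Ok tbl a b) (ha : ∀ i, i < a → Wk tbl i) :
    ∀ i, i < b → Wk tbl i := by
  induction h with
  | nil => exact ha
  | step _ h2 ih => exact chk_ok h2 ih

end Pool.Agent.H61.Gom
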