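import Pool.Agent.H61.Gom.Mach

/-!
Compact form of the states: the digits of the windows are given by their difference with a
constant, direction by direction, in a strip of cells.
-/

namespace Pool.Agent.H61.Gom

noncomputable def mkPb (R w m : Nat) : Nat :=
  (Nat.lor (Nat.land (Nat.shiftRight R (nat_lit 36)) m) (Nat.lor (Nat.shiftLeft (Nat.land (Nat.shiftRight R (Nat.add (nat_lit 36) w)) m) (nat_lit 4096)) (Nat.lor (Nat.shiftLeft (Nat.land (Nat.shiftRight R (Nat.add (nat_lit 36) (Nat.mul (nat_lit 2) w))) m) (nat_lit 8192)) (Nat.shiftLeft (Nat.land (Nat.shiftRight R (Nat.add (nat_lit 36) (Nat.mul (nat_lit 3) w))) m) (nat_lit 12288)))))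
noncomputable def mkP (R : Nat) : Nat :=
  (Nat.xor (Nat.mul cONE (Nat.add (nat_lit 4) (Nat.land R (nat_lit 3)))) (Nat.shiftLeft (mkPb R (Nat.land (Nat.shiftRight R (nat_lit 12)) (nat_lit 4092)) (Nat.sub (Nat.shiftLeft (nat_lit 1) (Nat.land (Nat.shiftRight R (nat_lit 12)) (nat_lit 4092))) (nat_lit 1))) (Nat.land R (nat_lit 4092))))
noncomputable def mkJ (R : Nat) : Nat :=
  (Nat.shiftLeft (Nat.shiftRight R (Nat.add (nat_lit 36) (Nat.mul (nat_lit 4) (Nat.land (Nat.shiftRight R (nat_lit 12)) (nat_lit 4092))))) (Nat.land (Nat.shiftRight R (nat_lit 24)) (nat_lit 4092)))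
noncomputable def st (R : Nat) : Tr := Tr.lf (mkJ R) (mkP R)
/-- the empty tree -/
def t0 : Tr := Tr.lf 0 0

end Pool.Agent.H61.Gom
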