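import Pool.Agent.H61.Gom.Rel

/-!
The states won by black: rules, in terms of the boards `B` (black stones), `Al` (available cells)
and of the digits `P`.
-/

set_option autoImplicit false
set_option linter.dupNamespace false

namespace Pool.Agent.H61.Gom

/-- black, to move, wins all the positions described by the state, in bounded time: every
reserved pair may cost one move more -/
def WinOR (B Al P : ℕ) : Prop :=
  ∃ N : ℕ, ∀ E Bc Wc, Rel E B Al P Bc Wc → WinN (N + E.length) Bc Wc

/-- white, to move, loses with all the moves outside `L` and outside of the reserved pairs -/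
def WinAND (B Al P L : ℕ) : Prop :=
  ∃ N : ℕ, ∀ E Bc Wc, Rel E B Al P Bc Wc → ∀ y, y ∉ Bc → y ∉ Wc → y ∉ pcl E →
    (Inner y → L.testBit (ci y) = false) → WinN (N + E.length) Bc (insert y Wc)

theorem WinAND.full {B Al P : ℕ} (h : WinAND B Al P 0) :
    ∃ N : ℕ, ∀ n : ℕ, ∀ E Bc Wc, E.length = n → Rel E B Al P Bc Wc → ∀ y, y ∉ Bc → y ∉ Wc →
      WinN (N + n) Bc (insert y Wc) := by
  obtain ⟨N, h⟩ := h
  refine ⟨N, ?_⟩
  intro n
  induction n with
  | zero =>
    intro E Bc Wc hE hR y hy1 hy2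
    have : E = [] := List.length_eq_zero_iff.1 hE
    subst this
    exact h [] Bc Wc hR y hy1 hy2 (by simp [pcl]) (fun _ => Nat.zero_testBit _)
  | succ n ih =>
    intro E Bc Wc hE hR y hy1 hy2
    by_cases hy : y ∈ pcl E
    · rw [mem_pcl] at hy
      obtain ⟨⟨p, q⟩, hq, hy⟩ := hy
      obtain ⟨s, t, rfl⟩ := List.append_of_mem hq
      have hlen : (s ++ t).length = n := by
        simp only [List.length_append, List.length_cons] at hE ⊢
        omega
      have hne := pair_ne hR.nd hq
      have fp := hR.free p (mem_pcl.2 ⟨_, hq, Or.inl rfl⟩)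
      have fq := hR.free q (mem_pcl.2 ⟨_, hq, Or.inr rfl⟩)
      obtain ⟨r1, r2⟩ := hR.answer
      rcases hy with hy | hy
      · simp only at hy hne
        subst hy
        refine WinN.step' (n := N + n) (by omega) _ _ q fq.1 ?_ ?_
        · rw [Finset.mem_insert, not_or]
          exact ⟨fun e => hne e.symm, fq.2⟩
        · intro z hz1 hz2
          exact ih _ _ _ hlen r1 z hz1 hz2
      · simp only at hy hne
        subst hy
        refine WinN.step' (n := N + n) (by omega) _ _ p fp.1 ?_ ?_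
        · rw [Finset.mem_insert, not_or]
          exact ⟨fun e => hne e, fp.2⟩
        · intro z hz1 hz2
          exact ih _ _ _ hlen r2 z hz1 hz2
    · have := h E Bc Wc hR y hy1 hy2 hy (fun _ => Nat.zero_testBit _)
      rwa [hE] at this

theorem brec (c r : Bool) : @Bool.rec (fun _ => Bool) false r c = (c && r) := by cases c <;> rfl

theorem beq_iff {a b : ℕ} : Nat.beq a b = true ↔ a = b :=
  ⟨Nat.eq_of_beq_eq_true, fun h => h ▸ Nat.beq_refl a⟩

theorem ble_iff {a b : ℕ} : Nat.ble a b = true ↔ a ≤ b :=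
  ⟨Nat.le_of_ble_eq_true, Nat.ble_eq_true_of_le⟩

theorem bit_iff {A a : ℕ} : Nat.land (Nat.shiftRight A a) 1 = 1 ↔ A.testBit a = true := by
  show (A >>> a) &&& 1 = 1 ↔ _
  rw [Nat.testBit, Nat.and_comm, Nat.one_and_eq_mod_two, bne_iff_ne]
  omega

theorem sub_of_land {A A' : ℕ} (h : Nat.land A' A = A') (i : ℕ) (hi : A'.testBit i = true) :
    A.testBit i = true := by
  have h' : A' &&& A = A' := h
  have e := congrArg (fun x => x.testBit i) h'
  simp only [Nat.testBit_and, hi, Bool.true_and] at e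
  exact e

theorem sub_of_land' {A x : ℕ} (h : Nat.land A x = x) (i : ℕ) (hi : x.testBit i = true) :
    A.testBit i = true := by
  apply sub_of_land (A' := x) _ i hi
  show x &&& A = x
  rw [Nat.and_comm]; exact h

/-! ### weakening -/

theorem WinOR.mono {B Al P B' Al' P' : ℕ} (h : WinOR B' Al' P')
    (hB : ∀ i, B'.testBit i = true → B.testBit i = true)
    (hA : ∀ i, Al'.testBit i = true → Al.testBit i = true)
    (hP : ∀ n, n < 4096 → dg P n ≤ dg P' n) : WinOR B Al P := by
  obtain ⟨N, hN⟩ := h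
  exact ⟨N, fun E Bc Wc hR => hN E Bc Wc (hR.mono hB hA hP)⟩

theorem WinAND.mono {B Al P L B' Al' P' L' : ℕ} (h : WinAND B' Al' P' L')
    (hB : ∀ i, B'.testBit i = true → B.testBit i = true)
    (hA : ∀ i, Al'.testBit i = true → Al.testBit i = true)
    (hP : ∀ n, n < 4096 → dg P n ≤ dg P' n)
    (hL : ∀ i, L'.testBit i = true → L.testBit i = true) : WinAND B Al P L := by
  obtain ⟨N, hN⟩ := h
  refine ⟨N, fun E Bc Wc hR y y1 y2 y3 y4 => hN E Bc Wc (hR.mono hB hA hP) y y1 y2 y3 fun hy => ?_⟩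
  have := y4 hy
  by_contra hc
  rw [hL _ (by simpa using hc)] at this
  exact Bool.noConfusion this

/-- there is no such position -/
theorem WinOR.vac {B Al P i : ℕ} (h : Al.testBit i = true) (hi : 1024 ≤ i) : WinOR B Al P := by
  refine ⟨0, fun E Bc Wc hR => ?_⟩
  obtain ⟨c, c1, c2, -⟩ := hR.al _ h
  have := ci_lt c1.inB
  omega

theorem WinAND.vac {B Al P L i : ℕ} (h : Al.testBit i = true) (hi : 1024 ≤ i) :
    WinAND B Al P L := by
  refine ⟨0, fun E Bc Wc hR => ?_⟩
  obtain ⟨c, c1, c2, -⟩ := hR.al _ h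
  have := ci_lt c1.inB
  omega

/-! ### five in a row -/

theorem five_of_bits {S : Finset Cell} {s d : ℕ} (hd : d < 4)
    (h : ∀ j, j < 5 → ∃ c, Inner c ∧ ci c = s + j * sv d ∧ c ∈ S) : Five S := by
  rw [five_iff]
  obtain ⟨e, he1, he2, _⟩ := h 4 (by norm_num)
  refine ⟨e, d, hd, fun j hj => ?_⟩
  obtain ⟨c, hc1, hc2, hc3⟩ := h (4 - j) (by omega)
  have : wc e d j = c := by
    unfold Inner at he1 hc1
    unfold ci at he2 hc2
    unfold wc
    rcases dir_cases hd with rfl | rfl | rfl | rfl <;> simp only [dv, sv] at * <;>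
      (rw [Prod.ext_iff]; simp only []; omega)
  rw [this]; exact hc3

/-- five black stones -/
def FiveB (A d s : ℕ) : Prop := ∀ j, j < 5 → A.testBit (s + j * sv d) = true

theorem FiveB.five {S : Finset Cell} {A d s : ℕ} (hd : d < 4) (h : FiveB A d s)
    (hA : ∀ i, A.testBit i = true → ∃ c, Inner c ∧ ci c = i ∧ c ∈ S) : Five S :=
  five_of_bits hd fun j hj => hA _ (h j hj)

/-! ### black to move -/

theorem win_M {B Al P c : ℕ} (h1 : Al.testBit c = true)
    (h : WinAND (B ||| 1 <<< c) (Al ^^^ 1 <<< c) (clr P c) 0) : WinOR B Al P := by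
  obtain ⟨N, hN⟩ := h.full
  refine ⟨N + 1, ?_⟩
  intro E Bc Wc hR
  obtain ⟨c, hc1, hc2, hc4, hc5⟩ := hR.al _ h1
  rw [← hc2] at h1 hN
  obtain ⟨x, x1, x2, x3, x4⟩ := hR.move hc1 h1
  have hR' := hR.black hc1 h1 x2 x3 x4
  refine WinN.step' (n := N + E.length) (by omega) _ _ x x1 x2 ?_
  intro y hy1 hy2
  exact hN _ E _ _ rfl hR' y hy1 hy2

theorem win_F {B Al P c e d s : ℕ} (hP : Le 8 P) (b1 : Al.testBit c = true)
    (b2 : Al.testBit e = true) (hd : d < 4) (h7 : Le 7 (clr P c))
    (h2 : FiveB (B ||| (1 <<< c ||| 1 <<< e)) d s)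
    (h : WinOR (B ||| 1 <<< c) (Al ^^^ (1 <<< c ||| 1 <<< e)) (clr P c + cPAT <<< (4 * e))) :
    WinOR B Al P := by
  obtain ⟨N, k1⟩ := h
  refine ⟨N + 2, ?_⟩
  intro E Bc Wc hR
  obtain ⟨x, hx1, hx2, hx4, hx5⟩ := hR.al _ b1
  obtain ⟨z, hz1, hz2, hz4, hz5⟩ := hR.al _ b2
  subst hx2 hz2
  obtain ⟨u, u1, u2, u3, u4⟩ := hR.move hx1 b1
  have hR1 := hR.black hx1 b1 u2 u3 u4
  by_cases hxz : x = z
  · subst hxz
    refine WinN.five' (by omega) _ _ u u1 u2 ?_ (hR.noFive hP)
    refine h2.five hd ?_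
    intro i hi
    apply hR1.blk i
    simpa [Nat.testBit_or] using hi
  · have b2' : (Al ^^^ 1 <<< ci x).testBit (ci z) = true := by
      rw [Nat.testBit_xor, testBit_one_shl, b2]
      have : ci x ≠ ci z := fun e => hxz (ci_inj hx1.inB hz1.inB e)
      simp [this]
    refine WinN.step' (n := N + 1 + E.length) (by omega) _ _ u u1 u2 ?_
    intro y hy1 hy2
    by_cases hyz : y = z
    · subst hyz
      refine WinN.mono (n := N + E.length) ?_ (by omega)
      apply k1 E
      refine (hR1.reply h7 hz1 hy1 b2').mono (fun i hi => hi) ?_ (fun n _ => le_rfl)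
      intro i hi
      simp only [Nat.testBit_xor, Nat.testBit_or, testBit_one_shl] at hi ⊢
      have : ci x ≠ ci y := fun e => hxz (ci_inj hx1.inB hz1.inB e)
      by_cases e1 : ci x = i
      · subst e1
        have e2 : ¬ ci y = ci x := fun e => this e.symm
        simpa [e2] using hi
      · simpa [e1] using hi
    · refine win_of_five (by omega) (e := z) ?_ ?_ (hR1.noFive' h7 hy1)
      · rw [Finset.mem_insert, not_or]
        exact ⟨fun e => hyz e.symm, hz4⟩
      · have hR2 := hR1.black hz1 b2' hz4 hz5 (Finset.mem_insert_self _ _)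
        refine h2.five hd ?_
        intro i hi
        apply hR2.blk i
        simp only [Nat.testBit_or] at hi ⊢
        rw [Bool.or_assoc]; exact hi

theorem win_5 {B Al P c d s : ℕ} (hP : Le 8 P) (b1 : Al.testBit c = true) (hd : d < 4)
    (h2 : FiveB (B ||| 1 <<< c) d s) : WinOR B Al P := by
  refine ⟨1, ?_⟩
  intro E Bc Wc hR
  obtain ⟨x, hx1, hx2, hx4, hx5⟩ := hR.al _ b1
  subst hx2
  obtain ⟨u, u1, u2, u3, u4⟩ := hR.move hx1 b1
  have hR1 := hR.black hx1 b1 u2 u3 u4
  exact WinN.five' (by omega) _ _ u u1 u2 (h2.five hd hR1.blk) (hR.noFive hP)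

theorem win_Z {B Al P c e1 e2 s1 d1 s2 d2 : ℕ} (b0 : Al.testBit c = true)
    (b1 : Al.testBit e1 = true) (b2 : Al.testBit e2 = true) (hd1 : d1 < 4) (hd2 : d2 < 4)
    (h7 : Le 7 (clr P c)) (h2 : FiveB (B ||| (1 <<< c ||| 1 <<< e1)) d1 s1)
    (h3 : FiveB (B ||| (1 <<< c ||| 1 <<< e2)) d2 s2) (hne : e1 ≠ e2) : WinOR B Al P := by
  refine ⟨2, ?_⟩
  intro E Bc Wc hR
  obtain ⟨x, hx1, hx2, hx4, hx5⟩ := hR.al _ b0
  obtain ⟨z, hz1, hz2, hz4, hz5⟩ := hR.al _ b1
  obtain ⟨w, hw1, hw2, hw4, hw5⟩ := hR.al _ b2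
  subst hx2 hz2 hw2
  obtain ⟨u, u1, u2, u3, u4⟩ := hR.move hx1 b0
  have hR1 := hR.black hx1 b0 u2 u3 u4
  have key : ∀ z : Cell, Inner z → Al.testBit (ci z) = true → ∀ d s, d < 4 →
      FiveB (B ||| (1 <<< ci x ||| 1 <<< ci z)) d s → Five (insert z (insert u Bc)) := by
    intro z hz1 b1 d s hd hh
    refine hh.five hd ?_
    intro i hi
    simp only [Nat.testBit_or, testBit_one_shl, Bool.or_eq_true, decide_eq_true_eq] at hi
    rcases hi with hi | hi | hi
    · obtain ⟨v, v1, v2, v3⟩ := hR.blk i hi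
      exact ⟨v, v1, v2, Finset.mem_insert_of_mem (Finset.mem_insert_of_mem v3)⟩
    · exact ⟨x, hx1, hi, Finset.mem_insert_of_mem u4⟩
    · exact ⟨z, hz1, hi, Finset.mem_insert_self _ _⟩
  have k1 := key z hz1 b1 _ _ hd1 h2
  have k2 := key w hw1 b2 _ _ hd2 h3
  have hzw : z ≠ w := by
    rintro rfl
    exact hne rfl
  refine WinN.step' (n := 1 + E.length) (by omega) _ _ u u1 u2 ?_
  intro y hy1 hy2
  by_cases hyz : y = z
  · subst hyz
    refine win_of_five (by omega) ?_ k2 (hR1.noFive' h7 hy1)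
    rw [Finset.mem_insert, not_or]
    exact ⟨fun e => hzw e.symm, hw4⟩
  · refine win_of_five (by omega) ?_ k1 (hR1.noFive' h7 hy1)
    rw [Finset.mem_insert, not_or]
    exact ⟨fun e => hyz e.symm, hz4⟩

/-- a straight four -/
theorem win_S {B Al P s d j : ℕ} (hd : d < 4) (hj1 : 1 ≤ j) (hj4 : j ≤ 4)
    (hb : ∀ i, 1 ≤ i → i ≤ 4 → i ≠ j → B.testBit (s + i * sv d) = true)
    (a0 : Al.testBit s = true) (aj : Al.testBit (s + j * sv d) = true)
    (a5 : Al.testBit (s + 5 * sv d) = true) (h7 : Le 7 (clr P (s + j * sv d))) : WinOR B Al P := by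
  have hv : 0 < sv d := by rcases dir_cases hd with rfl | rfl | rfl | rfl <;> norm_num [sv]
  refine win_Z (s1 := s) (d1 := d) (s2 := s + sv d) (d2 := d) aj a0 a5 hd hd h7 ?_ ?_ (by omega)
  · intro i hi
    simp only [Nat.testBit_or, testBit_one_shl, Bool.or_eq_true, decide_eq_true_eq]
    rcases Nat.eq_zero_or_pos i with rfl | h0
    · right; right; simp
    · by_cases e : i = j
      · right; left; rw [e]
      · left; exact hb i h0 (by omega) e
  · intro i hi
    have e1 : s + sv d + i * sv d = s + (i + 1) * sv d := by ring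
    rw [e1]
    simp only [Nat.testBit_or, testBit_one_shl, Bool.or_eq_true, decide_eq_true_eq]
    by_cases h4 : i = 4
    · subst h4; right; right; rfl
    · by_cases e : i + 1 = j
      · right; left; rw [e]
      · left; exact hb (i + 1) (by omega) (by omega) e

theorem dg_small {x k : ℕ} (hx : x < 16) : dg x k = if k = 0 then x else 0 := by
  unfold dg
  split_ifs with h
  · subst h; simp; omega
  · have : 16 ≤ 16 ^ k := by
      calc 16 = 16 ^ 1 := by norm_num
        _ ≤ 16 ^ k := Nat.pow_le_pow_right (by norm_num) (by omega)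
    rw [Nat.div_eq_of_lt (by omega)]

theorem dg_low {P n k : ℕ} (m : ℕ) : dg (P - (dg P n - k) <<< (4 * n)) m =
    dg P m - if m = n then dg P n - k else 0 := by
  set x := dg P n - k with hx
  have hx16 : x < 16 := by have := dg_lt P n; omega
  have hQ : ∀ m, dg (x <<< (4 * n)) m = if m = n then x else 0 := by
    intro m
    rw [dg_shift]
    split_ifs with i1 i2 i2
    · subst i2; rw [dg_small hx16, Nat.sub_self, if_pos rfl]
    · rw [dg_small hx16, if_neg (by omega)]
    · omega
    · rfl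
  have hle : x <<< (4 * n) ≤ P := by
    rw [Nat.shiftLeft_eq, ← pow16]
    have h3 : x ≤ P / 16 ^ n := by
      have : dg P n ≤ P / 16 ^ n := Nat.mod_le _ _
      omega
    exact (Nat.mul_le_mul_right _ h3).trans (Nat.div_mul_le_self _ _)
  rw [dg_sub hle, hQ]
  intro m' _
  rw [hQ]
  split_ifs with i
  · subst i; omega
  · omega

/-- the number of white stones of a window is at most the number of its cells that are not
available -/
theorem win_C {B Al P k e d : ℕ} {b : ℕ → ℕ} (he : e < 1024) (hd : d < 4)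
    (hb : ∀ j, j < 5 → b j ≤ 1)
    (hb' : ∀ j, j < 5 → b j = 1 → (j * sv d ≤ e ∧ Al.testBit (e - j * sv d) = true) ∨
      B.testBit 0 = true)
    (h1 : 5 ≤ k + (b 0 + (b 1 + (b 2 + (b 3 + b 4)))))
    (h : WinOR B Al (P - (dg P (1024 * d + e) - (k + 4)) <<< (4 * (1024 * d + e)))) :
    WinOR B Al P := by
  set n := 1024 * d + e with hn
  have hsub : ∀ m, dg (P - (dg P n - (k + 4)) <<< (4 * n)) m =
    dg P m - if m = n then dg P n - (k + 4) else 0 := dg_low
  obtain ⟨N, k1⟩ := h
  refine ⟨N, ?_⟩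
  intro E Bc Wc hR
  apply k1 E
  have hB0 : B.testBit 0 = true → False := by
    intro h0
    obtain ⟨c, c1, c2, -⟩ := hR.blk _ h0
    have := ci_pos c1
    omega
  refine hR.cap (k := k) n ?_ ?_ ?_
  · intro e' d' hd' hpos
    have hcard5 : ((Finset.range 5).filter fun j =>
        ¬ (Inner (wc e' d' j) ∧ Al.testBit (ci (wc e' d' j)) = true)).card ≤ 5 :=
      (Finset.card_filter_le _ _).trans (by simp)
    unfold pos at hpos
    split_ifs at hpos with hw
    · have hci := ci_lt hw.1
      have hdd : d' = d := by omega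
      have hee : ci e' = e := by omega
      subst hdd
      have hidx : ∀ j, j < 5 → ci (wc e' d' j) = e - j * sv d' ∧ InB (wc e' d' j) := by
        intro j hj
        rw [← hee]
        obtain ⟨w1, w2⟩ := hw
        unfold InB ci wc at *
        rcases dir_cases hd' with rfl | rfl | rfl | rfl <;> simp only [dv, sv] at * <;> omega
      have hterm : ∀ j, j < 5 →
          (if ¬ (Inner (wc e' d' j) ∧ Al.testBit (ci (wc e' d' j)) = true) then 1 else 0) +
            b j ≤ 1 := by
        intro j hj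
        obtain ⟨i1, i2⟩ := hidx j hj
        have hbj := hb j hj
        by_cases hbb : b j = 1
        · obtain ⟨_, hb'⟩ := (hb' j hj hbb).resolve_right hB0
          obtain ⟨c, c1, c2, -⟩ := hR.al _ hb'
          have : c = wc e' d' j := ci_inj c1.inB i2 (by rw [c2, i1])
          rw [if_neg]
          · omega
          · rw [not_not, i1]
            exact ⟨this ▸ c1, hb'⟩
        · split_ifs <;> omega
      rw [Finset.card_filter]
      simp only [Finset.sum_range_succ, Finset.sum_range_zero]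
      have t0 := hterm 0 (by norm_num)
      have t1 := hterm 1 (by norm_num)
      have t2 := hterm 2 (by norm_num)
      have t3 := hterm 3 (by norm_num)
      have t4 := hterm 4 (by norm_num)
      omega
    · have hd0 : d = 0 := by omega
      have he0 : e = 0 := by omega
      subst hd0 he0
      have hz : ∀ j, j < 5 → b j = 0 := by
        intro j hj
        have := hb j hj
        by_contra hne
        obtain ⟨_, hb'⟩ := (hb' j hj (by omega)).resolve_right hB0
        obtain ⟨c, c1, c2, -⟩ := hR.al _ hb'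
        have := ci_pos c1
        omega
      have z0 := hz 0 (by norm_num)
      have z1 := hz 1 (by norm_num)
      have z2 := hz 2 (by norm_num)
      have z3 := hz 3 (by norm_num)
      have z4 := hz 4 (by norm_num)
      omega
  · intro m _ hm
    rw [hsub, if_neg hm]; omega
  · rw [hsub, if_pos rfl]; omega

open Classical in
/-- two available cells put aside as a pair -/
theorem win_E {B Al P B' Al' P' p q : ℕ} (h7 : Le 7 P) (b1 : Al.testBit p = true)
    (b2 : Al.testBit q = true) (hpq : p ≠ q) (hB : ∀ i, B'.testBit i = true → B.testBit i = true)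
    (hA : ∀ i, Al'.testBit i = true → Al.testBit i = true) (a1 : Al'.testBit p = false)
    (a2 : Al'.testBit q = false)
    (g6 : ∀ n, n < 4096 → dg ((P + (cPAT <<< (4 * p) + cPAT <<< (4 * q))) ^^^
      ((P + (cPAT <<< (4 * p) + cPAT <<< (4 * q))) &&&
        (cKILL <<< (4 * p) &&& cKILL <<< (4 * q)))) n ≤ dg P' n)
    (h : WinOR B' Al' P') : WinOR B Al P := by
  obtain ⟨N, hN⟩ := h
  refine ⟨N + 1, ?_⟩
  intro E Bc Wc hR
  obtain ⟨x, hx1, hx2, -⟩ := hR.al _ b1
  obtain ⟨z, hz1, hz2, -⟩ := hR.al _ b2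
  subst hx2 hz2
  have hne : x ≠ z := by rintro rfl; exact hpq rfl
  have hpair := hR.pair hx1 hz1 hne b1 b2 hA a1 a2 (P' := P') ?_
  · obtain ⟨E', hlen, hR1⟩ := hpair
    exact (hN _ Bc Wc (hR1.mono hB (fun i hi => hi) (fun n _ => le_rfl))).mono
      (by omega)
  · intro e d hd hnb
    refine le_trans ?_ (g6 _ (pos_lt e hd))
    rw [dg_xor, dg_land, dg_land, dg_kill hd hx1, dg_kill hd hz1]
    have e0 : ((if InW e d x then 15 else 0) &&& (if InW e d z then 15 else 0) : ℕ) = 0 := by
      by_cases i1 : InW e d x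
      · by_cases i2 : InW e d z
        · exact absurd ⟨i1, i2⟩ hnb
        · rw [if_neg i2]; simp
      · rw [if_neg i1]; simp
    rw [e0, (xor_land _ (dg_lt _ _)).1]
    have s1 : ∀ m, m ≤ pos e d → dg (cPAT <<< (4 * ci x)) m + dg (cPAT <<< (4 * ci z)) m < 16 := by
      intro m _
      have := dg_pat_le (ci x) m
      have := dg_pat_le (ci z) m
      omega
    have s2 : dg (P + (cPAT <<< (4 * ci x) + cPAT <<< (4 * ci z))) (pos e d) =
        dg P (pos e d) + ((if InW e d x then 1 else 0) + (if InW e d z then 1 else 0)) := by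
      rw [dg_add, dg_add s1, dg_pat hd hx1, dg_pat hd hz1]
      intro m hm
      rw [dg_add (fun k hk => s1 k (hk.trans hm))]
      have := dg_pat_le (ci x) m
      have := dg_pat_le (ci z) m
      have := h7 m (hm.trans_lt (pos_lt e hd))
      omega
    rw [s2]
    have t1 := cnt_insert_le' (insert z (Wc ∪ (pcl E).toFinset)) x e d
    have t2 := cnt_insert_le' (Wc ∪ (pcl E).toFinset) z e d
    omega

/-! ### white to move -/

theorem and_D {B Al P L : ℕ} (h7 : Le 7 P) (h : WinOR B (Al &&& L) (P + cONE)) :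
    WinAND B Al P L := by
  obtain ⟨N, k1⟩ := h
  refine ⟨N, ?_⟩
  intro E Bc Wc hR y hy1 hy2 hy3 hyL
  exact k1 E _ _ (hR.default h7 hy1 hy3 hyL)

theorem and_G {B Al P L Alg WM : ℕ} (h7 : Le 7 P) (hw : Le 1 WM)
    (hsub : ∀ i, Alg.testBit i = true → Al.testBit i = true)
    (hit : ∀ c, Inner c → Al.testBit (ci c) = true → Alg.testBit (ci c) = false →
      ∀ e d, d < 4 → InW e d c → 1 ≤ dg WM (pos e d))
    (k1 : WinOR B Alg (P + WM)) (k3 : WinAND B Al P (L ||| (Al ^^^ Alg))) : WinAND B Al P L := by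
  obtain ⟨N1, k1⟩ := k1
  obtain ⟨N2, k3⟩ := k3
  refine ⟨N1 + N2, ?_⟩
  intro E Bc Wc hR y hy1 hy2 hy3 hyL
  by_cases hy : Inner y ∧ Al.testBit (ci y) = true ∧ Alg.testBit (ci y) = false
  · obtain ⟨i1, i2, i3⟩ := hy
    exact (k1 E _ _ (hR.group h7 i1 hy1 i2 hw hsub i3
      (fun e d hd hw => hit y i1 i2 i3 e d hd hw))).mono (by omega)
  · refine (k3 E Bc Wc hR y hy1 hy2 hy3 (fun hin => ?_)).mono (by omega)
    rw [Nat.testBit_or, hyL hin, Bool.false_or, Nat.testBit_xor]
    by_cases a1 : Al.testBit (ci y) = true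
    · by_cases a2 : Alg.testBit (ci y) = true
      · rw [a1, a2]; rfl
      · exact absurd ⟨hin, a1, by simpa using a2⟩ hy
    · have a2 : Alg.testBit (ci y) = false := by
        by_contra hne
        exact a1 (hsub _ (by simpa using hne))
      rw [a2]
      simpa using a1

end Pool.Agent.H61.Gom
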